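import Pool.Agent.H80.AJ.Local

set_option autoImplicit false

open Filter Topology Metric Set

namespace Pool.Agent.H80.AJ

/-
Distortion theorem with a bad constant.
Proof. `K = 40 ^ 256`. For `w w' ∈ closedBall c (R/2)` let `p i = w' + (i/256) (w - w')`,
`i = 0..256`: these are in `closedBall c (R/2)` (convex), `ball (p i) (R/2) ⊆ ball c R`,
`‖p (i+1) - p i‖ ≤ R/256 = (R/2)/128`, so `local_upper` on `ball (p i) (R/2)` gives
`‖deriv g (p (i+1))‖ ≤ 40 ‖deriv g (p i)‖`; induct.
-/
theorem distortion : ∃ K : ℝ, 1 ≤ K ∧ ∀ (g : ℂ → ℂ) (c : ℂ) (R : ℝ), 0 < R →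
    DifferentiableOn ℂ g (ball c R) → InjOn g (ball c R) → ∀ w ∈ closedBall c (R / 2),
    ∀ w' ∈ closedBall c (R / 2), ‖deriv g w‖ ≤ K * ‖deriv g w'‖ := by
  refine ⟨40 ^ 256, one_le_pow₀ (by norm_num), ?_⟩
  intro g c R hR hg hi w hw w' hw'
  set p : ℕ → ℂ := fun i => w' + (((i : ℝ) / 256 : ℝ) : ℂ) * (w - w') with hp
  have hmem : ∀ i : ℕ, i ≤ 256 → p i ∈ closedBall c (R / 2) := by
    intro i hi'
    have hconv := convex_closedBall c (R / 2)
    have h1 : (i : ℝ) / 256 ≤ 1 := by
      rw [div_le_one (by norm_num)]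
      exact_mod_cast hi'
    have h2 := hconv hw' hw (a := 1 - (i : ℝ) / 256) (b := (i : ℝ) / 256) (by linarith)
      (by positivity) (by ring)
    have h3 : (1 - (i : ℝ) / 256) • w' + ((i : ℝ) / 256) • w = p i := by
      rw [hp]
      simp only [Complex.real_smul]
      push_cast
      ring
    rw [h3] at h2
    exact h2
  have hdist : ‖w - w'‖ ≤ R := by
    have h1 := mem_closedBall.1 hw
    have h2 := mem_closedBall.1 hw'
    rw [← dist_eq_norm]
    calc dist w w' ≤ dist w c + dist c w' := dist_triangle _ _ _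
      _ ≤ R / 2 + R / 2 := by rw [dist_comm c w']; gcongr
      _ = R := by ring
  have hstep : ∀ i : ℕ, i < 256 → ‖deriv g (p (i + 1))‖ ≤ 40 * ‖deriv g (p i)‖ := by
    intro i hi'
    have hsub : ball (p i) (R / 2) ⊆ ball c R := by
      intro u hu
      have h1 := mem_closedBall.1 (hmem i (by omega))
      have h2 := mem_ball.1 hu
      rw [mem_ball]
      calc dist u c ≤ dist u (p i) + dist (p i) c := dist_triangle _ _ _
        _ < R / 2 + R / 2 := by linarith
        _ = R := by ring
    apply local_upper (by positivity) (hg.mono hsub) (hi.mono hsub)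
    have h3 : p (i + 1) - p i = ((1 / 256 : ℝ) : ℂ) * (w - w') := by
      rw [hp]
      push_cast
      ring
    rw [h3, norm_mul, Complex.norm_real, Real.norm_eq_abs, abs_of_pos (by norm_num)]
    linarith
  have hind : ∀ i : ℕ, i ≤ 256 → ‖deriv g (p i)‖ ≤ 40 ^ i * ‖deriv g (p 0)‖ := by
    intro i
    induction i with
    | zero => intro _; simp
    | succ i ih =>
      intro h1
      have h2 := hstep i (by omega)
      have h3 := ih (by omega)
      rw [pow_succ]
      nlinarith
  have h4 := hind 256 le_rfl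
  have h5 : p 256 = w := by rw [hp]; norm_num
  have h6 : p 0 = w' := by rw [hp]; norm_num
  rw [h5, h6] at h4
  exact h4

/-- a constant for which the distortion theorem holds -/
noncomputable def KK : ℝ := distortion.choose

theorem one_le_KK : 1 ≤ KK := distortion.choose_spec.1

theorem KK_pos : 0 < KK := lt_of_lt_of_le one_pos one_le_KK

theorem distort {g : ℂ → ℂ} {c : ℂ} {R : ℝ} (hR : 0 < R) (hg : DifferentiableOn ℂ g (ball c R))
    (hi : InjOn g (ball c R)) {w w' : ℂ} (hw : w ∈ closedBall c (R / 2))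
    (hw' : w' ∈ closedBall c (R / 2)) : ‖deriv g w‖ ≤ KK * ‖deriv g w'‖ :=
  distortion.choose_spec.2 g c R hR hg hi w hw w' hw'

/-- Lipschitz form (mean value on the convex closed ball). -/
theorem distort_lip {g : ℂ → ℂ} {c : ℂ} {R : ℝ} (hR : 0 < R)
    (hg : DifferentiableOn ℂ g (ball c R)) (hi : InjOn g (ball c R)) {w w' v : ℂ}
    (hw : w ∈ closedBall c (R / 2)) (hw' : w' ∈ closedBall c (R / 2))
    (hv : v ∈ closedBall c (R / 2)) : ‖g w - g w'‖ ≤ KK * ‖deriv g v‖ * ‖w - w'‖ := by
  have hsub : closedBall c (R / 2) ⊆ ball c R := closedBall_subset_ball (by linarith)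
  refine Convex.norm_image_sub_le_of_norm_deriv_le (𝕜 := ℂ) (s := closedBall c (R / 2)) ?_ ?_
    (convex_closedBall c (R / 2)) hw' hw
  · intro u hu
    exact hg.differentiableAt (isOpen_ball.mem_nhds (hsub hu))
  · intro u hu
    exact distort hR hg hi hu hv

/-- the derivative of a univalent function does not vanish on the half ball (distort: if it
vanishes at one point it vanishes on the whole closed ball, so `g` is constant there) -/
theorem deriv_ne {g : ℂ → ℂ} {c : ℂ} {R : ℝ} (hR : 0 < R)
    (hg : DifferentiableOn ℂ g (ball c R)) (hi : InjOn g (ball c R)) {w : ℂ}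
    (hw : w ∈ closedBall c (R / 2)) : 0 < ‖deriv g w‖ := by
  by_contra hcon
  have h0 : ‖deriv g w‖ = 0 := le_antisymm (not_lt.1 hcon) (norm_nonneg _)
  have hc : c ∈ closedBall c (R / 2) := mem_closedBall_self (by positivity)
  have hc' : c + ((R / 2 : ℝ) : ℂ) ∈ closedBall c (R / 2) := by
    rw [mem_closedBall, dist_eq_norm, add_sub_cancel_left, Complex.norm_real, Real.norm_eq_abs,
      abs_of_pos (by positivity)]
  have h1 := distort_lip hR hg hi hc hc' hw
  rw [h0, mul_zero, zero_mul] at h1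
  have h2 : g c = g (c + ((R / 2 : ℝ) : ℂ)) := by
    rw [← sub_eq_zero, ← norm_eq_zero]
    exact le_antisymm h1 (norm_nonneg _)
  have hsub : closedBall c (R / 2) ⊆ ball c R := closedBall_subset_ball (by linarith)
  have h3 := hi (hsub hc) (hsub hc') h2
  have h4 : ((R / 2 : ℝ) : ℂ) = 0 := by
    have h5 : c + 0 = c + ((R / 2 : ℝ) : ℂ) := by rw [add_zero]; exact h3
    exact (add_left_cancel h5).symm
  rw [Complex.ofReal_eq_zero] at h4
  linarith

end Pool.Agent.H80.AJ
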