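import Pool.Agent.H80.AJ.Defs
import Pool.Agent.H46.Oka.Domain

set_option autoImplicit false

open Filter Topology Metric Set

namespace Pool.Agent.H80.AJ

/-
Bootstrapping with the square root (replaces the area theorem).
Proof. Let `g` be in the class and suppose `w0` with `‖w0‖ < √t/4` is not in `g '' ball 0 1`; then
`w0 ≠ 0` (g 0 = 0). `u z = 1 - g z / w0` is holomorphic without zeros on the ball, so there is a
holomorphic `ψ` with `ψ^2 = u` (exp of half of the logarithm: `Pool.Agent.H46.Oka.exists_log_ball`);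
`ψ 0 = 1` or `-1`, replace `ψ` by `-ψ`: `ψ 0 = 1`. Derivative at 0: `2 ψ 0 * deriv ψ 0 = - 1/w0`,
so `deriv ψ 0 = -1/(2 w0)`. `ψ` is injective (`ψ a = ψ b` gives `g a = g b`), and `ψ a = - ψ b`
is impossible (it gives `g a = g b`, `a = b`, `ψ a = 0`).
Let `φ z = - 2 w0 (ψ z - 1)`: holomorphic, injective, `φ 0 = 0`, `deriv φ 0 = 1`, and
`‖φ z‖ ≤ 2 ‖w0‖ (1 + ‖ψ z‖)`, `‖ψ z‖^2 ≤ 1 + M/‖w0‖`, so with `a = ‖w0‖ < 1/4` (t ≤ 1)
`‖φ z‖ ≤ 2 a + 2 √(a^2 + M a) ≤ 1/2 + √(1/4 + M) ≤ M` since `1/4 + M ≤ (M - 1/2)^2` for `M ≥ 2`.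
So `Cov M t` applies to `φ`: `ball 0 t ⊆ φ '' ball 0 1`, i.e. `ψ` takes every value in
`ball 1 τ`, `τ = t/(2 ‖w0‖)`. Hence `ψ z ∉ ball (-1) τ` for all `z` in the ball:
`τ ≤ ‖ψ z + 1‖`. The function `κ z = 1/(ψ z + 1)` is bounded by `1/τ` on `ball 0 1` and
`deriv κ 0 = - deriv ψ 0 / 4`, Cauchy (`Complex.norm_deriv_le_of_forall_mem_sphere_norm_le` on
circles of radius `R < 1`, `R → 1`, or the Schwarz lemma) `‖deriv κ 0‖ ≤ 1/τ` (a bound
`(1/τ)/R` for every `R < 1` suffices). So `1/(8 a) ≤ 2 a / t`, `t ≤ 16 a^2`, `√t/4 ≤ a`,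
contradiction.
-/
theorem cov_step {M t : ℝ} (hM : 2 ≤ M) (ht : 0 < t) (ht1 : t ≤ 1) (h : Cov M t) :
    Cov M (√t / 4) := by
  intro g hg hinj h0 h1 hbd w hw
  by_contra hnot
  rw [mem_ball, dist_zero_right] at hw
  have hb0 : (0 : ℂ) ∈ ball (0 : ℂ) 1 := mem_ball_self one_pos
  have hw0 : w ≠ 0 := by
    rintro rfl
    exact hnot ⟨0, hb0, h0⟩
  set a : ℝ := ‖w‖ with ha
  have ha0 : 0 < a := norm_pos_iff.2 hw0
  have hsqt : √t ≤ 1 := Real.sqrt_le_one.2 ht1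
  have hsq : √t * √t = t := Real.mul_self_sqrt ht.le
  have hst0 : 0 < √t := Real.sqrt_pos.2 ht
  have ha4 : a < 1 / 4 := by linarith
  have h16 : 16 * a ^ 2 < t := by nlinarith
  -- u and its logarithm
  set u : ℂ → ℂ := fun z => 1 - g z / w with hu
  have hud : DifferentiableOn ℂ u (ball 0 1) := (hg.div_const w).const_sub 1
  have hune : ∀ z ∈ ball (0 : ℂ) 1, u z ≠ 0 := by
    intro z hz h2
    apply hnot
    refine ⟨z, hz, ?_⟩
    rw [hu] at h2
    simp only at h2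
    have h3 : g z / w = 1 := (sub_eq_zero.1 h2).symm
    rwa [div_eq_one_iff_eq hw0] at h3
  have hu0 : u 0 = 1 := by simp [hu, h0]
  have hginj : ∀ x ∈ ball (0 : ℂ) 1, ∀ y ∈ ball (0 : ℂ) 1, u x = u y → x = y := by
    intro x hx y hy hxy
    apply hinj hx hy
    rw [hu] at hxy
    simp only at hxy
    have h3 := sub_right_inj.1 hxy
    exact (div_left_inj' hw0).1 h3
  obtain ⟨L, hLd, hL⟩ := Pool.Agent.H46.Oka.exists_log_ball one_pos hud hune
  set ψ0 : ℂ → ℂ := fun z => Complex.exp (L z / 2) with hψ0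
  have hψ0sq : ∀ z ∈ ball (0 : ℂ) 1, ψ0 z ^ 2 = u z := by
    intro z hz
    rw [← hL z hz, hψ0]
    simp only
    rw [← Complex.exp_nat_mul]
    congr 1
    push_cast
    ring
  have hψ0d : DifferentiableOn ℂ ψ0 (ball 0 1) := (hLd.div_const 2).cexp
  have hs0 : ψ0 0 ^ 2 = 1 := by rw [hψ0sq 0 hb0, hu0]
  set ψ : ℂ → ℂ := fun z => ψ0 0 * ψ0 z with hψ
  have hψsq : ∀ z ∈ ball (0 : ℂ) 1, ψ z ^ 2 = u z := by
    intro z hz
    rw [hψ]
    simp only
    rw [mul_pow, hs0, one_mul, hψ0sq z hz]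
  have hψd : DifferentiableOn ℂ ψ (ball 0 1) := hψ0d.const_mul _
  have hψ00 : ψ 0 = 1 := by
    rw [hψ]
    simp only
    rw [← sq, hs0]
  have hψat : ∀ z ∈ ball (0 : ℂ) 1, HasDerivAt ψ (deriv ψ z) z := fun z hz =>
    ((hψd z hz).differentiableAt (isOpen_ball.mem_nhds hz)).hasDerivAt
  have hψ1 : deriv ψ 0 = -(1 / (2 * w)) := by
    have e1 : HasDerivAt (fun z => ψ z ^ 2) (2 * ψ 0 * deriv ψ 0) 0 := by
      have h3 : HasDerivAt (fun z => ψ z ^ 2) (((2 : ℕ) : ℂ) * ψ 0 ^ (2 - 1) * deriv ψ 0) 0 :=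
        (hψat 0 hb0).pow 2
      refine h3.congr_deriv ?_
      norm_num
    have e2 : HasDerivAt u (-(1 / w)) 0 := by
      have h3 : HasDerivAt g (deriv g 0) 0 :=
        ((hg 0 hb0).differentiableAt (isOpen_ball.mem_nhds hb0)).hasDerivAt
      rw [h1] at h3
      exact (h3.div_const w).const_sub 1
    have e3 : (fun z => ψ z ^ 2) =ᶠ[𝓝 0] u := by
      filter_upwards [isOpen_ball.mem_nhds hb0] with z hz
      exact hψsq z hz
    have e4 := (e2.congr_of_eventuallyEq e3).unique e1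
    rw [hψ00, mul_one] at e4
    have e5 : deriv ψ 0 = -(1 / w) / 2 := by rw [e4]; ring
    rw [e5]
    field_simp
  have hψne : ∀ z ∈ ball (0 : ℂ) 1, ψ z ≠ 0 := by
    intro z hz h2
    apply hune z hz
    rw [← hψsq z hz, h2]
    ring
  -- phi
  set φ : ℂ → ℂ := fun z => -(2 * w) * (ψ z - 1) with hφ
  have h2w : -(2 * w) ≠ 0 := neg_ne_zero.2 (mul_ne_zero two_ne_zero hw0)
  have hn2w : ‖-(2 * w)‖ = 2 * a := by
    rw [norm_neg, norm_mul, Complex.norm_two]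
  have hφd : DifferentiableOn ℂ φ (ball 0 1) := (hψd.sub_const 1).const_mul _
  have hφi : InjOn φ (ball 0 1) := by
    intro x hx y hy hxy
    have h2 : ψ x = ψ y := sub_left_inj.1 (mul_left_cancel₀ h2w hxy)
    apply hginj x hx y hy
    rw [← hψsq x hx, ← hψsq y hy, h2]
  have hφ0 : φ 0 = 0 := by simp [hφ, hψ00]
  have hφ1 : deriv φ 0 = 1 := by
    have h2 : HasDerivAt φ (-(2 * w) * deriv ψ 0) 0 :=
      ((hψat 0 hb0).sub_const 1).const_mul (-(2 * w))
    rw [h2.deriv, hψ1]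
    field_simp
  have hφb : ∀ z ∈ ball (0 : ℂ) 1, ‖φ z‖ ≤ M := by
    intro z hz
    have h2 : ‖ψ z‖ ^ 2 ≤ 1 + M / a := by
      rw [← norm_pow, hψsq z hz, hu]
      simp only
      refine (norm_sub_le _ _).trans ?_
      rw [norm_one, norm_div]
      have := div_le_div_of_nonneg_right (hbd z hz) ha0.le
      linarith
    have h3 : ‖φ z‖ ≤ 2 * a * (‖ψ z‖ + 1) := by
      rw [hφ]
      simp only
      rw [norm_mul, hn2w]
      refine mul_le_mul_of_nonneg_left ?_ (by positivity)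
      have := norm_sub_le (ψ z) 1
      rwa [norm_one] at this
    have h4 : (2 * a * ‖ψ z‖) ^ 2 ≤ (M - 1 / 2) ^ 2 := by
      have h5 : (2 * a * ‖ψ z‖) ^ 2 ≤ 4 * a ^ 2 * (1 + M / a) := by
        have : (2 * a * ‖ψ z‖) ^ 2 = 4 * a ^ 2 * ‖ψ z‖ ^ 2 := by ring
        rw [this]
        exact mul_le_mul_of_nonneg_left h2 (by positivity)
      have h6 : 4 * a ^ 2 * (1 + M / a) = 4 * a ^ 2 + 4 * a * M := by
        field_simp
      rw [h6] at h5
      nlinarith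
    have h5 : 2 * a * ‖ψ z‖ ≤ M - 1 / 2 :=
      le_of_sq_le_sq h4 (by linarith)
    nlinarith
  have hcov := h φ hφd hφi hφ0 hφ1 hφb
  set τ : ℝ := t / (2 * a) with hτ
  have hτ0 : 0 < τ := by positivity
  have hfar : ∀ z ∈ ball (0 : ℂ) 1, τ ≤ ‖ψ z + 1‖ := by
    intro z hz
    by_contra hlt
    push Not at hlt
    have h2 : -(2 * w) * (-ψ z - 1) ∈ ball (0 : ℂ) t := by
      rw [mem_ball, dist_zero_right, norm_mul, hn2w]
      have h3 : ‖-ψ z - 1‖ = ‖ψ z + 1‖ := by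
        rw [← norm_neg]; congr 1; ring
      rw [h3]
      calc 2 * a * ‖ψ z + 1‖ < 2 * a * τ := mul_lt_mul_of_pos_left hlt (by positivity)
        _ = t := by rw [hτ]; field_simp
    obtain ⟨z', hz', hzz⟩ := hcov h2
    have h3 : ψ z' = -ψ z := sub_left_inj.1 (mul_left_cancel₀ h2w hzz)
    have h4 : z' = z := by
      apply hginj z' hz' z hz
      rw [← hψsq z' hz', ← hψsq z hz, h3]
      ring
    rw [h4] at h3
    apply hψne z hz
    have h5 : ψ z + ψ z = 0 := by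
      nth_rewrite 1 [h3]
      ring
    have h6 : (2 : ℂ) * ψ z = 0 := by rw [two_mul]; exact h5
    exact (mul_eq_zero.1 h6).resolve_left two_ne_zero
  have hne : ∀ z ∈ ball (0 : ℂ) 1, ψ z + 1 ≠ 0 := by
    intro z hz h2
    have h3 := hfar z hz
    rw [h2, norm_zero] at h3
    linarith
  set κ : ℂ → ℂ := fun z => (ψ z + 1)⁻¹ with hκ
  have hκd : DifferentiableOn ℂ κ (ball 0 1) := (hψd.add_const 1).inv hne
  have hκb : ∀ z ∈ ball (0 : ℂ) 1, ‖κ z‖ ≤ 1 / τ := by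
    intro z hz
    rw [hκ]
    simp only
    rw [norm_inv, ← one_div]
    exact one_div_le_one_div_of_le hτ0 (hfar z hz)
  have hκ1 : ‖deriv κ 0‖ = 1 / (8 * a) := by
    have h2 : HasDerivAt κ (-(deriv ψ 0) / (ψ 0 + 1) ^ 2) 0 :=
      ((hψat 0 hb0).add_const 1).inv (hne 0 hb0)
    rw [h2.deriv, hψ1, hψ00]
    have h3 : -(-(1 / (2 * w))) / ((1 : ℂ) + 1) ^ 2 = 1 / (8 * w) := by
      field_simp
      ring
    rw [h3, norm_div, norm_mul, norm_one]
    have h4 : ‖(8 : ℂ)‖ = 8 := by simp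
    rw [h4]
  -- choose the radius
  set q : ℝ := 16 * a ^ 2 / t with hq
  have hq1 : q < 1 := by rw [hq, div_lt_one ht]; exact h16
  have hq0 : 0 < q := by positivity
  set R : ℝ := (q + 1) / 2 with hRdef
  have hR0 : 0 < R := by positivity
  have hR1 : R < 1 := by rw [hRdef]; linarith
  have hqR : q < R := by rw [hRdef]; linarith
  have hsub : closedBall (0 : ℂ) R ⊆ ball 0 1 := closedBall_subset_ball hR1
  have hdc : DiffContOnCl ℂ κ (ball 0 R) := by
    apply DifferentiableOn.diffContOnCl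
    rw [closure_ball (0 : ℂ) hR0.ne']
    exact hκd.mono hsub
  have h2 := Complex.norm_deriv_le_of_forall_mem_sphere_norm_le hR0 hdc
    (fun z hz => hκb z (hsub (sphere_subset_closedBall hz)))
  rw [hκ1, hτ] at h2
  have h3 : R ≤ q := by
    have h4 : 1 / (t / (2 * a)) / R = 2 * a / (t * R) := by
      field_simp
    rw [h4, div_le_div_iff₀ (by positivity) (by positivity)] at h2
    rw [hq, le_div_iff₀ ht]
    nlinarith
  linarith

end Pool.Agent.H80.AJ
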