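import Pool.Agent.H80.AJ.CovBase
import Pool.Agent.H80.AJ.CovStep

set_option autoImplicit false

open Filter Topology Metric Set

namespace Pool.Agent.H80.AJ

/-
Proof. Let T = {t | 0 < t ∧ t ≤ 1 ∧ Cov M t}, κ = sSup T. `Cov M κ` (every point of `ball 0 κ` is in
some `ball 0 t`, `t ∈ T`), `0 < κ ≤ 1` by cov_base; `√κ/4 ∈ T` by cov_step, so `√κ/4 ≤ κ`, hence
`√κ ≥ 1/4` and `κ ≥ 1/16`; `Cov M` is monotone decreasing in `t`.
-/
theorem cov_all {M : ℝ} (hM : 2 ≤ M) : Cov M (1 / 16) := by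
  set T : Set ℝ := {t | 0 < t ∧ t ≤ 1 ∧ Cov M t} with hT
  obtain ⟨t0, ht0, ht01, hc0⟩ := cov_base (show 1 ≤ M by linarith)
  have hne : T.Nonempty := ⟨t0, ht0, ht01, hc0⟩
  have hbdd : BddAbove T := ⟨1, fun t ht => ht.2.1⟩
  set κ : ℝ := sSup T with hκ
  have hκ0 : 0 < κ := lt_of_lt_of_le ht0 (le_csSup hbdd ⟨ht0, ht01, hc0⟩)
  have hκ1 : κ ≤ 1 := csSup_le hne fun t ht => ht.2.1
  have hcκ : Cov M κ := by
    intro g hg hi h0 h1 hb w hw
    rw [mem_ball, dist_zero_right] at hw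
    obtain ⟨t, ht, hwt⟩ := exists_lt_of_lt_csSup hne hw
    exact ht.2.2 g hg hi h0 h1 hb (by rwa [mem_ball, dist_zero_right])
  have hs := cov_step hM hκ0 hκ1 hcκ
  have hsq0 : 0 < √κ := Real.sqrt_pos.2 hκ0
  have hsq1 : √κ ≤ 1 := Real.sqrt_le_one.2 hκ1
  have hsq : √κ * √κ = κ := Real.mul_self_sqrt hκ0.le
  have hle : √κ / 4 ≤ κ := le_csSup hbdd ⟨by positivity, by linarith, hs⟩
  have h14 : 1 / 4 ≤ √κ := by
    by_contra hlt
    push Not at hlt
    nlinarith
  have h16 : 1 / 16 ≤ κ := by nlinarith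
  intro g hg hi h0 h1 hb
  exact (ball_subset_ball h16).trans (hcκ g hg hi h0 h1 hb)

/-
Covering theorem (weak form of the Koebe 1/4 theorem, constant 1/16).
Proof. If `deriv g c = 0` the ball is empty. Else for `0 < ρ < 1` the function
`G z = (g (c + R ρ z) - g c) / (deriv g c * R * ρ)` is holomorphic and injective on `ball 0 1`,
`G 0 = 0`, `deriv G 0 = 1`, bounded (g is continuous on the compact `closedBall c (R ρ)`), so
`cov_all` with a large `M` gives `ball (g c) (ρ R ‖deriv g c‖ / 16) ⊆ g '' ball c R`. A point of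
`ball (g c) (R ‖deriv g c‖ / 16)` is in one of these for `ρ` close to 1.
-/
theorem univ_cover {g : ℂ → ℂ} {c : ℂ} {R : ℝ} (hR : 0 < R) (hg : DifferentiableOn ℂ g (ball c R))
    (hi : InjOn g (ball c R)) : ball (g c) (R * ‖deriv g c‖ / 16) ⊆ g '' ball c R := by
  intro w hw
  rw [mem_ball, dist_eq_norm] at hw
  by_cases hd : deriv g c = 0
  · rw [hd, norm_zero, mul_zero, zero_div] at hw
    exact absurd hw (not_lt.2 (norm_nonneg _))
  have hdn : 0 < ‖deriv g c‖ := norm_pos_iff.2 hd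
  obtain ⟨ρ, hρ1, hρ⟩ : ∃ ρ : ℝ, ρ < 1 ∧ (0 < ρ ∧ ‖w - g c‖ < ρ * (R * ‖deriv g c‖ / 16)) := by
    have hB : 0 < R * ‖deriv g c‖ / 16 := by positivity
    set q : ℝ := ‖w - g c‖ / (R * ‖deriv g c‖ / 16) with hq
    have hq0 : 0 ≤ q := by positivity
    have hq1 : q < 1 := by rw [hq, div_lt_one hB]; exact hw
    refine ⟨(q + 1) / 2, by linarith, by linarith, ?_⟩
    have h2 : ‖w - g c‖ = q * (R * ‖deriv g c‖ / 16) := by
      rw [hq, div_mul_cancel₀ _ hB.ne']
    rw [h2]
    exact mul_lt_mul_of_pos_right (by linarith) hB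
  obtain ⟨hρ0, hwρ⟩ := hρ
  set s : ℝ := R * ρ with hs
  have hs0 : 0 < s := by positivity
  have hsR : s < R := by nlinarith
  have hsC : (s : ℂ) ≠ 0 := by exact_mod_cast hs0.ne'
  -- the compact disc
  have hcb : closedBall c s ⊆ ball c R := closedBall_subset_ball hsR
  obtain ⟨C, hC⟩ := (isCompact_closedBall c s).exists_bound_of_continuousOn
    (f := fun z => g z - g c) ((hg.continuousOn.mono hcb).sub continuousOn_const)
  have hmap : ∀ z ∈ ball (0 : ℂ) 1, c + s * z ∈ closedBall c s := by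
    intro z hz
    rw [mem_ball, dist_zero_right] at hz
    rw [mem_closedBall, dist_eq_norm, add_sub_cancel_left, norm_mul, Complex.norm_real,
      Real.norm_eq_abs, abs_of_pos hs0]
    nlinarith
  set D : ℂ := deriv g c * s with hD
  have hD0 : D ≠ 0 := mul_ne_zero hd hsC
  have hDn : ‖D‖ = ‖deriv g c‖ * s := by
    rw [hD, norm_mul, Complex.norm_real, Real.norm_eq_abs, abs_of_pos hs0]
  set G : ℂ → ℂ := fun z => (g (c + s * z) - g c) / D with hG
  have hGd : DifferentiableOn ℂ G (ball 0 1) := by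
    refine DifferentiableOn.div_const (DifferentiableOn.sub_const ?_ _) _
    refine hg.comp ?_ (fun z hz => hcb (hmap z hz))
    exact ((differentiable_const c).add
      ((differentiable_const (s : ℂ)).mul differentiable_id)).differentiableOn
  have hGi : InjOn G (ball 0 1) := by
    intro x hx y hy hxy
    have h1 : g (c + s * x) = g (c + s * y) := by
      have h2 := (div_left_inj' hD0).1 hxy
      exact sub_left_inj.1 h2
    have h3 := hi (hcb (hmap x hx)) (hcb (hmap y hy)) h1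
    exact mul_left_cancel₀ hsC (add_left_cancel h3)
  have hG0 : G 0 = 0 := by simp [hG]
  have hG1 : deriv G 0 = 1 := by
    have hgc : HasDerivAt g (deriv g c) (c + s * 0) := by
      rw [mul_zero, add_zero]
      exact ((hg c (mem_ball_self hR)).differentiableAt
        (isOpen_ball.mem_nhds (mem_ball_self hR))).hasDerivAt
    have hin : HasDerivAt (fun z : ℂ => c + s * z) (s : ℂ) 0 := by
      have := ((hasDerivAt_id (0 : ℂ)).const_mul (s : ℂ)).const_add c
      simpa using this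
    have h1 : HasDerivAt (fun z : ℂ => g (c + s * z)) (deriv g c * s) 0 :=
      hgc.comp (0 : ℂ) hin
    have h2 : HasDerivAt G (deriv g c * s / D) 0 := (h1.sub_const (g c)).div_const D
    rw [h2.deriv, div_self hD0]
  have hGb : ∀ z ∈ ball (0 : ℂ) 1, ‖G z‖ ≤ max 2 (C / ‖D‖) := by
    intro z hz
    refine le_trans ?_ (le_max_right _ _)
    rw [hG]
    simp only
    rw [norm_div]
    exact div_le_div_of_nonneg_right (hC _ (hmap z hz)) (norm_nonneg _)
  have hcov := cov_all (le_max_left 2 (C / ‖D‖)) G hGd hGi hG0 hG1 hGb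
  have hmem : (w - g c) / D ∈ ball (0 : ℂ) (1 / 16) := by
    rw [mem_ball, dist_zero_right, norm_div, hDn, div_lt_iff₀ (by positivity)]
    have : ρ * (R * ‖deriv g c‖ / 16) = 1 / 16 * (‖deriv g c‖ * s) := by rw [hs]; ring
    rw [← this]
    exact hwρ
  obtain ⟨z, hz, hzw⟩ := hcov hmem
  refine ⟨c + s * z, hcb (hmap z hz), ?_⟩
  have h1 := (div_left_inj' hD0).1 hzw
  exact sub_left_inj.1 h1

end Pool.Agent.H80.AJ
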