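import Pool.Agent.H79.Par.TanDef

set_option autoImplicit false

open Filter Topology Polynomial OnePoint Metric Set

namespace Pool.Agent.H80.AJ

open Pool.Agent.H44.Fatou Pool.Agent.H32.BT Pool.Agent.H79.Par

theorem fixMult_fix {F : OnePoint ℂ → OnePoint ℂ} {z : OnePoint ℂ} {a : ℂ} (h : FixMult F z a) :
    F z = z := by
  rcases h with ⟨w, G, rfl, hw, -, he⟩ | ⟨G, rfl, hw, -, he⟩
  · have h1 := he.self_of_nhds
    rw [hw] at h1
    exact h1
  · have h1 := he.self_of_nhds
    rw [hw] at h1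
    unfold inv1 at h1
    rw [if_pos rfl] at h1
    exact h1

theorem ev_iter {F : OnePoint ℂ → OnePoint ℂ} {ψ : ℂ → OnePoint ℂ} {G : ℂ → ℂ} {w : ℂ}
    (hG : G w = w) (hc : ContinuousAt G w) (h : ∀ᶠ u : ℂ in 𝓝 w, F (ψ u) = ψ (G u)) (k : ℕ) :
    ∀ᶠ u : ℂ in 𝓝 w, F^[k] (ψ u) = ψ (G^[k] u) := by
  induction k with
  | zero => exact Eventually.of_forall fun u => rfl
  | succ k ih =>
    have h1 : Tendsto G (𝓝 w) (𝓝 w) := by
      have h2 := hc.tendsto
      rwa [hG] at h2
    filter_upwards [h, h1.eventually ih] with u hu1 hu2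
    rw [Function.iterate_succ_apply, Function.iterate_succ_apply, hu1, hu2]

/-
Proof. Both cases of FixMult are the same: `ψ = coe` with base point `w`, resp. `ψ = inv1` with base
point `0`: `F (ψ u) = ψ (G u)` near the base point, `G` fixes it and has derivative `a` there, so
by induction (continuity of `G` at the base point) `F^[k] (ψ u) = ψ (G^[k] u)` near it, and
`G^[k]` has derivative `a ^ k` (`HasDerivAt.iterate` or chain rule).
-/
theorem fixMult_iter {F : OnePoint ℂ → OnePoint ℂ} {z : OnePoint ℂ} {a : ℂ} (h : FixMult F z a)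
    (k : ℕ) : FixMult F^[k] z (a ^ k) := by
  rcases h with ⟨w, G, hz, hw, hd, he⟩ | ⟨G, hz, hw, hd, he⟩
  · exact Or.inl ⟨w, G^[k], hz, Function.iterate_fixed hw k, hd.iterate _ hw k,
      ev_iter (ψ := fun u : ℂ => (u : OnePoint ℂ)) hw hd.continuousAt he k⟩
  · exact Or.inr ⟨G^[k], hz, Function.iterate_fixed hw k, hd.iterate _ hw k,
      ev_iter (ψ := inv1) hw hd.continuousAt he k⟩

end Pool.Agent.H80.AJ
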