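import Pool.Agent.H80.AJ.Defs

set_option autoImplicit false

open Filter Topology Polynomial OnePoint Metric Set MeasureTheory

namespace Pool.Agent.H80.AJ

open Pool.Agent.H44.Fatou Pool.Agent.H32.BT

/-
Proof. `f^[j] ⁻¹' {y}` is finite (`rat_fiber_finite`, induction on `j`), so the set of all `x` with
some `f^[j] x ∈ C` is countable, and countable sets of complex numbers are null.
-/
theorem land_null {P Q : Polynomial ℂ} (h : IsCoprime P Q) (hd : 1 ≤ max P.natDegree Q.natDegree)
    {C : Set (OnePoint ℂ)} (hC : C.Countable) :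
    ∀ᵐ x : ℂ, ∀ j : ℕ, (rat P Q)^[j] (x : OnePoint ℂ) ∉ C := by
  have h1 : ∀ j : ℕ, {y : OnePoint ℂ | (rat P Q)^[j] y ∈ C}.Countable := by
    intro j
    induction j with
    | zero => exact hC
    | succ j ih =>
      have h2 : {y : OnePoint ℂ | (rat P Q)^[j + 1] y ∈ C} ⊆
          ⋃ w ∈ {y : OnePoint ℂ | (rat P Q)^[j] y ∈ C}, {y | rat P Q y = w} := by
        intro y hy
        rw [Set.mem_ofPred_eq, Function.iterate_succ_apply] at hy
        exact mem_biUnion (x := rat P Q y) hy rfl
      exact (ih.biUnion fun w _ => (rat_fiber_finite h hd w).countable).mono h2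
  rw [ae_all_iff]
  intro j
  have h3 : {x : ℂ | (rat P Q)^[j] (x : OnePoint ℂ) ∈ C}.Countable :=
    (h1 j).preimage OnePoint.coe_injective
  have h4 : volume {x : ℂ | (rat P Q)^[j] (x : OnePoint ℂ) ∈ C} = 0 := h3.measure_zero _
  rw [ae_iff]
  simpa using h4

end Pool.Agent.H80.AJ
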