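import Mathlib
import Pool.Agent.H32.BT.Branch

/-!
# Area of the set of points whose orbits do not converge to a cycle: definitions
-/

set_option autoImplicit false

open Filter Topology Polynomial OnePoint Metric Set MeasureTheory

namespace Pool.Agent.H80.AJ

open Pool.Agent.H44.Fatou Pool.Agent.H32.BT

/-- covering property of normalized univalent functions bounded by `M` -/
def Cov (M t : ℝ) : Prop :=
  ∀ g : ℂ → ℂ, DifferentiableOn ℂ g (ball 0 1) → InjOn g (ball 0 1) → g 0 = 0 → deriv g 0 = 1 →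
    (∀ z ∈ ball (0 : ℂ) 1, ‖g z‖ ≤ M) → ball (0 : ℂ) t ⊆ g '' ball 0 1

/-- the orbit of `x` converges to the cycle of the periodic point `p` -/
def CL {X : Type*} [TopologicalSpace X] (f : X → X) (x p : X) (n : ℕ) : Prop :=
  0 < n ∧ f^[n] p = p ∧ Tendsto (fun k : ℕ => f^[n * k] x) atTop (𝓝 p)

/-- the orbit of `x` accumulates outside `A` -/
def Bad {X : Type*} [TopologicalSpace X] (f : X → X) (A : Set X) (x : X) : Prop :=
  ∃ y, y ∉ A ∧ MapClusterPt y atTop (fun k : ℕ => f^[k] x)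

/-- the orbits of the seeds and their limit cycles -/
def AA {X : Type*} (f : X → X) (S : Set X) (p : X → X) : Set X :=
  {x | ∃ s ∈ S, ∃ k : ℕ, x = f^[k] s ∨ x = f^[k] (p s)}

/-- a closed countable forward invariant set containing the critical values, infinity and some
finite point -/
structure Sys (P Q : Polynomial ℂ) (A : Set (OnePoint ℂ)) : Prop where
  cop : IsCoprime P Q
  deg : 1 ≤ max P.natDegree Q.natDegree
  closed : IsClosed A
  count : A.Countable
  inv : ∀ x ∈ A, rat P Q x ∈ A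
  crit : ∀ c, IsCrit (rat P Q) c → rat P Q c ∈ A
  inf : ∞ ∈ A
  fin : ∃ a : ℂ, (a : OnePoint ℂ) ∈ A

/-- the disc `ball w R` does not meet `A` -/
def Off (A : Set (OnePoint ℂ)) (w : ℂ) (R : ℝ) : Prop :=
  ∀ u ∈ ball w R, (u : OnePoint ℂ) ∉ A

/-- `G` is an inverse branch of `f^[n]` on `ball w R` with `G w = z` -/
structure Br (f : OnePoint ℂ → OnePoint ℂ) (n : ℕ) (w : ℂ) (R : ℝ) (z : ℂ) (G : ℂ → ℂ) : Prop where
  diff : DifferentiableOn ℂ G (ball w R)
  val : G w = z
  inv : ∀ u ∈ ball w R, f^[n] (G u : OnePoint ℂ) = (u : OnePoint ℂ)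

/-- the iterates `f^[m j]` converge to the identity uniformly on `ball x ρ` -/
def NearId (f : OnePoint ℂ → OnePoint ℂ) (m : ℕ → ℕ) (x : ℂ) (ρ : ℝ) : Prop :=
  ∀ η : ℝ, 0 < η → ∀ᶠ j in atTop, ∀ w ∈ ball x ρ,
    ∃ w' : ℂ, f^[m j] (w : OnePoint ℂ) = (w' : OnePoint ℂ) ∧ ‖w' - w‖ < η

end Pool.Agent.H80.AJ
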