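import Pool.Agent.H79.Par.BasinRe

set_option autoImplicit false

open Filter Topology Metric Set

namespace Pool.Agent.H80.AJ

open Pool.Agent.H79.Par

/-
Attracting petals. Proof. `W u = -(1/(N a u^N))`. `basin_step`: there is `ε1 ≤ ε` with
`‖W (F u) - W u - 1‖ < 1/2` for `0 < ‖u‖ < ε1`, and (from NF) `F u ≠ 0` for these `u`
(`F u = u (1 + u^N k u)`). If `u ≠ 0` and `R1 ≤ Re (W u)`, `R1 > 0` large, then
`‖u‖^N ≤ 1/(N ‖a‖ R1) < ε1^N`. So `Re W (F u) ≥ Re (W u) + 1/2`; by induction `F^[j] u ≠ 0`,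
`‖F^[j] u‖ < ε1`, `Re (W (F^[j] u)) ≥ R1 + j/2`, hence `‖F^[j] u‖^N ≤ 1/(N ‖a‖ (R1 + j/2)) → 0`.
-/
theorem petal_key {N : ℕ} {a : ℂ} (hN : 1 ≤ N) (ha : a ≠ 0) {v : ℂ} {η : ℝ} (hη : 0 < η)
    (hv : η ≤ ‖v‖) : (-(1 / (N * a * v ^ N))).re ≤ 1 / (N * ‖a‖ * η ^ N) := by
  have hN0 : (0 : ℝ) < N := by exact_mod_cast (by omega : 0 < N)
  have ha0 : 0 < ‖a‖ := norm_pos_iff.2 ha
  refine (Complex.re_le_norm _).trans ?_
  rw [norm_neg, norm_div, norm_one, norm_mul, norm_mul, norm_pow, Complex.norm_natCast]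
  apply one_div_le_one_div_of_le (by positivity)
  gcongr

theorem petal {F k : ℂ → ℂ} {N : ℕ} {a : ℂ} (hN : 1 ≤ N) (ha : a ≠ 0) (h : NF F k N a) {ε : ℝ}
    (hε : 0 < ε) : ∃ R1 : ℝ, ∀ u : ℂ, u ≠ 0 → R1 ≤ (-(1 / (N * a * u ^ N))).re →
      (∀ j : ℕ, ‖F^[j] u‖ < ε) ∧ Tendsto (fun j : ℕ => F^[j] u) atTop (𝓝 0) := by
  have hN0 : (0 : ℝ) < N := by exact_mod_cast (by omega : 0 < N)
  have ha0 : 0 < ‖a‖ := norm_pos_iff.2 ha
  have h1 := basin_step hN ha h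
  have h2 : Tendsto (fun u : ℂ => (-(1 / (N * a * F u ^ N)) - -(1 / (N * a * u ^ N))).re)
      (𝓝[≠] 0) (𝓝 (1 : ℂ).re) := (Complex.continuous_re.tendsto 1).comp h1
  have h3 : ∀ᶠ u in 𝓝[≠] (0 : ℂ), (1 : ℝ) / 2 <
      (-(1 / (N * a * F u ^ N)) - -(1 / (N * a * u ^ N))).re :=
    h2.eventually_const_lt (by norm_num)
  obtain ⟨hk, hk0, hF⟩ := h
  have hkc : Tendsto k (𝓝 0) (𝓝 a) := by
    have := hk.continuousAt.tendsto
    rwa [hk0] at this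
  have hy : Tendsto (fun u : ℂ => 1 + u ^ N * k u) (𝓝 0) (𝓝 1) := by
    have h1 : Tendsto (fun u : ℂ => u ^ N) (𝓝 0) (𝓝 (0 ^ N)) := (continuous_pow N).tendsto 0
    have h2 := (h1.mul hkc).const_add 1
    rwa [zero_pow (by omega), zero_mul, add_zero] at h2
  have hne : ∀ᶠ u in 𝓝 (0 : ℂ), 1 + u ^ N * k u ≠ 0 := hy.eventually_ne one_ne_zero
  have h4 : ∀ᶠ u in 𝓝[≠] (0 : ℂ), (1 : ℝ) / 2 <
      (-(1 / (N * a * F u ^ N)) - -(1 / (N * a * u ^ N))).re ∧ F u ≠ 0 := by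
    filter_upwards [h3, nhdsWithin_le_nhds hF, nhdsWithin_le_nhds hne, self_mem_nhdsWithin]
      with u e1 e2 e3 e4
    refine ⟨e1, ?_⟩
    rw [e2]
    have e5 : u + u ^ (N + 1) * k u = u * (1 + u ^ N * k u) := by ring
    rw [e5]
    exact mul_ne_zero e4 e3
  rw [eventually_nhdsWithin_iff, Metric.eventually_nhds_iff] at h4
  obtain ⟨ε1, hε1, h5⟩ := h4
  obtain ⟨ε2, hε2⟩ : ∃ ε2 : ℝ, ε2 = min ε ε1 := ⟨_, rfl⟩
  have hε20 : 0 < ε2 := by rw [hε2]; exact lt_min hε hε1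
  have hle : ε2 ≤ ε := by rw [hε2]; exact min_le_left _ _
  have hle1 : ε2 ≤ ε1 := by rw [hε2]; exact min_le_right _ _
  refine ⟨1 / (N * ‖a‖ * ε2 ^ N) + 1, ?_⟩
  intro u hu0 hu
  have hsmall : ∀ v : ℂ, 1 / (N * ‖a‖ * ε2 ^ N) + 1 ≤ (-(1 / (N * a * v ^ N))).re →
      ‖v‖ < ε2 := by
    intro v hv
    by_contra hcon
    have := petal_key hN ha hε20 (not_lt.1 hcon)
    linarith
  have hind : ∀ j : ℕ, F^[j] u ≠ 0 ∧ 1 / (N * ‖a‖ * ε2 ^ N) + 1 + j / 2 ≤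
      (-(1 / (N * a * (F^[j] u) ^ N))).re := by
    intro j
    induction j with
    | zero => exact ⟨hu0, by simpa using hu⟩
    | succ j ih =>
      obtain ⟨e1, e2⟩ := ih
      have hj0 : (0 : ℝ) ≤ (j : ℝ) / 2 := by positivity
      have e3 := hsmall _ (by linarith : 1 / (N * ‖a‖ * ε2 ^ N) + 1 ≤
        (-(1 / (N * a * (F^[j] u) ^ N))).re)
      obtain ⟨e4, e5⟩ := h5 (y := F^[j] u) (by rw [dist_zero_right]; linarith) e1
      rw [Function.iterate_succ_apply']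
      refine ⟨e5, ?_⟩
      rw [Complex.sub_re] at e4
      push_cast
      linarith
  constructor
  · intro j
    have hj0 : (0 : ℝ) ≤ (j : ℝ) / 2 := by positivity
    exact lt_of_lt_of_le (hsmall _ (by linarith [(hind j).2])) hle
  · rw [Metric.tendsto_atTop]
    intro η hη
    obtain ⟨J, hJ⟩ := exists_nat_gt (2 * (1 / (N * ‖a‖ * η ^ N)))
    refine ⟨J, fun j hj => ?_⟩
    rw [dist_zero_right]
    by_contra hcon
    have e1 := petal_key hN ha hη (not_lt.1 hcon)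
    have e2 := (hind j).2
    have e3 : (0 : ℝ) ≤ 1 / (N * ‖a‖ * ε2 ^ N) := by positivity
    have e4 : (J : ℝ) ≤ j := by exact_mod_cast hj
    linarith

end Pool.Agent.H80.AJ
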