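import Pool.Agent.H79.Par.TanDef
import Pool.Agent.H80.AJ.Petal
import Pool.Agent.H80.AJ.Defs
import Pool.Agent.H32.BT.IterDiff

set_option autoImplicit false

open Filter Topology Polynomial OnePoint Metric Set

namespace Pool.Agent.H80.AJ

open Pool.Agent.H44.Fatou Pool.Agent.H32.BT Pool.Agent.H79.Par

/-
The basin of a parabolic cycle is open at a point which does not land (normalized coordinate).
Proof. `z = w` is finite (`i = 0`). On a small ball `S` around `w` all `f^[i] u`, `i ≤ n`, are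
finite (continuity), so `iter_diff` gives `F0` holomorphic on `S` with `f^[n] u = F0 u`; `F0 w = w`,
and `F0 = G` near `w` (FixMult), so `HasDerivAt F0 1 w`. `F u = F0 (w + u) - w` is analytic at 0,
`F 0 = 0`, `HasDerivAt F 1 0`. For large `k` `f^[n k] c = w + u k` with `u k → 0`, `u k ≠ 0`,
`u (k+1) = F (u k)`, so `F` is not the identity near 0 (`u` would be eventually constant).
`normal_form`, `basin_re` (shift the sequence): `Re W (u k) → ∞`. `petal` with `ε` such that
`w + ball 0 ε ⊆ S` gives `R1`; take `k0` with `Re W (u k0) ≥ R1 + 1`; by continuity of `W` at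
`u k0 ≠ 0` all `u` near `u k0` satisfy the hypotheses of petal, and
`f^[n j] (w + u) = w + F^[j] u → w`. Pull back by the continuous map `f^[n k0]` at `c`
(`f^[n (j + k0)] x = f^[n j] (f^[n k0] x)`).
-/
theorem petal_fix {P Q : Polynomial ℂ} (h : IsCoprime P Q) {c z : OnePoint ℂ} {n : ℕ}
    (hT : Ty2 (rat P Q) c z n) (hfin : ∀ i ≤ n, (rat P Q)^[i] z ≠ ∞) :
    ∀ᶠ x in 𝓝 c, CL (rat P Q) x z n := by
  classical
  obtain ⟨hn, hFM, hlim, hnl⟩ := hT
  set f : OnePoint ℂ → OnePoint ℂ := rat P Q with hf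
  have hfc : Continuous f := rat_continuous h
  have hfi : ∀ i, Continuous f^[i] := fun i => hfc.iterate i
  -- the fixed point is finite
  obtain ⟨w, G, hzw, hGw, hGd, hGe⟩ : ∃ (w : ℂ) (G : ℂ → ℂ), z = (w : OnePoint ℂ) ∧ G w = w ∧
      HasDerivAt G 1 w ∧ ∀ᶠ u : ℂ in 𝓝 w, f^[n] (u : OnePoint ℂ) = (G u : OnePoint ℂ) := by
    rcases hFM with h1 | ⟨G, h1, _⟩
    · exact h1
    · exact absurd h1 (hfin 0 (Nat.zero_le _))
  subst hzw
  -- a ball on which the iterates are finite
  have hev : ∀ᶠ u : ℂ in 𝓝 w, ∀ i ∈ Finset.range (n + 1), f^[i] (u : OnePoint ℂ) ≠ ∞ := by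
    rw [Finset.eventually_all]
    intro i hi
    have hi' : i ≤ n := by rw [Finset.mem_range] at hi; omega
    have hcont : ContinuousAt (fun u : ℂ => f^[i] (u : OnePoint ℂ)) w :=
      ((hfi i).comp OnePoint.continuous_coe).continuousAt
    exact hcont.eventually_ne (hfin i hi')
  obtain ⟨r, hr, hball⟩ := Metric.eventually_nhds_iff_ball.1 hev
  obtain ⟨F0, hF0d, hF0e⟩ := iter_diff h (S := ball w r) isOpen_ball n (by
    intro u hu i hi
    have h1 := hball u hu i (by rw [Finset.mem_range]; omega)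
    obtain ⟨y, hy⟩ := OnePoint.ne_infty_iff_exists.1 h1
    exact ⟨y, hy.symm⟩)
  have hwb : ball w r ∈ 𝓝 w := ball_mem_nhds w hr
  have hF0G : ∀ᶠ u in 𝓝 w, F0 u = G u := by
    filter_upwards [hwb, hGe] with u hu hu'
    have h1 := hF0e u hu
    rw [hu'] at h1
    exact (OnePoint.coe_injective h1).symm
  have hF0w : F0 w = w := by rw [hF0G.self_of_nhds, hGw]
  have hF0D : HasDerivAt F0 1 w := hGd.congr_of_eventuallyEq hF0G
  have hF0A : AnalyticAt ℂ F0 w := hF0d.analyticAt hwb
  set F : ℂ → ℂ := fun u => F0 (w + u) - w with hF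
  have hFA : AnalyticAt ℂ F 0 := by
    have h1 : AnalyticAt ℂ (fun u : ℂ => w + u) 0 := analyticAt_const.add analyticAt_id
    have h2 : AnalyticAt ℂ F0 ((fun u : ℂ => w + u) 0) := by simpa using hF0A
    exact (h2.comp h1).sub analyticAt_const
  have hF00 : F 0 = 0 := by simp [hF, hF0w]
  have hFD : HasDerivAt F 1 0 := by
    have h1 : HasDerivAt (fun u : ℂ => w + u) 1 0 := (hasDerivAt_id (0 : ℂ)).const_add w
    have h2 : HasDerivAt F0 1 ((fun u : ℂ => w + u) 0) := by simpa using hF0D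
    have h3 := (h2.comp (0 : ℂ) h1).sub_const w
    simpa [hF, Function.comp_def] using h3
  -- the orbit of c
  have himg : ∀ᶠ k : ℕ in atTop, f^[n * k] c ∈ ((↑) : ℂ → OnePoint ℂ) '' ball w r := by
    apply hlim
    exact OnePoint.isOpenEmbedding_coe.isOpenMap.image_mem_nhds hwb
  obtain ⟨k1, hk1⟩ := eventually_atTop.1 himg
  have hex : ∀ j : ℕ, ∃ u : ℂ, f^[n * (k1 + j)] c = ((w + u : ℂ) : OnePoint ℂ) ∧ w + u ∈ ball w r := by
    intro j
    obtain ⟨y, hy, hy'⟩ := hk1 (k1 + j) (by omega)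
    refine ⟨y - w, ?_, ?_⟩
    · rw [← hy']; congr 1; ring
    · have : w + (y - w) = y := by ring
      rw [this]; exact hy
  choose u hu hub using hex
  have hu0 : ∀ j, u j ≠ 0 := by
    intro j h0
    apply hnl (k1 + j)
    rw [hu j, h0, add_zero]
  have hstep : ∀ j, u (j + 1) = F (u j) := by
    intro j
    have h1 : f^[n * (k1 + (j + 1))] c = f^[n] (f^[n * (k1 + j)] c) := by
      rw [← Function.iterate_add_apply]
      congr 1
      ring
    rw [hu (j + 1), hu j, hF0e _ (hub j)] at h1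
    have h2 := OnePoint.coe_injective h1
    simp only [hF]
    rw [← h2]; ring
  have hulim : Tendsto u atTop (𝓝 0) := by
    have h1 : Tendsto (fun j : ℕ => f^[n * (k1 + j)] c) atTop (𝓝 (w : OnePoint ℂ)) := by
      have h2 : Tendsto (fun j : ℕ => k1 + j) atTop atTop := tendsto_atTop_mono (fun j => Nat.le_add_left j k1) tendsto_id
      exact hlim.comp h2
    have h3 : Tendsto (((↑) : ℂ → OnePoint ℂ) ∘ fun j => w + u j) atTop (𝓝 (w : OnePoint ℂ)) := by
      refine h1.congr fun j => ?_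
      rw [hu j]; rfl
    rw [← OnePoint.isOpenEmbedding_coe.isInducing.tendsto_nhds_iff] at h3
    have h4 := h3.const_add (-w)
    simpa using h4
  have hnid : ¬ ∀ᶠ x in 𝓝 (0 : ℂ), F x = x := by
    intro hid
    have h1 : ∀ᶠ j in atTop, F (u j) = u j := hulim.eventually hid
    obtain ⟨J, hJ⟩ := eventually_atTop.1 h1
    have h2 : ∀ i, u (J + i) = u J := by
      intro i
      induction i with
      | zero => rfl
      | succ i ih =>
        rw [← add_assoc, hstep, hJ (J + i) (by omega), ih]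
    have h3 : Tendsto (fun i => u (J + i)) atTop (𝓝 0) := by
      have h4 : Tendsto (fun j : ℕ => J + j) atTop atTop :=
        tendsto_atTop_mono (fun j => Nat.le_add_left j J) tendsto_id
      exact hulim.comp h4
    have h5 : Tendsto (fun _ : ℕ => u J) atTop (𝓝 0) := h3.congr h2
    exact hu0 J (tendsto_nhds_unique tendsto_const_nhds h5)
  obtain ⟨N, a, k, hN, ha, hNF⟩ := normal_form hFA hF00 hFD hnid
  have hre := basin_re hN ha hNF (Eventually.of_forall hstep) hulim hu0
  obtain ⟨R1, hR1⟩ := petal hN ha hNF hr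
  obtain ⟨j0, hj0⟩ := (hre.eventually_ge_atTop (R1 + 1)).exists
  -- an open set around u j0
  have hWc : ContinuousAt (fun v : ℂ => (-(1 / (N * a * v ^ N))).re) (u j0) := by
    have hN0 : (N : ℂ) ≠ 0 := by exact_mod_cast (by omega : N ≠ 0)
    have h1 : ContinuousAt (fun v : ℂ => -(1 / (N * a * v ^ N))) (u j0) := by
      apply ContinuousAt.neg
      apply ContinuousAt.div continuousAt_const
      · exact (continuous_const.mul (continuous_pow N)).continuousAt
      · exact mul_ne_zero (mul_ne_zero hN0 ha) (pow_ne_zero _ (hu0 j0))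
    exact Complex.continuous_re.continuousAt.comp h1
  have hloc : ∀ᶠ v in 𝓝 (u j0), v ≠ 0 ∧ R1 ≤ (-(1 / (N * a * v ^ N))).re := by
    have h1 : ∀ᶠ v in 𝓝 (u j0), v ≠ 0 := isOpen_ne.mem_nhds (hu0 j0)
    have h2 : ∀ᶠ v in 𝓝 (u j0), R1 < (-(1 / (N * a * v ^ N))).re :=
      hWc.eventually_const_lt (by linarith)
    filter_upwards [h1, h2] with v e1 e2
    exact ⟨e1, e2.le⟩
  -- convergence for the points w + v
  have hconv : ∀ v : ℂ, v ≠ 0 → R1 ≤ (-(1 / (N * a * v ^ N))).re →
      Tendsto (fun j : ℕ => f^[n * j] ((w + v : ℂ) : OnePoint ℂ)) atTop (𝓝 (w : OnePoint ℂ)) := by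
    intro v hv0 hv
    obtain ⟨h1, h2⟩ := hR1 v hv0 hv
    have h3 : ∀ j : ℕ, f^[n * j] ((w + v : ℂ) : OnePoint ℂ) = ((w + F^[j] v : ℂ) : OnePoint ℂ) := by
      intro j
      induction j with
      | zero => rfl
      | succ j ih =>
        have h4 : f^[n * (j + 1)] ((w + v : ℂ) : OnePoint ℂ)
            = f^[n] (f^[n * j] ((w + v : ℂ) : OnePoint ℂ)) := by
          rw [← Function.iterate_add_apply]
          congr 1
          ring
        rw [h4, ih, hF0e _ (by rw [mem_ball, dist_eq_norm]; simpa using h1 j),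
          Function.iterate_succ_apply']
        congr 1
        simp only [hF]
        ring
    have h5 : Tendsto (fun j : ℕ => ((w + F^[j] v : ℂ) : OnePoint ℂ)) atTop (𝓝 ((w + 0 : ℂ) : OnePoint ℂ)) :=
      (OnePoint.continuous_coe.tendsto _).comp (h2.const_add w)
    rw [add_zero] at h5
    exact h5.congr fun j => (h3 j).symm
  -- pull back
  have hnb : ∀ᶠ y in 𝓝 (f^[n * (k1 + j0)] c), ∃ v : ℂ, y = ((w + v : ℂ) : OnePoint ℂ) ∧ v ≠ 0 ∧
      R1 ≤ (-(1 / (N * a * v ^ N))).re := by
    rw [hu j0]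
    have h1 : ∀ᶠ y in 𝓝 (w + u j0), y - w ≠ 0 ∧ R1 ≤ (-(1 / (N * a * (y - w) ^ N))).re := by
      have h2 : Tendsto (fun y : ℂ => y - w) (𝓝 (w + u j0)) (𝓝 (u j0)) := by
        have h3 : Continuous (fun y : ℂ => y - w) := continuous_id.sub continuous_const
        have h4 := h3.tendsto (w + u j0)
        have h5 : w + u j0 - w = u j0 := by ring
        rwa [h5] at h4
      exact h2.eventually hloc
    have h6 := OnePoint.isOpenEmbedding_coe.isOpenMap.image_mem_nhds h1
    filter_upwards [h6] with y hy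
    obtain ⟨y', hy', rfl⟩ := hy
    refine ⟨y' - w, ?_, hy'.1, hy'.2⟩
    congr 1; ring
  have hpull := (hfi (n * (k1 + j0))).continuousAt.tendsto.eventually hnb
  filter_upwards [hpull] with x hx
  obtain ⟨v, hv, hv0, hvR⟩ := hx
  refine ⟨hn, ?_, ?_⟩
  · rw [hF0e w (mem_ball_self hr), hF0w]
  · have h1 := hconv v hv0 hvR
    rw [← hv] at h1
    rw [← tendsto_add_atTop_iff_nat (k1 + j0)]
    refine h1.congr fun j => ?_
    rw [← Function.iterate_add_apply]
    congr 1
    ring

end Pool.Agent.H80.AJ
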