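import Pool.Agent.H79.Par.TanDef
import Pool.Agent.H91.Fatou.Mob

set_option autoImplicit false

open Filter Topology Polynomial OnePoint Metric Set

namespace Pool.Agent.H80.AJ

open Pool.Agent.H44.Fatou Pool.Agent.H32.BT Pool.Agent.H79.Par

theorem inv1_eq : inv1 = Pool.Agent.H91.Fatou.ch 0 1 1 0 := by
  funext t
  unfold inv1 Pool.Agent.H91.Fatou.ch pt
  by_cases h : t = 0
  · simp [h]
  · simp [h]

theorem inv1_open : IsOpenEmbedding inv1 := by
  rw [inv1_eq]
  exact Pool.Agent.H91.Fatou.ch_open (by norm_num)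

/-- the expansion argument -/
theorem rep_seq {G : ℂ → ℂ} {w a : ℂ} (ha : 1 < ‖a‖) (hw : G w = w) (hd : HasDerivAt G a w)
    {u : ℕ → ℂ} (hu : Tendsto u atTop (𝓝 w)) (hr : ∀ᶠ k in atTop, u (k + 1) = G (u k)) :
    ∀ᶠ k in atTop, u k = w := by
  have h1 : ∀ᶠ x in 𝓝 w, ‖G x - G w - (x - w) • a‖ ≤ (‖a‖ - 1) * ‖x - w‖ :=
    (hasDerivAt_iff_isLittleO.1 hd).def (by linarith)
  have h2 : ∀ᶠ x in 𝓝 w, ‖x - w‖ ≤ ‖G x - w‖ := by
    filter_upwards [h1] with x hx
    rw [hw] at hx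
    have h3 : ‖(x - w) • a‖ ≤ ‖G x - w‖ + ‖G x - w - (x - w) • a‖ := by
      have h4 : (x - w) • a = (G x - w) - (G x - w - (x - w) • a) := by ring
      calc ‖(x - w) • a‖ = ‖(G x - w) - (G x - w - (x - w) • a)‖ := by rw [← h4]
        _ ≤ _ := norm_sub_le _ _
    rw [norm_smul] at h3
    nlinarith [norm_nonneg (x - w)]
  obtain ⟨N, hN⟩ := eventually_atTop.1 ((hu.eventually h2).and hr)
  have h3 : ∀ k, N ≤ k → ∀ j, ‖u k - w‖ ≤ ‖u (k + j) - w‖ := by
    intro k hk j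
    induction j with
    | zero => exact le_refl _
    | succ j ih =>
      have h4 := hN (k + j) (by omega)
      refine ih.trans ?_
      rw [← add_assoc, h4.2]
      exact h4.1
  have h5 : Tendsto (fun j => ‖u j - w‖) atTop (𝓝 0) := by
    have := (hu.sub_const w).norm
    simpa using this
  filter_upwards [eventually_ge_atTop N] with k hk
  have h6 : Tendsto (fun j => ‖u (k + j) - w‖) atTop (𝓝 0) := by
    have h7 : Tendsto (fun j => k + j) atTop atTop :=
      tendsto_atTop_mono (fun j => Nat.le_add_left j k) tendsto_id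
    exact h5.comp h7
  have h8 : ‖u k - w‖ ≤ 0 := ge_of_tendsto' h6 fun j => h3 k hk j
  exact sub_eq_zero.1 (norm_le_zero_iff.1 h8)

theorem rep_psi {F : OnePoint ℂ → OnePoint ℂ} {ψ : ℂ → OnePoint ℂ} (hψ : IsOpenEmbedding ψ)
    {G : ℂ → ℂ} {w a : ℂ} (ha : 1 < ‖a‖) (hw : G w = w) (hd : HasDerivAt G a w)
    (he : ∀ᶠ u : ℂ in 𝓝 w, F (ψ u) = ψ (G u)) {x : OnePoint ℂ}
    (hx : Tendsto (fun k : ℕ => F^[k] x) atTop (𝓝 (ψ w))) : ∃ k : ℕ, F^[k] x = ψ w := by
  have h1 : ∀ᶠ k : ℕ in atTop, F^[k] x ∈ Set.range ψ :=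
    hx.eventually (hψ.isOpen_range.mem_nhds ⟨w, rfl⟩)
  obtain ⟨N, hN⟩ := eventually_atTop.1 h1
  choose u hu using fun k : ℕ => (hN (N + k) (Nat.le_add_right N k) : ∃ t, ψ t = F^[N + k] x)
  have h2 : Tendsto u atTop (𝓝 w) := by
    rw [hψ.isInducing.tendsto_nhds_iff]
    have h3 : ψ ∘ u = fun k : ℕ => F^[N + k] x := by
      funext k
      exact hu k
    rw [h3]
    have h7 : Tendsto (fun j => N + j) atTop atTop :=
      tendsto_atTop_mono (fun j => Nat.le_add_left j N) tendsto_id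
    exact hx.comp h7
  have h3 : ∀ᶠ k in atTop, u (k + 1) = G (u k) := by
    filter_upwards [h2.eventually he] with k hk
    apply hψ.injective
    rw [hu, ← hk, hu, ← add_assoc, Function.iterate_succ_apply']
  obtain ⟨k, hk⟩ := (rep_seq ha hw hd h2 h3).exists
  exact ⟨N + k, by rw [← hu, hk]⟩

/-
An orbit converging to a repelling fixed point lands on it.
Proof. With `ψ = coe` (base point `w`) or `ψ = inv1` (base point `0`), an open embedding
(`OnePoint.isOpenEmbedding_coe`; `inv1 = swapH ∘ coe`, see `Pool.Agent.H91.Fatou.swapH`,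
`ch_open` with `0 1 1 0`): for large `k` `F^[k] x = ψ (u k)` with `u k → base point`, and
`u (k+1) = G (u k)` (injectivity of `ψ`). As `HasDerivAt G a` with `1 < ‖a‖` at the fixed point,
`‖G u - base‖ ≥ ‖u - base‖` near it (little o), so `‖u k - base‖` is eventually nondecreasing and
tends to 0, hence it is eventually 0.
-/
theorem rep_land {F : OnePoint ℂ → OnePoint ℂ} {z : OnePoint ℂ} {a : ℂ} (ha : 1 < ‖a‖)
    (h : FixMult F z a) {x : OnePoint ℂ} (hx : Tendsto (fun k : ℕ => F^[k] x) atTop (𝓝 z)) :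
    ∃ k : ℕ, F^[k] x = z := by
  rcases h with ⟨w, G, rfl, hw, hd, he⟩ | ⟨G, rfl, hw, hd, he⟩
  · exact rep_psi (ψ := fun u : ℂ => (u : OnePoint ℂ)) isOpenEmbedding_coe ha hw hd he hx
  · have h0 : inv1 0 = (OnePoint.infty : OnePoint ℂ) := by
      unfold inv1
      rw [if_pos rfl]
    rw [← h0] at hx ⊢
    exact rep_psi inv1_open ha hw hd he hx

end Pool.Agent.H80.AJ
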