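import Pool.Agent.H80.AJ.Main
import Pool.Agent.H80.AJ.FixIter
import Pool.Agent.H80.AJ.RepLand
import Pool.Agent.H80.AJ.PetalFix
import Pool.Agent.H80.AJ.LandNull
import Pool.Agent.H79.Par.TanConj

set_option autoImplicit false

open Filter Topology Polynomial OnePoint Metric Set MeasureTheory

namespace Pool.Agent.H80.AJ

open Pool.Agent.H44.Fatou Pool.Agent.H32.BT Pool.Agent.H79.Par

theorem tendsto_shift_iter {X : Type*} [TopologicalSpace X] {f : X → X} {x z : X} {n k0 : ℕ}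
    (h : Tendsto (fun k : ℕ => f^[n * k] (f^[n * k0] x)) atTop (𝓝 z)) :
    Tendsto (fun k : ℕ => f^[n * k] x) atTop (𝓝 z) := by
  rw [← tendsto_add_atTop_iff_nat k0]
  refine h.congr (fun k => ?_)
  rw [← Function.iterate_add_apply, Nat.mul_add]

theorem ty1_open {f : OnePoint ℂ → OnePoint ℂ} (hf : Continuous f) {c z : OnePoint ℂ} {n : ℕ}
    (h : Ty1 f c z n) : ∀ᶠ x in 𝓝 c, CL f x z n := by
  obtain ⟨⟨hn, hz, U, hU, hUt⟩, ht⟩ := h
  obtain ⟨k0, hk0⟩ := (ht.eventually (eventually_mem_nhds_iff.2 hU)).exists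
  have h1 : ∀ᶠ x in 𝓝 c, f^[n * k0] x ∈ U := (hf.iterate (n * k0)).continuousAt hk0
  filter_upwards [h1] with x hx
  exact ⟨hn, hz, tendsto_shift_iter (hUt _ hx)⟩

theorem CL.conj (φ : OnePoint ℂ ≃ₜ OnePoint ℂ) {f g : OnePoint ℂ → OnePoint ℂ}
    (hfg : ∀ x, g (φ x) = φ (f x)) {x z : OnePoint ℂ} {n : ℕ} (h : CL g (φ x) (φ z) n) :
    CL f x z n := by
  obtain ⟨h1, h2, h3⟩ := h
  refine ⟨h1, ?_, ?_⟩
  · rw [iter_conj φ hfg] at h2
    exact φ.injective h2
  · have h4 := (φ.symm.continuous.tendsto (φ z)).comp h3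
    rw [φ.symm_apply_apply] at h4
    refine h4.congr (fun k => ?_)
    simp only [Function.comp_apply]
    rw [iter_conj φ hfg, φ.symm_apply_apply]

theorem ty2_open {P Q : Polynomial ℂ} (h : IsCoprime P Q) (hd : 1 ≤ max P.natDegree Q.natDegree)
    {c z : OnePoint ℂ} {n : ℕ} (hT : Ty2 (rat P Q) c z n) :
    ∀ᶠ x in 𝓝 c, CL (rat P Q) x z n := by
  have hTf : (((fun i : ℕ => (rat P Q)^[i] z) '' (Finset.range (n + 1) : Set ℕ))).Finite :=
    (Finset.finite_toSet _).image _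
  have hpre : (((↑) : ℂ → OnePoint ℂ) ⁻¹'
      ((fun i : ℕ => (rat P Q)^[i] z) '' (Finset.range (n + 1) : Set ℕ))).Finite :=
    hTf.preimage (OnePoint.coe_injective.injOn)
  obtain ⟨s, hs⟩ := hpre.exists_notMem
  have hsi : ∀ i ≤ n, (rat P Q)^[i] z ≠ (s : OnePoint ℂ) := by
    intro i hi h0
    apply hs
    refine ⟨i, ?_, h0⟩
    simp only [Finset.coe_range, mem_Iio]
    omega
  obtain ⟨φ, hφ1, hφ2, hφ3, hφ4⟩ := exists_mob s
  obtain ⟨hcop, hdeg, hconj⟩ := hφ4 _ P Q h rfl (by omega)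
  have hT' := (ty_conj hφ2 hφ1 hφ3 hconj (c := c) (z := z) (hsi 0 (Nat.zero_le _)) (n := n)).2.1 hT
  have h5 := petal_fix hcop hT' (fun i hi => by
    rw [iter_conj φ hconj, ← hφ2]
    exact fun h0 => hsi i hi (φ.injective h0))
  have h6 := φ.continuous.continuousAt.eventually h5
  filter_upwards [h6] with x hx
  exact CL.conj φ hconj hx

theorem iter_fixed {X : Type*} {f : X → X} {z : X} {n : ℕ} (h : f^[n] z = z) (k : ℕ) :
    f^[n * k] z = z := by
  rw [Function.iterate_mul]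
  exact Function.iterate_fixed h k

theorem land_cl {X : Type*} [TopologicalSpace X] {f : X → X} {c z : X} {n m : ℕ} (hn : 0 < n)
    (hz : f^[n] z = z) (hm : f^[m] c = z) : CL f c (f^[m * n - m] z) n := by
  refine ⟨hn, ?_, ?_⟩
  · rw [← Function.iterate_add_apply, Nat.add_comm, Function.iterate_add_apply, hz]
  · refine tendsto_const_nhds.congr' ?_
    filter_upwards [eventually_ge_atTop m] with k hk
    obtain ⟨j, rfl⟩ := Nat.exists_eq_add_of_le hk
    have hle : m ≤ m * n := Nat.le_mul_of_pos_right m hn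
    have e1 : n * (m + j) = (m * n - m) + n * j + m := by
      have : n * (m + j) = m * n + n * j := by ring
      omega
    rw [e1, Function.iterate_add_apply, hm, Function.iterate_add_apply, iter_fixed hz]

theorem tyA_cl {f : OnePoint ℂ → OnePoint ℂ} {c z : OnePoint ℂ} {n : ℕ} (h : TyA f c z n) :
    ∃ i : ℕ, CL f c (f^[i] z) n := by
  rcases h with h | h | h | h
  · exact ⟨0, h.1.1, h.1.2.1, h.2⟩
  · exact ⟨0, h.1, fixMult_fix h.2.1, h.2.2.1⟩
  · obtain ⟨hn, ⟨a, -, ha⟩, m, hm⟩ := h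
    exact ⟨_, land_cl hn (fixMult_fix ha) hm⟩
  · obtain ⟨hn, ha, m, hm⟩ := h
    exact ⟨_, land_cl hn (fixMult_fix ha) hm⟩

theorem cl_mul {X : Type*} [TopologicalSpace X] {f : X → X} {x p : X} {n : ℕ} (h : CL f x p n)
    {m : ℕ} (hm : 0 < m) : CL f x p (n * m) := by
  obtain ⟨h1, h2, h3⟩ := h
  refine ⟨Nat.mul_pos h1 hm, iter_fixed h2 m, ?_⟩
  have h4 : Tendsto (fun k : ℕ => m * k) atTop atTop :=
    tendsto_atTop_mono (fun k => Nat.le_mul_of_pos_left k hm) tendsto_id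
  refine (h3.comp h4).congr (fun k => ?_)
  simp only [Function.comp_apply, Nat.mul_assoc]

theorem cl_unique {X : Type*} [TopologicalSpace X] [T2Space X] {f : X → X} {x p q : X} {n m : ℕ}
    (h : CL f x p n) (h' : CL f x q m) : p = q := by
  have h1 := (cl_mul h h'.1).2.2
  have h2 := (cl_mul h' h.1).2.2
  rw [Nat.mul_comm] at h2
  exact tendsto_nhds_unique h1 h2

theorem cl_shift {X : Type*} [TopologicalSpace X] {f : X → X} (hf : Continuous f) {x p : X} {n : ℕ}
    (h : CL f x p n) (j : ℕ) : CL f (f^[j] x) (f^[j] p) n := by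
  obtain ⟨h1, h2, h3⟩ := h
  refine ⟨h1, ?_, ?_⟩
  · rw [← Function.iterate_add_apply, Nat.add_comm, Function.iterate_add_apply, h2]
  · refine (((hf.iterate j).tendsto p).comp h3).congr (fun k => ?_)
    simp only [Function.comp_apply]
    rw [← Function.iterate_add_apply, ← Function.iterate_add_apply, Nat.add_comm]

/-- Part E: if all critical points are of types 1, 2, 3, 4 and one of them is of type 1 or 2 then
almost every point is eventually of type 1 or 2. -/
theorem ae_ty12 {P Q : Polynomial ℂ} (h : IsCoprime P Q) (hd : 2 ≤ max P.natDegree Q.natDegree)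
    (hcrit : ∀ c, IsCrit (rat P Q) c → ∃ (z : OnePoint ℂ) (n : ℕ), TyA (rat P Q) c z n)
    (hex : ∃ (c z : OnePoint ℂ) (n : ℕ), IsCrit (rat P Q) c ∧ Ty12 (rat P Q) c z n) :
    ∀ᵐ x : ℂ, ∃ (j n : ℕ) (z : OnePoint ℂ), (∃ (c : OnePoint ℂ) (m : ℕ), IsCrit (rat P Q) c ∧
      TyA (rat P Q) c z m) ∧ Ty12 (rat P Q) ((rat P Q)^[j] (x : OnePoint ℂ)) z n := by
  classical
  have hfc : Continuous (rat P Q) := rat_continuous h
  have hd1 : 1 ≤ max P.natDegree Q.natDegree := by omega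
  obtain ⟨c0, z0, n0, hc0, hT0⟩ := hex
  have hb : ∀ᶠ x in 𝓝 c0, CL (rat P Q) x z0 n0 := by
    rcases hT0 with hT0 | hT0
    · exact ty1_open hfc hT0
    · exact ty2_open h hd1 hT0
  have hex' : ∀ c : OnePoint ℂ, ∃ (z : OnePoint ℂ) (n : ℕ), IsCrit (rat P Q) c →
      TyA (rat P Q) c z n := by
    intro c
    by_cases hc : IsCrit (rat P Q) c
    · obtain ⟨z, n, hzn⟩ := hcrit c hc
      exact ⟨z, n, fun _ => hzn⟩
    · exact ⟨c, 0, fun h0 => absurd h0 hc⟩
  choose zc mc hzc using hex'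
  have hC : (zc '' {c | IsCrit (rat P Q) c}).Countable := ((crit_finite h hd1).image _).countable
  have hconv := ae_conv h hd (fun c hc => by
    obtain ⟨i, hi⟩ := tyA_cl (hzc c hc)
    exact ⟨_, _, hi⟩) hb
  filter_upwards [hconv, land_null h hd1 hC] with x hx hland
  obtain ⟨s, p, n, i, N, hs, hsp, hxp⟩ := hx
  have hsc : IsCrit (rat P Q) s := by
    rcases hs with hs | hs
    · exact hs
    · rw [hs]; exact hc0
  obtain ⟨i', hi'⟩ := tyA_cl (hzc s hsc)
  have hp : p = (rat P Q)^[i'] (zc s) := cl_unique hsp hi'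
  set z := zc s with hz
  set m := mc s with hm
  have hm0 : 0 < m := hi'.1
  have hzm : (rat P Q)^[m] z = z := by
    rcases hzc s hsc with hT | hT | hT | hT
    · exact hT.1.2.1
    · exact fixMult_fix hT.2.1
    · obtain ⟨a, -, ha⟩ := hT.2.1
      exact fixMult_fix ha
    · exact fixMult_fix hT.2.1
  rw [hp, ← Function.iterate_add_apply] at hxp
  set q := i + i' with hq
  set j := q * m - q with hj
  have hjq : (rat P Q)^[j] ((rat P Q)^[q] z) = z := by
    have hle : q ≤ q * m := Nat.le_mul_of_pos_right q hm0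
    rw [← Function.iterate_add_apply, show j + q = m * q by rw [hj, Nat.mul_comm m q]; omega]
    exact iter_fixed hzm q
  have hx' : CL (rat P Q) ((rat P Q)^[j] (x : OnePoint ℂ)) z N := by
    have h1 := cl_shift hfc hxp j
    rwa [hjq] at h1
  have hN : 0 < N := hx'.1
  have hxM : CL (rat P Q) ((rat P Q)^[j] (x : OnePoint ℂ)) z (m * N) := by
    have h1 := cl_mul hx' hm0
    rwa [Nat.mul_comm] at h1
  have hnl : ∀ k : ℕ, (rat P Q)^[m * N * k] ((rat P Q)^[j] (x : OnePoint ℂ)) ≠ z := by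
    intro k hk
    rw [← Function.iterate_add_apply] at hk
    exact hland _ ⟨s, hsc, hk.symm⟩
  have hfm : ∀ a : ℂ, FixMult (rat P Q)^[m] z a → FixMult (rat P Q)^[m * N] z (a ^ N) := by
    intro a ha
    rw [Function.iterate_mul]
    exact fixMult_iter ha N
  refine ⟨j, m * N, z, ⟨s, m, hsc, hzc s hsc⟩, ?_⟩
  rcases hzc s hsc with hT | hT | hT | hT
  · left
    exact ⟨isSink_mul hT.1 hN, hxM.2.2⟩
  · right
    refine ⟨hxM.1, ?_, hxM.2.2, hnl⟩
    have h1 := hfm 1 hT.2.1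
    rwa [one_pow] at h1
  · exfalso
    obtain ⟨a, ha1, ha⟩ := hT.2.1
    obtain ⟨k, hk⟩ := rep_land (F := (rat P Q)^[m * N])
      (x := (rat P Q)^[j] (x : OnePoint ℂ)) (a := a ^ N) (by
        rw [norm_pow]
        exact one_lt_pow₀ ha1 hN.ne') (hfm a ha) (by
        refine hxM.2.2.congr (fun k => ?_)
        rw [Function.iterate_mul])
    rw [← Function.iterate_mul] at hk
    exact hnl k hk
  · right
    refine ⟨hxM.1, ?_, hxM.2.2, hnl⟩
    have h1 := hfm 1 hT.2.1
    rwa [one_pow] at h1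

end Pool.Agent.H80.AJ
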