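import Pool.Agent.H80.AJ.Defs

set_option autoImplicit false

open Filter Topology Metric Set

namespace Pool.Agent.H80.AJ

open Pool.Agent.H32.BT

/-
Proof. Let `h = Function.invFunOn g (ball c R)` (for the set `ball c R`), so `h (g z) = z` for
`z ∈ ball c R` and `h w ∈ ball c R`, `g (h w) = w` for `w` in the image. `g` is analytic on the
ball and not locally constant (injective), so it is an open map there (open mapping theorem,
`AnalyticOnNhd.is_constant_or_isOpen`, the ball is preconnected); hence `h` is continuous on the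
image (preimages of open sets) and `Pool.Agent.H32.BT.diff_of_inverse` gives that `h` is
differentiable at each point of the (open) image. On `ball (g c) D`: `h` maps it into `ball c R`,
`h (g c) = c`, Schwarz (`Complex.norm_deriv_le_div_of_mapsTo_ball`): `‖deriv h (g c)‖ ≤ R / D`;
chain rule for `h ∘ g = id` near `c`: `deriv h (g c) * deriv g c = 1`. So `D ≤ R ‖deriv g c‖`.
The version with a general centre `z ∈ ball c R` (`hz`) is what we need: `h` maps
`ball (g z) D` into `ball c R ⊆ ball z (2 R)`.
-/
theorem dist_upper {g : ℂ → ℂ} {c : ℂ} {R : ℝ} (hR : 0 < R)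
    (hg : DifferentiableOn ℂ g (ball c R)) (hi : InjOn g (ball c R)) {z : ℂ} (hz : z ∈ ball c R)
    {D : ℝ} (hD : 0 < D) (h : ball (g z) D ⊆ g '' ball c R) : D ≤ 2 * R * ‖deriv g z‖ := by
  have hgan : AnalyticOnNhd ℂ g (ball c R) := hg.analyticOnNhd isOpen_ball
  have hopen : ∀ s ⊆ ball c R, IsOpen s → IsOpen (g '' s) := by
    rcases hgan.is_constant_or_isOpen (convex_ball c R).isPreconnected with ⟨w, hw⟩ | h1
    · exfalso
      have h1 : c ∈ ball c R := mem_ball_self hR
      have h2 : c + ((R / 2 : ℝ) : ℂ) ∈ ball c R := by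
        rw [mem_ball_iff_norm, add_sub_cancel_left, Complex.norm_real,
          Real.norm_of_nonneg (by positivity)]
        linarith
      have h3 := hi h1 h2 ((hw _ h1).trans (hw _ h2).symm)
      have h4 : ((R / 2 : ℝ) : ℂ) = 0 := by linear_combination -h3
      have h5 : R / 2 = 0 := by exact_mod_cast h4
      linarith
    · exact h1
  set k : ℂ → ℂ := Function.invFunOn g (ball c R) with hk
  have hkmem : ∀ w ∈ g '' ball c R, k w ∈ ball c R := fun w hw =>
    Function.invFunOn_mem hw
  have hkeq : ∀ w ∈ g '' ball c R, g (k w) = w := fun w hw =>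
    Function.invFunOn_eq hw
  have hkg : ∀ y ∈ ball c R, k (g y) = y := by
    intro y hy
    have hw : g y ∈ g '' ball c R := mem_image_of_mem g hy
    exact hi (hkmem _ hw) hy (hkeq _ hw)
  have hkc : ContinuousOn k (g '' ball c R) := by
    rintro w ⟨y, hy, rfl⟩
    apply ContinuousAt.continuousWithinAt
    rw [ContinuousAt, hkg y hy]
    intro N hN
    obtain ⟨N', hN'N, hN'o, hyN'⟩ := _root_.mem_nhds_iff.1 hN
    have h1 : IsOpen (g '' (N' ∩ ball c R)) :=
      hopen _ inter_subset_right (hN'o.inter isOpen_ball)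
    have h2 : g y ∈ g '' (N' ∩ ball c R) := mem_image_of_mem g ⟨hyN', hy⟩
    rw [Filter.mem_map]
    filter_upwards [h1.mem_nhds h2] with v hv
    obtain ⟨x, hx, rfl⟩ := hv
    show k (g x) ∈ N
    rw [hkg x hx.2]
    exact hN'N hx.1
  have hkd : ∀ w ∈ g '' ball c R, DifferentiableAt ℂ k w := by
    intro w hw
    exact diff_of_inverse ((hopen _ subset_rfl isOpen_ball).mem_nhds hw) hkc isOpen_ball
      (hkmem w hw) hg (fun v hv _ => hkeq v hv)
  have hzim : g z ∈ g '' ball c R := mem_image_of_mem g hz
  have hS : ‖deriv k (g z)‖ ≤ 2 * R / D := by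
    apply Complex.norm_deriv_le_div_of_mapsTo_ball
    · intro w hw
      exact (hkd w (h hw)).differentiableWithinAt
    · intro w hw
      rw [hkg z hz, mem_closedBall]
      have h1 := hkmem w (h hw)
      rw [mem_ball] at h1 hz
      have h2 := dist_triangle (k w) c z
      rw [dist_comm c z] at h2
      linarith
    · exact hD
  have hgd : HasDerivAt g (deriv g z) z := (hg.differentiableAt (isOpen_ball.mem_nhds hz)).hasDerivAt
  have hcomp : HasDerivAt (k ∘ g) (deriv k (g z) * deriv g z) z :=
    (hkd _ hzim).hasDerivAt.comp z hgd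
  have hid : HasDerivAt (k ∘ g) 1 z := by
    apply (hasDerivAt_id z).congr_of_eventuallyEq
    filter_upwards [isOpen_ball.mem_nhds hz] with y hy
    exact hkg y hy
  have h1 : deriv k (g z) * deriv g z = 1 := hcomp.unique hid
  have h2 : 1 ≤ 2 * R / D * ‖deriv g z‖ := by
    have h3 := congrArg norm h1
    rw [norm_mul, norm_one] at h3
    rw [← h3]
    exact mul_le_mul_of_nonneg_right hS (norm_nonneg _)
  have h4 : 2 * R / D * ‖deriv g z‖ = 2 * R * ‖deriv g z‖ / D := by ring
  rw [h4, le_div_iff₀ hD, one_mul] at h2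
  exact h2


end Pool.Agent.H80.AJ
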