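import Pool.Agent.H80.AJ.Defs

set_option autoImplicit false

open Filter Topology Metric Set MeasureTheory

namespace Pool.Agent.H80.AJ

/-
Porous sets are null. Proof. Lebesgue density theorem for arbitrary (not necessarily measurable)
sets: `Besicovitch.ae_tendsto_measure_inter_div volume S`: for a.e. `z` of `S` (w.r.t. the
restricted measure) `volume (S ∩ closedBall z ρ) / volume (closedBall z ρ) → 1` as `ρ → 0+`. For
`z ∈ S` and the scales `ρ` of the hypothesis the numerator is at most
`volume (closedBall z ρ) - volume (ball v (c ρ)) = (1 - c^2) volume (closedBall z ρ)`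
(`S ∩ closedBall z ρ ⊆ closedBall z ρ \ ball v (c ρ)`, note `0 < c ≤ 1` follows), contradiction.
So `volume.restrict S` of the whole space is 0, i.e. `volume S = 0`.
-/
theorem porous_null {S : Set ℂ} (h : ∀ z ∈ S, ∃ c : ℝ, 0 < c ∧ ∀ ρ0 : ℝ, 0 < ρ0 → ∃ ρ : ℝ,
    0 < ρ ∧ ρ < ρ0 ∧ ∃ v : ℂ, ball v (c * ρ) ⊆ ball z ρ ∧ ∀ w ∈ ball v (c * ρ), w ∉ S) :
    volume S = 0 := by
  have hae := Besicovitch.ae_tendsto_measure_inter_div (volume : Measure ℂ) S
  have hno : ∀ z ∈ S, ¬ Tendsto (fun r => volume (S ∩ closedBall z r) / volume (closedBall z r))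
      (𝓝[>] 0) (𝓝 1) := by
    intro z hz hlim
    obtain ⟨c, hc, hρ⟩ := h z hz
    have h1 : Tendsto (fun r => volume (S ∩ closedBall z r) / volume (closedBall z r) +
        ENNReal.ofReal (c ^ 2)) (𝓝[>] 0) (𝓝 (1 + ENNReal.ofReal (c ^ 2))) :=
      hlim.add tendsto_const_nhds
    have h2 : ∃ᶠ r in 𝓝[>] (0 : ℝ), volume (S ∩ closedBall z r) / volume (closedBall z r) +
        ENNReal.ofReal (c ^ 2) ≤ 1 := by
      rw [frequently_iff]
      intro U hU
      rw [mem_nhdsGT_iff_exists_Ioo_subset] at hU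
      obtain ⟨ρ0, hρ0, hsub⟩ := hU
      obtain ⟨ρ, hρ1, hρ2, v, hv1, hv2⟩ := hρ ρ0 hρ0
      refine ⟨ρ, hsub ⟨hρ1, hρ2⟩, ?_⟩
      have h3 : volume (S ∩ closedBall z ρ) + volume (ball v (c * ρ)) ≤
          volume (closedBall z ρ) := by
        rw [← measure_union _ measurableSet_ball]
        · apply measure_mono
          apply union_subset inter_subset_right
          exact hv1.trans ball_subset_closedBall
        · rw [Set.disjoint_left]
          rintro w ⟨hw1, -⟩ hw2
          exact hv2 w hw2 hw1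
      have h4 : volume (closedBall z ρ) = ENNReal.ofReal (ρ ^ 2) * NNReal.pi := by
        rw [Complex.volume_closedBall, ENNReal.ofReal_pow hρ1.le]
      have h5 : volume (ball v (c * ρ)) = ENNReal.ofReal (c ^ 2) * volume (closedBall z ρ) := by
        rw [h4, Complex.volume_ball, ← ENNReal.ofReal_pow (by positivity), mul_pow,
          ENNReal.ofReal_mul (by positivity), mul_assoc]
      have h6 : volume (closedBall z ρ) ≠ 0 := (measure_closedBall_pos volume z hρ1).ne'
      have h7 : volume (closedBall z ρ) ≠ ⊤ := measure_closedBall_lt_top.ne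
      have h8 : ENNReal.ofReal (c ^ 2) = volume (ball v (c * ρ)) / volume (closedBall z ρ) := by
        rw [h5, ENNReal.mul_div_cancel_right h6 h7]
      rw [h8, ← ENNReal.add_div]
      exact ENNReal.div_le_of_le_mul (by rw [one_mul]; exact h3)
    have h9 := le_of_tendsto_of_frequently h1 h2
    have h10 : ENNReal.ofReal (c ^ 2) ≤ 0 := by
      have h11 : (1 : ENNReal) + ENNReal.ofReal (c ^ 2) ≤ 1 + 0 := by rw [add_zero]; exact h9
      exact (ENNReal.add_le_add_iff_left ENNReal.one_ne_top).1 h11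
    have h12 : 0 < ENNReal.ofReal (c ^ 2) := ENNReal.ofReal_pos.2 (by positivity)
    exact absurd h10 (not_le.2 h12)
  rw [ae_iff] at hae
  rw [← Measure.restrict_apply_self volume S]
  exact measure_mono_null (fun z hz => hno z hz) hae

end Pool.Agent.H80.AJ
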