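import Pool.Agent.H80.AJ.Defs

set_option autoImplicit false

open Filter Topology Metric Set

namespace Pool.Agent.H80.AJ

/-
Proof. Let `F` be a finite set in `closedBall y r` such that every point of the closed ball is at
distance `≤ ε/(4 (L+1))` from a point of `F` (`IsCompact.finite_cover_balls` or totally bounded).
The values `(G n u)_(u ∈ F)` are bounded by `B + L r`, so along the infinite set `S` (enumerate it,
`Nat.nth` or `Set.Infinite`...) there is a convergent subsequence in `F → ℂ`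
(`tendsto_subseq_of_bounded`), hence `k, l ∈ S` with `k + N ≤ l` and `‖G k u - G l u‖ < ε/4` for all
`u ∈ F`. Triangle inequality.
-/
theorem pairs {G : ℕ → ℂ → ℂ} {S : Set ℕ} (hS : S.Infinite) {y : ℂ} {r L B : ℝ} (hr : 0 < r)
    (hL : 0 ≤ L)
    (hlip : ∀ n ∈ S, ∀ w ∈ closedBall y r, ∀ w' ∈ closedBall y r, ‖G n w - G n w'‖ ≤ L * ‖w - w'‖)
    (hB : ∀ n ∈ S, ‖G n y‖ ≤ B) {ε : ℝ} (hε : 0 < ε) (N : ℕ) :
    ∃ k ∈ S, ∃ l ∈ S, k + N ≤ l ∧ ∀ w ∈ closedBall y r, ‖G k w - G l w‖ ≤ ε := by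
  have hL1 : 0 < L + 1 := by linarith
  set e : ℝ := ε / (4 * (L + 1)) with he
  have he0 : 0 < e := by positivity
  have hLe : L * e ≤ ε / 4 := by
    have h1 : (L + 1) * e = ε / 4 := by
      rw [he]
      field_simp
    nlinarith
  obtain ⟨F, hFs, hFf, hFc⟩ := (isCompact_closedBall y r).finite_cover_balls he0
  have hy : y ∈ closedBall y r := mem_closedBall_self hr.le
  -- the enumeration of `S`
  have hnn : StrictMono (Nat.nth (fun n => n ∈ S)) := Nat.nth_strictMono hS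
  have hnS : ∀ k, Nat.nth (fun n => n ∈ S) k ∈ S := fun k => Nat.nth_mem_of_infinite hS k
  have : Fintype F := hFf.fintype
  let v : ℕ → (F → ℂ) := fun k u => G (Nat.nth (fun n => n ∈ S) k) u
  have hv : ∀ k, v k ∈ closedBall (0 : F → ℂ) (max 0 (B + L * r)) := by
    intro k
    rw [mem_closedBall, dist_zero_right, pi_norm_le_iff_of_nonneg (le_max_left _ _)]
    intro u
    have hu : (u : ℂ) ∈ closedBall y r := hFs u.2
    have h1 := hlip _ (hnS k) u hu y hy
    have h2 := hB _ (hnS k)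
    have h3 : ‖(u : ℂ) - y‖ ≤ r := by
      rw [mem_closedBall, dist_eq_norm] at hu
      exact hu
    have h4 : ‖G (Nat.nth (fun n => n ∈ S) k) u‖ ≤
        ‖G (Nat.nth (fun n => n ∈ S) k) u - G (Nat.nth (fun n => n ∈ S) k) y‖ +
          ‖G (Nat.nth (fun n => n ∈ S) k) y‖ := by
      have := norm_add_le (G (Nat.nth (fun n => n ∈ S) k) u - G (Nat.nth (fun n => n ∈ S) k) y)
        (G (Nat.nth (fun n => n ∈ S) k) y)
      rwa [sub_add_cancel] at this
    have h5 : L * ‖(u : ℂ) - y‖ ≤ L * r := mul_le_mul_of_nonneg_left h3 hL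
    refine le_trans ?_ (le_max_right _ _)
    show ‖G (Nat.nth (fun n => n ∈ S) k) u‖ ≤ B + L * r
    linarith
  obtain ⟨a, -, φ, hφ, hlim⟩ := tendsto_subseq_of_bounded isBounded_closedBall hv
  have hc := hlim.cauchySeq
  rw [Metric.cauchySeq_iff] at hc
  obtain ⟨M, hM⟩ := hc (ε / 4) (by positivity)
  have h1 := hM M le_rfl (M + N) (Nat.le_add_right M N)
  refine ⟨Nat.nth (fun n => n ∈ S) (φ M), hnS _, Nat.nth (fun n => n ∈ S) (φ (M + N)), hnS _,
    ?_, ?_⟩
  · have h2 : StrictMono (fun j => Nat.nth (fun n => n ∈ S) (φ j)) := hnn.comp hφ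
    have h3 := h2.add_le_nat N M
    rw [add_comm N M, add_comm N] at h3
    exact h3
  · intro w hw
    obtain ⟨u, hu, hwu⟩ : ∃ u ∈ F, w ∈ ball u e := by
      have := hFc hw
      rw [mem_iUnion₂] at this
      obtain ⟨u, hu, h2⟩ := this
      exact ⟨u, hu, h2⟩
    have huc : u ∈ closedBall y r := hFs hu
    have hd : ‖w - u‖ ≤ e := by
      rw [mem_ball, dist_eq_norm] at hwu
      exact hwu.le
    have hd' : ‖u - w‖ ≤ e := by rwa [norm_sub_rev]
    have a1 := hlip _ (hnS (φ M)) w hw u huc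
    have a2 := hlip _ (hnS (φ (M + N))) u huc w hw
    have a3 : ‖G (Nat.nth (fun n => n ∈ S) (φ M)) u -
        G (Nat.nth (fun n => n ∈ S) (φ (M + N))) u‖ ≤ ε / 4 := by
      have h2 := (dist_pi_lt_iff (by positivity)).1 h1 ⟨u, hu⟩
      rw [dist_eq_norm] at h2
      exact h2.le
    have b1 : L * ‖w - u‖ ≤ L * e := mul_le_mul_of_nonneg_left hd hL
    have b2 : L * ‖u - w‖ ≤ L * e := mul_le_mul_of_nonneg_left hd' hL
    have e1 : G (Nat.nth (fun n => n ∈ S) (φ M)) w - G (Nat.nth (fun n => n ∈ S) (φ (M + N))) w =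
        (G (Nat.nth (fun n => n ∈ S) (φ M)) w - G (Nat.nth (fun n => n ∈ S) (φ M)) u) +
        (G (Nat.nth (fun n => n ∈ S) (φ M)) u - G (Nat.nth (fun n => n ∈ S) (φ (M + N))) u) +
        (G (Nat.nth (fun n => n ∈ S) (φ (M + N))) u -
          G (Nat.nth (fun n => n ∈ S) (φ (M + N))) w) := by ring
    rw [e1]
    have c1 := norm_add_le
      ((G (Nat.nth (fun n => n ∈ S) (φ M)) w - G (Nat.nth (fun n => n ∈ S) (φ M)) u) +
        (G (Nat.nth (fun n => n ∈ S) (φ M)) u - G (Nat.nth (fun n => n ∈ S) (φ (M + N))) u))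
      (G (Nat.nth (fun n => n ∈ S) (φ (M + N))) u - G (Nat.nth (fun n => n ∈ S) (φ (M + N))) w)
    have c2 := norm_add_le
      (G (Nat.nth (fun n => n ∈ S) (φ M)) w - G (Nat.nth (fun n => n ∈ S) (φ M)) u)
      (G (Nat.nth (fun n => n ∈ S) (φ M)) u - G (Nat.nth (fun n => n ∈ S) (φ (M + N))) u)
    linarith

end Pool.Agent.H80.AJ
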