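import Pool.Agent.H80.AJ.Defs

set_option autoImplicit false

open Filter Topology Metric Set

namespace Pool.Agent.H80.AJ

/-
Proof. By contradiction: for some `ε > 0` there are infinitely many `n` with a point
`w ∈ closedBall y r`, `ε ≤ ‖G n w - w‖`. Take an ultrafilter `U ≤ atTop` containing this set of `n`
(the filter `atTop ⊓ 𝓟 S` is NeBot; `Ultrafilter.of`). All `G n w` are bounded, so the pointwise
limit `Γ w` along `U` exists on `closedBall y r`; it is `L`-Lipschitz and the convergence is uniform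
(finite net, as in the proof of `Pool.Agent.H46.Oka.exists_limit`), so `Γ` is holomorphic on
`ball y r` (`TendstoLocallyUniformlyOn.differentiableOn`), `Γ = id` on `ball y' c`, so `Γ = id` on
`ball y r` by the identity theorem (`AnalyticOnNhd.eqOn_of_preconnected_of_eventuallyEq`) and on
the closed ball by continuity. Contradiction with the uniform convergence along `U`.
(Alternative: convergent subsequences, or the two constants / Taylor coefficient estimate.)
-/
theorem vitali_id {G : ℕ → ℂ → ℂ} {y y' : ℂ} {r c L : ℝ} (hr : 0 < r) (hc : 0 < c)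
    (hsub : ball y' c ⊆ closedBall y r)
    (hd : ∀ᶠ n in atTop, DifferentiableOn ℂ (G n) (ball y r)) (hL : 0 ≤ L)
    (hlip : ∀ᶠ n in atTop, ∀ w ∈ closedBall y r, ∀ w' ∈ closedBall y r,
      ‖G n w - G n w'‖ ≤ L * ‖w - w'‖)
    (hid : ∀ η : ℝ, 0 < η → ∀ᶠ n in atTop, ∀ w ∈ ball y' c, ‖G n w - w‖ < η)
    {ε : ℝ} (hε : 0 < ε) : ∀ᶠ n in atTop, ∀ w ∈ closedBall y r, ‖G n w - w‖ < ε := by
  classical
  by_contra hcon
  have hfr : ∃ᶠ n in atTop, n ∈ {n | ¬ ∀ w ∈ closedBall y r, ‖G n w - w‖ < ε} :=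
    not_eventually.1 hcon
  have hne : (atTop ⊓ 𝓟 {n | ¬ ∀ w ∈ closedBall y r, ‖G n w - w‖ < ε}).NeBot :=
    frequently_mem_iff_neBot.1 hfr
  set U : Ultrafilter ℕ := Ultrafilter.of (atTop ⊓ 𝓟 {n | ¬ ∀ w ∈ closedBall y r, ‖G n w - w‖ < ε})
    with hU
  have hUle : (U : Filter ℕ) ≤ atTop ⊓ 𝓟 {n | ¬ ∀ w ∈ closedBall y r, ‖G n w - w‖ < ε} :=
    Ultrafilter.of_le _
  have hUat : (U : Filter ℕ) ≤ atTop := hUle.trans inf_le_left
  have hUS : ∀ᶠ n in (U : Filter ℕ), ¬ ∀ w ∈ closedBall y r, ‖G n w - w‖ < ε :=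
    (hUle.trans inf_le_right) (mem_principal_self _)
  have hdU := hd.filter_mono hUat
  have hlipU := hlip.filter_mono hUat
  have hy' : y' ∈ closedBall y r := hsub (mem_ball_self hc)
  -- limit of points of the closed ball
  have hcomp : IsCompact (closedBall y r) := isCompact_closedBall y r
  have hlimpt : ∀ w : ℕ → ℂ, (∀ n, w n ∈ closedBall y r) →
      ∃ w0 ∈ closedBall y r, Tendsto w (U : Filter ℕ) (𝓝 w0) := by
    intro w hw
    have h1 : ((U.map w : Ultrafilter ℂ) : Filter ℂ) ≤ 𝓟 (closedBall y r) := by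
      rw [Ultrafilter.coe_map]
      exact tendsto_principal.2 (Eventually.of_forall hw)
    obtain ⟨w0, hw0, h2⟩ := hcomp.ultrafilter_le_nhds _ h1
    exact ⟨w0, hw0, h2⟩
  -- pointwise limit
  have hbd : ∀ w ∈ closedBall y r, ∀ᶠ n in (U : Filter ℕ),
      G n w ∈ closedBall (0 : ℂ) (‖y'‖ + 1 + L * (2 * r)) := by
    intro w hw
    filter_upwards [(hid 1 one_pos).filter_mono hUat, hlipU] with n h1 h2
    have h3 := h1 y' (mem_ball_self hc)
    have h4 := h2 w hw y' hy'
    have h5 : ‖w - y'‖ ≤ 2 * r := by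
      have := dist_triangle_right w y' y
      rw [mem_closedBall] at hw hy'
      rw [← dist_eq_norm]
      linarith
    have h6 : ‖G n w‖ ≤ ‖G n w - G n y'‖ + ‖G n y' - y'‖ + ‖y'‖ := by
      have : G n w = (G n w - G n y') + (G n y' - y') + y' := by ring
      calc ‖G n w‖ = ‖(G n w - G n y') + (G n y' - y') + y'‖ := by rw [← this]
        _ ≤ _ := norm_add₃_le
    have h7 : L * ‖w - y'‖ ≤ L * (2 * r) := mul_le_mul_of_nonneg_left h5 hL
    rw [mem_closedBall, dist_zero_right]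
    linarith
  have hΓ : ∀ w ∈ closedBall y r, ∃ g : ℂ, Tendsto (fun n => G n w) (U : Filter ℕ) (𝓝 g) := by
    intro w hw
    have h1 : ((U.map (fun n => G n w) : Ultrafilter ℂ) : Filter ℂ) ≤
        𝓟 (closedBall (0 : ℂ) (‖y'‖ + 1 + L * (2 * r))) := by
      rw [Ultrafilter.coe_map]
      exact tendsto_principal.2 (hbd w hw)
    obtain ⟨g, -, h2⟩ := (isCompact_closedBall (0 : ℂ) _).ultrafilter_le_nhds _ h1
    exact ⟨g, h2⟩
  choose! Γ hΓ using hΓ
  have hΓlip : ∀ w ∈ closedBall y r, ∀ w' ∈ closedBall y r, ‖Γ w - Γ w'‖ ≤ L * ‖w - w'‖ := by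
    intro w hw w' hw'
    have h1 : Tendsto (fun n => ‖G n w - G n w'‖) (U : Filter ℕ) (𝓝 ‖Γ w - Γ w'‖) :=
      ((hΓ w hw).sub (hΓ w' hw')).norm
    refine le_of_tendsto h1 ?_
    filter_upwards [hlipU] with n h2
    exact h2 w hw w' hw'
  have hunif : ∀ η : ℝ, 0 < η → ∀ᶠ n in (U : Filter ℕ), ∀ w ∈ closedBall y r,
      ‖Γ w - G n w‖ < η := by
    intro η hη
    by_contra h
    rw [← Ultrafilter.eventually_not] at h
    have h1 : ∀ n, ∃ w ∈ closedBall y r, (¬ ∀ w ∈ closedBall y r, ‖Γ w - G n w‖ < η) →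
        η ≤ ‖Γ w - G n w‖ := by
      intro n
      by_cases hn : ∀ w ∈ closedBall y r, ‖Γ w - G n w‖ < η
      · exact ⟨y', hy', fun h => absurd hn h⟩
      · push Not at hn
        obtain ⟨w, hw, hw2⟩ := hn
        exact ⟨w, hw, fun _ => hw2⟩
    choose w hw hw2 using h1
    obtain ⟨w0, hw0, hlim⟩ := hlimpt w hw
    have h3 : Tendsto (fun n => L * ‖w n - w0‖ + ‖Γ w0 - G n w0‖ + L * ‖w0 - w n‖)
        (U : Filter ℕ) (𝓝 (L * ‖w0 - w0‖ + ‖Γ w0 - Γ w0‖ + L * ‖w0 - w0‖)) :=
      (((hlim.sub_const w0).norm.const_mul L).add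
        ((hΓ w0 hw0).const_sub (Γ w0)).norm).add ((hlim.const_sub w0).norm.const_mul L)
    simp only [sub_self, norm_zero, mul_zero, add_zero] at h3
    have h4 : ∀ᶠ n in (U : Filter ℕ),
        L * ‖w n - w0‖ + ‖Γ w0 - G n w0‖ + L * ‖w0 - w n‖ < η := h3.eventually_lt_const hη
    obtain ⟨n, h5, h6, h7⟩ := (h4.and (h.and hlipU)).exists
    have h8 := hw2 n h6
    have h9 := hΓlip (w n) (hw n) w0 hw0
    have h10 := h7 w0 hw0 (w n) (hw n)
    have h11 : ‖Γ (w n) - G n (w n)‖ ≤ ‖Γ (w n) - Γ w0‖ + ‖Γ w0 - G n w0‖ +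
        ‖G n w0 - G n (w n)‖ := by
      have : Γ (w n) - G n (w n) = (Γ (w n) - Γ w0) + (Γ w0 - G n w0) + (G n w0 - G n (w n)) := by
        ring
      rw [this]
      exact norm_add₃_le
    linarith
  have hsub' : ball y' c ⊆ ball y r := by
    have h1 : ball y' c ⊆ interior (closedBall y r) := interior_maximal hsub isOpen_ball
    rwa [interior_closedBall y hr.ne'] at h1
  have hΓid : ∀ w ∈ ball y' c, Γ w = w := by
    intro w hw
    have h1 : Tendsto (fun n => G n w) (U : Filter ℕ) (𝓝 w) := by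
      rw [tendsto_iff_norm_sub_tendsto_zero]
      refine (tendsto_order.2 ⟨fun a ha => Eventually.of_forall fun n => ha.trans_le (norm_nonneg _),
        fun a ha => ?_⟩)
      filter_upwards [(hid a ha).filter_mono hUat] with n hn
      exact hn w hw
    exact tendsto_nhds_unique (hΓ w (hsub hw)) h1
  have hloc : TendstoLocallyUniformlyOn G Γ (U : Filter ℕ) (ball y r) := by
    refine TendstoUniformlyOn.tendstoLocallyUniformlyOn ?_
    rw [Metric.tendstoUniformlyOn_iff]
    intro η hη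
    filter_upwards [hunif η hη] with n hn w hw
    rw [dist_eq_norm]
    exact hn w (ball_subset_closedBall hw)
  have hΓd : DifferentiableOn ℂ Γ (ball y r) := hloc.differentiableOn hdU isOpen_ball
  have heq : EqOn Γ id (ball y r) := by
    refine AnalyticOnNhd.eqOn_of_preconnected_of_eventuallyEq (hΓd.analyticOnNhd isOpen_ball)
      (differentiable_id.differentiableOn.analyticOnNhd isOpen_ball)
      (convex_ball y r).isPreconnected (hsub' (mem_ball_self hc)) ?_
    filter_upwards [ball_mem_nhds y' hc] with w hw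
    exact hΓid w hw
  have hΓc : ContinuousOn Γ (closedBall y r) := by
    have : LipschitzOnWith ⟨L, hL⟩ Γ (closedBall y r) := by
      refine LipschitzOnWith.of_dist_le_mul fun w hw w' hw' => ?_
      rw [dist_eq_norm, dist_eq_norm]
      exact hΓlip w hw w' hw'
    exact this.continuousOn
  have heq2 : EqOn Γ id (closedBall y r) :=
    heq.of_subset_closure hΓc continuousOn_id ball_subset_closedBall
      (by rw [closure_ball y hr.ne'])
  obtain ⟨n, h1, h2⟩ := (hUS.and (hunif ε hε)).exists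
  apply h1
  intro w hw
  have h3 := h2 w hw
  rw [heq2 hw, norm_sub_rev] at h3
  exact h3

end Pool.Agent.H80.AJ
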