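import Pool.Agent.H80.AJ.Basic

set_option autoImplicit false

open Filter Topology Set

namespace Pool.Agent.H80.AJ

theorem setAA_iter_per {X : Type*} {f : X → X} {p : X} {n : ℕ} (h : f^[n] p = p) (q : ℕ) :
    f^[n * q] p = p := by
  rw [Function.iterate_mul]
  exact Function.iterate_fixed h q

theorem closed_AA {X : Type*} [TopologicalSpace X] [T2Space X] {f : X → X}
    (hf : Continuous f) {S : Set X} (hS : S.Finite) {p : X → X} {n : X → ℕ}
    (hn : ∀ s ∈ S, CL f s (p s) (n s)) : IsClosed (AA f S p) := by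
  have h : AA f S p = ⋃ s ∈ S, ⋃ i ∈ Iio (n s),
      f^[i] '' (insert (p s) (range fun k : ℕ => f^[n s * k] s)) := by
    ext x
    simp only [AA, mem_ofPred_eq, mem_iUnion, mem_Iio, exists_prop]
    constructor
    · rintro ⟨s, hs, k, hk⟩
      obtain ⟨h0, h1, -⟩ := hn s hs
      refine ⟨s, hs, k % n s, Nat.mod_lt _ h0, ?_⟩
      rcases hk with rfl | rfl
      · refine ⟨f^[n s * (k / n s)] s, Or.inr ⟨k / n s, rfl⟩, ?_⟩
        rw [← Function.iterate_add_apply, Nat.mod_add_div]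
      · refine ⟨p s, Or.inl rfl, ?_⟩
        conv_rhs => rw [← Nat.mod_add_div k (n s), Function.iterate_add_apply, setAA_iter_per h1]
    · rintro ⟨s, hs, i, -, z, hz, rfl⟩
      rcases hz with rfl | ⟨k, rfl⟩
      · exact ⟨s, hs, i, Or.inr rfl⟩
      · refine ⟨s, hs, i + n s * k, Or.inl ?_⟩
        rw [Function.iterate_add_apply]
  rw [h]
  refine hS.isClosed_biUnion fun s hs => ?_
  refine (finite_Iio (n s)).isClosed_biUnion fun i _ => ?_
  exact ((hn s hs).2.2.isCompact_insert_range.image (hf.iterate i)).isClosed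

theorem count_AA {X : Type*} (f : X → X) {S : Set X} (hS : S.Finite) (p : X → X) :
    (AA f S p).Countable := by
  have h : AA f S p ⊆ ⋃ s ∈ S, ((range fun k : ℕ => f^[k] s) ∪ range fun k : ℕ => f^[k] (p s)) := by
    rintro x ⟨s, hs, k, hk⟩
    refine mem_biUnion hs ?_
    rcases hk with rfl | rfl
    · exact Or.inl ⟨k, rfl⟩
    · exact Or.inr ⟨k, rfl⟩
  refine Countable.mono h (hS.countable.biUnion fun s _ => ?_)
  exact (countable_range _).union (countable_range _)

theorem inv_AA {X : Type*} (f : X → X) (S : Set X) (p : X → X) {x : X} (hx : x ∈ AA f S p) :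
    f x ∈ AA f S p := by
  obtain ⟨s, hs, k, hk⟩ := hx
  refine ⟨s, hs, k + 1, ?_⟩
  rcases hk with rfl | rfl
  · exact Or.inl (by rw [Function.iterate_succ_apply'])
  · exact Or.inr (by rw [Function.iterate_succ_apply'])

theorem cl_not_bad {X : Type*} [TopologicalSpace X] [T2Space X] {f : X → X}
    (hf : Continuous f) {A : Set X} {x p : X} {n : ℕ} (h : CL f x p n) (hA : ∀ i : ℕ, f^[i] p ∈ A) :
    ¬ Bad f A x := by
  rintro ⟨y, hyA, hy⟩
  obtain ⟨h0, h1, h2⟩ := h
  have h3 : ∀ i, ∃ U ∈ 𝓝 y, ∃ V ∈ 𝓝 (f^[i] p), Disjoint U V := by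
    intro i
    have hne : y ≠ f^[i] p := fun h => hyA (h ▸ hA i)
    obtain ⟨u, v, hu, hv, hyu, hpv, huv⟩ := t2_separation hne
    exact ⟨u, hu.mem_nhds hyu, v, hv.mem_nhds hpv, huv⟩
  choose U hU V hV hd using h3
  have h4 : ∀ᶠ z in 𝓝 y, ∀ i ∈ Iio n, z ∈ U i :=
    (finite_Iio n).eventually_all.2 fun i _ => hU i
  have h5 : ∀ i ∈ Iio n, ∀ᶠ k in atTop, f^[i] (f^[n * k] x) ∈ V i := fun i _ =>
    (((hf.iterate i).tendsto p).comp h2) (hV i)
  have h6 : ∀ᶠ k in atTop, ∀ i ∈ Iio n, f^[i] (f^[n * k] x) ∈ V i :=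
    (finite_Iio n).eventually_all.2 h5
  obtain ⟨K, hK⟩ := eventually_atTop.1 h6
  have h7 : ∃ᶠ k in atTop, ∀ i ∈ Iio n, f^[k] x ∈ U i := hy.frequently h4
  obtain ⟨k, hk, hk2⟩ := (h7.and_eventually (eventually_ge_atTop (n * K))).exists
  have hi : k % n ∈ Iio n := Nat.mod_lt _ h0
  have h8 := hK (k / n) ((Nat.le_div_iff_mul_le h0).2 (by rwa [mul_comm])) (k % n) hi
  rw [← Function.iterate_add_apply, Nat.mod_add_div] at h8
  exact (Set.disjoint_left.1 (hd (k % n))) (hk _ hi) h8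

theorem bad_conj {X : Type*} [TopologicalSpace X] (φ : X ≃ₜ X) {f g : X → X}
    (hfg : ∀ x, g (φ x) = φ (f x)) (A : Set X) (x : X) : Bad g (φ '' A) (φ x) ↔ Bad f A x := by
  have h1 : ∀ k : ℕ, g^[k] (φ x) = φ (f^[k] x) := by
    intro k
    induction k with
    | zero => rfl
    | succ k ih => rw [Function.iterate_succ_apply', Function.iterate_succ_apply', ih, hfg]
  have h2 : (fun k : ℕ => g^[k] (φ x)) = φ ∘ fun k : ℕ => f^[k] x := funext h1
  have h3 : ∀ y, MapClusterPt (φ y) atTop (fun k : ℕ => g^[k] (φ x)) ↔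
      MapClusterPt y atTop (fun k : ℕ => f^[k] x) := by
    intro y
    rw [h2]
    constructor
    · intro h
      have h4 := h.continuousAt_comp (φ.symm.continuous.continuousAt (x := φ y))
      simpa [Function.comp_def] using h4
    · intro h
      exact h.continuousAt_comp φ.continuous.continuousAt
  constructor
  · rintro ⟨y, hy, h⟩
    refine ⟨φ.symm y, fun h' => hy ⟨_, h', φ.apply_symm_apply y⟩, ?_⟩
    rw [← h3, φ.apply_symm_apply]
    exact h
  · rintro ⟨y, hy, h⟩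
    refine ⟨φ y, ?_, (h3 y).2 h⟩
    rintro ⟨z, hz, hzy⟩
    exact hy (φ.injective hzy ▸ hz)

end Pool.Agent.H80.AJ
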