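import Pool.Agent.H80.AJ.Spread

set_option autoImplicit false

open Filter Topology Polynomial OnePoint Metric Set

namespace Pool.Agent.H80.AJ

open Pool.Agent.H44.Fatou Pool.Agent.H32.BT

theorem noret_mono {f : OnePoint ℂ → OnePoint ℂ} {m : ℕ → ℕ} {x x' : ℂ} {ρ ρ' : ℝ}
    (h : NearId f m x ρ) (hsub : ball x' ρ' ⊆ ball x ρ) : NearId f m x' ρ' := by
  intro η hη
  filter_upwards [h η hη] with j hj w hw
  exact hj w (hsub hw)

theorem noret_conv {f : OnePoint ℂ → OnePoint ℂ} {m : ℕ → ℕ} {x : ℂ} {ρ : ℝ} (hρ : 0 < ρ)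
    (h : NearId f m x ρ) :
    Tendsto (fun j => f^[m j] (x : OnePoint ℂ)) atTop (𝓝 (x : OnePoint ℂ)) := by
  intro s hs
  have h1 : (fun w : ℂ => (w : OnePoint ℂ)) ⁻¹' s ∈ 𝓝 x :=
    OnePoint.continuous_coe.continuousAt.preimage_mem_nhds hs
  obtain ⟨η, hη, hsub⟩ := Metric.mem_nhds_iff.1 h1
  rw [Filter.mem_map]
  filter_upwards [h η hη] with j hj
  obtain ⟨w', hw', hd⟩ := hj x (mem_ball_self hρ)
  have h2 : w' ∈ ball x η := by rwa [mem_ball, dist_eq_norm]
  have h3 := hsub h2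
  rw [mem_preimage] at h3 ⊢
  rw [hw']
  exact h3

/-
Proof. Choose `m n ≥ n` with `η = 1/(n+1)` in `hret`: then `NearId f m y ρ` and `m → ∞`.
`V = {x : ℂ | ∃ ρ > 0, NearId f m x ρ}` is open. `U = {x : ℂ | ↑x ∉ A}` is open and preconnected
(`Set.Countable.isConnected_compl_of_one_lt_rank`, `A` countable, coe injective). `V ∩ U` is
closed in `U`: if `x ∈ U` is in the closure of `V`, take `s` with `Off A x (8 s)` and `x' ∈ V` with
`‖x' - x‖ < s`; `Off A x' (4 s)`, so `spread` gives `NearId f m x' s`, and `x ∈ V`. So `U ⊆ V`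
(`IsPreconnected.subset_of_closure_inter_subset` or `IsPreconnected` with two open sets `V` and the
interior of the complement). A point `x ∈ ball u t` outside `A` (complement of a countable set is
dense) is in `V`, so `f^[m n] x → x`, hence `x` is a cluster point of its orbit, `Bad f A x`,
contradiction.
-/
theorem noret {P Q : Polynomial ℂ} {A : Set (OnePoint ℂ)} (h : Sys P Q A) {y : ℂ} {ρ : ℝ}
    (hρ : 0 < ρ) (hyA : (y : OnePoint ℂ) ∉ A)
    (hret : ∀ η : ℝ, 0 < η → ∀ N : ℕ, ∃ m : ℕ, N ≤ m ∧ ∀ v ∈ ball y ρ, ∃ v' : ℂ,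
      (rat P Q)^[m] (v : OnePoint ℂ) = (v' : OnePoint ℂ) ∧ ‖v' - v‖ < η)
    {u : ℂ} {t : ℝ} (ht : 0 < t) (hO : ∀ w ∈ ball u t, ¬ Bad (rat P Q) A (w : OnePoint ℂ)) :
    False := by
  set f := rat P Q with hf
  have hret' : ∀ n : ℕ, ∃ m : ℕ, n ≤ m ∧ ∀ v ∈ ball y ρ, ∃ v' : ℂ,
      f^[m] (v : OnePoint ℂ) = (v' : OnePoint ℂ) ∧ ‖v' - v‖ < 1 / ((n : ℝ) + 1) :=
    fun n => hret _ Nat.one_div_pos_of_nat n
  choose m hm1 hm2 using hret'
  have hm : Tendsto m atTop atTop := tendsto_atTop_mono hm1 tendsto_id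
  have hy : NearId f m y ρ := by
    intro η hη
    have h1 : ∀ᶠ n : ℕ in atTop, 1 / ((n : ℝ) + 1) < η :=
      tendsto_one_div_add_atTop_nhds_zero_nat.eventually_lt_const hη
    filter_upwards [h1] with n hn w hw
    obtain ⟨w', e1, e2⟩ := hm2 n w hw
    exact ⟨w', e1, e2.trans hn⟩
  set V : Set ℂ := {x : ℂ | ∃ r : ℝ, 0 < r ∧ NearId f m x r} with hV
  set C : Set ℂ := (fun w : ℂ => (w : OnePoint ℂ)) ⁻¹' A with hC
  have hCc : C.Countable := h.count.preimage OnePoint.coe_injective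
  have hmem : ∀ {x x' : ℂ} {r : ℝ}, NearId f m x r → x' ∈ ball x r → x' ∈ V := by
    intro x x' r hx hx'
    rw [mem_ball] at hx'
    refine ⟨r - dist x' x, by linarith, noret_mono hx ?_⟩
    intro z hz
    rw [mem_ball] at hz ⊢
    have := dist_triangle z x' x
    linarith
  have hVo : IsOpen V := by
    rw [Metric.isOpen_iff]
    rintro x ⟨r, hr, hx⟩
    exact ⟨r, hr, fun x' hx' => hmem hx hx'⟩
  have hconn : IsPreconnected Cᶜ := by
    refine (Set.Countable.isConnected_compl_of_one_lt_rank ?_ hCc).isPreconnected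
    rw [Complex.rank_real_complex]
    exact Cardinal.one_lt_two
  have hUV : Cᶜ ⊆ V := by
    refine hconn.subset_of_closure_inter_subset hVo ⟨y, hyA, ρ, hρ, hy⟩ ?_
    rintro x ⟨hx1, hx2⟩
    obtain ⟨r, hr, hoff⟩ := exists_off h.closed (show (x : OnePoint ℂ) ∉ A from hx2)
    obtain ⟨x', ⟨r', hr', hx'⟩, hd⟩ := Metric.mem_closure_iff.1 hx1 (r / 2) (by linarith)
    have hoff' : Off A x' (4 * (r / 2)) := by
      refine hoff.mono ?_
      intro z hz
      rw [mem_ball] at hz ⊢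
      have := dist_triangle z x' x
      rw [dist_comm x' x] at this
      linarith
    have h1 := spread h hr' (by linarith : 0 < r / 2) hx' hoff'
    exact hmem h1 (by rwa [mem_ball])
  have hdense : Dense Cᶜ := hCc.dense_compl ℝ
  obtain ⟨x, hxu, hxC⟩ := hdense.inter_open_nonempty (ball u t) isOpen_ball
    ⟨u, mem_ball_self ht⟩
  obtain ⟨r, hr, hx⟩ := hUV hxC
  refine hO x hxu ⟨(x : OnePoint ℂ), hxC, ?_⟩
  have h2 := (noret_conv hr hx).mapClusterPt
  exact MapClusterPt.of_comp (u := fun k : ℕ => f^[k] (x : OnePoint ℂ)) hm h2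

end Pool.Agent.H80.AJ
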