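import Pool.Agent.H80.AJ.Types
import Pool.Agent.H79.Par.GDefs

set_option autoImplicit false

open Filter Topology Polynomial OnePoint Metric Set MeasureTheory

namespace Pool.Agent.H80.AJ

open Pool.Agent.H44.Fatou Pool.Agent.H32.BT Pool.Agent.H79.Par

/-- `f^[n]` near a point with finite orbit is a holomorphic function -/
theorem local_hol {P Q : Polynomial ℂ} (h : IsCoprime P Q) {w : ℂ} {n : ℕ}
    (hfin : ∀ i ≤ n, (rat P Q)^[i] (w : OnePoint ℂ) ≠ ∞) :
    ∃ (F : ℂ → ℂ) (ε : ℝ), 0 < ε ∧ DifferentiableOn ℂ F (ball w ε) ∧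
      ∀ u ∈ ball w ε, (rat P Q)^[n] (u : OnePoint ℂ) = (F u : OnePoint ℂ) := by
  have hfc : Continuous (rat P Q) := rat_continuous h
  have h1 : ∀ᶠ u : ℂ in 𝓝 w, ∀ i ∈ Finset.range (n + 1), (rat P Q)^[i] (u : OnePoint ℂ) ≠ ∞ := by
    rw [Filter.eventually_all_finset]
    intro i hi
    have hc : Continuous fun u : ℂ => (rat P Q)^[i] (u : OnePoint ℂ) :=
      (hfc.iterate i).comp continuous_coe
    have h2 : {x : OnePoint ℂ | x ≠ ∞} ∈ 𝓝 ((rat P Q)^[i] (w : OnePoint ℂ)) :=
      isOpen_ne.mem_nhds (hfin i (by rw [Finset.mem_range] at hi; omega))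
    exact hc.continuousAt.eventually h2
  obtain ⟨ε, hε, hb⟩ := Metric.eventually_nhds_iff_ball.1 h1
  obtain ⟨F, hF1, hF2⟩ := iter_diff h (isOpen_ball (x := w) (ε := ε)) n (fun u hu i hi => by
    have h3 := hb u hu i (by rw [Finset.mem_range]; omega)
    induction hx : (rat P Q)^[i] (u : OnePoint ℂ) using OnePoint.rec with
    | infty => exact absurd hx h3
    | coe v => exact ⟨v, rfl⟩)
  exact ⟨F, ε, hε, hF1, hF2⟩

/-- the multiplier is the same at the next point of the cycle -/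
theorem fix_step {P Q : Polynomial ℂ} (h : IsCoprime P Q) {w : ℂ} {n : ℕ} (hn : 0 < n)
    (hfin : ∀ i ≤ n, (rat P Q)^[i] (w : OnePoint ℂ) ≠ ∞) {a : ℂ}
    (hM : FixMult (rat P Q)^[n] (w : OnePoint ℂ) a) :
    FixMult (rat P Q)^[n] (rat P Q (w : OnePoint ℂ)) a := by
  have hfix := fixMult_fix hM
  obtain ⟨n, rfl⟩ : ∃ m, n = m + 1 := ⟨n - 1, by omega⟩
  -- the next point
  obtain ⟨w', hw'⟩ : ∃ w' : ℂ, rat P Q (w : OnePoint ℂ) = (w' : OnePoint ℂ) := by
    have h1 := hfin 1 (by omega)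
    rw [Function.iterate_one] at h1
    induction hx : rat P Q (w : OnePoint ℂ) using OnePoint.rec with
    | infty => exact absurd hx h1
    | coe v => exact ⟨v, rfl⟩
  have hQ : Q.eval w ≠ 0 := by
    intro h0
    rw [rat_coe] at hw'
    unfold pt at hw'
    rw [if_pos h0] at hw'
    exact infty_ne_coe _ hw'
  have hhw : P.eval w / Q.eval w = w' := by
    rw [rat_coe_of_ne hQ] at hw'
    exact OnePoint.coe_injective hw'
  set b : ℂ := ((derivative P).eval w * Q.eval w - P.eval w * (derivative Q).eval w) /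
    Q.eval w ^ 2 with hb
  have hh : HasDerivAt (fun u => P.eval u / Q.eval u) b w := by
    have := (P.hasDerivAt w).div (Q.hasDerivAt w) hQ
    exact this
  have hhc : ∀ᶠ u in 𝓝 w, Q.eval u ≠ 0 := Q.continuous.continuousAt.eventually_ne hQ
  -- the map f^[n] near w'
  have hfin' : ∀ i ≤ n, (rat P Q)^[i] (w' : OnePoint ℂ) ≠ ∞ := by
    intro i hi
    rw [← hw', ← Function.iterate_succ_apply]
    exact hfin (i + 1) (by omega)
  obtain ⟨F1, ε, hε, hF1, hF1e⟩ := local_hol h hfin'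
  have hF1w : F1 w' = w := by
    have h1 := hF1e w' (mem_ball_self hε)
    rw [← hw', ← Function.iterate_succ_apply, hfix] at h1
    exact (OnePoint.coe_injective h1).symm
  have hF1d : HasDerivAt F1 (deriv F1 w') w' :=
    (hF1.differentiableAt (ball_mem_nhds w' hε)).hasDerivAt
  -- the derivative at w
  obtain ⟨G, hGw, hG, hGe⟩ : ∃ G : ℂ → ℂ, G w = w ∧ HasDerivAt G a w ∧
      ∀ᶠ u : ℂ in 𝓝 w, (rat P Q)^[n + 1] (u : OnePoint ℂ) = (G u : OnePoint ℂ) := by
    rcases hM with ⟨w0, G, hw0, h1, h2, h3⟩ | ⟨G, h1, -⟩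
    · have : w = w0 := OnePoint.coe_injective hw0
      subst this
      exact ⟨G, h1, h2, h3⟩
    · exact absurd h1 (coe_ne_infty w)
  have hcomp : HasDerivAt (fun u => F1 (P.eval u / Q.eval u)) (deriv F1 w' * b) w := by
    have h1 : HasDerivAt F1 (deriv F1 w') (P.eval w / Q.eval w) := by rw [hhw]; exact hF1d
    exact h1.comp w hh
  have hGF : G =ᶠ[𝓝 w] fun u => F1 (P.eval u / Q.eval u) := by
    have h1 : Tendsto (fun u => P.eval u / Q.eval u) (𝓝 w) (𝓝 w') := by
      have := hh.continuousAt.tendsto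
      rwa [hhw] at this
    filter_upwards [hGe, hhc, h1.eventually (ball_mem_nhds w' hε)] with u h2 h3 h4
    rw [Function.iterate_succ_apply, rat_coe_of_ne h3] at h2
    exact (OnePoint.coe_injective ((hF1e _ h4).symm.trans h2)).symm
  have hab : a = deriv F1 w' * b := hG.unique (hcomp.congr_of_eventuallyEq hGF)
  -- the result
  left
  refine ⟨w', fun v => P.eval (F1 v) / Q.eval (F1 v), hw', ?_, ?_, ?_⟩
  · simp only [hF1w, hhw]
  · have h1 : HasDerivAt (fun u => P.eval u / Q.eval u) b (F1 w') := by rw [hF1w]; exact hh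
    have h2 := h1.comp w' hF1d
    rw [hab, mul_comm]
    exact h2
  · have h1 : Tendsto F1 (𝓝 w') (𝓝 w) := by
      have := hF1d.continuousAt.tendsto
      rwa [hF1w] at this
    filter_upwards [ball_mem_nhds w' hε, h1.eventually hhc] with v h2 h3
    rw [Function.iterate_succ_apply', hF1e v h2, rat_coe_of_ne h3]

theorem fix_iter {P Q : Polynomial ℂ} (h : IsCoprime P Q) {z : OnePoint ℂ} {n : ℕ} (hn : 0 < n)
    (hfin : ∀ i, (rat P Q)^[i] z ≠ ∞) {a : ℂ} (hM : FixMult (rat P Q)^[n] z a) (q : ℕ) :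
    FixMult (rat P Q)^[n] ((rat P Q)^[q] z) a := by
  induction q with
  | zero => exact hM
  | succ q ih =>
    rw [Function.iterate_succ_apply']
    obtain ⟨w, hw⟩ : ∃ w : ℂ, (rat P Q)^[q] z = (w : OnePoint ℂ) := by
      induction hx : (rat P Q)^[q] z using OnePoint.rec with
      | infty => exact absurd hx (hfin q)
      | coe v => exact ⟨v, rfl⟩
    rw [hw] at ih ⊢
    refine fix_step h hn (fun i hi => ?_) ih
    rw [← hw, ← Function.iterate_add_apply]
    exact hfin _

theorem sink_iter {f : OnePoint ℂ → OnePoint ℂ} (hf : Continuous f) {z : OnePoint ℂ} {n : ℕ}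
    (h : IsSink f z n) (q : ℕ) : IsSink f (f^[q] z) n := by
  induction q with
  | zero => exact h
  | succ q ih => rw [Function.iterate_succ_apply']; exact isSink_map hf ih

/-- PART E: in a good chart, if all critical points are of types 1, 2, 3, 4 and one of them is of
type 1 or 2 then almost every point is of type 1 or 2. -/
theorem area0 {d : ℕ} (hd : 2 ≤ d) {v0 : Pool.Agent.H79.Eul.E d} (h0 : Chart0 v0)
    (hcrit : ∀ c, IsCrit (Rf v0) c → ∃ (z : OnePoint ℂ) (n : ℕ), TyA (Rf v0) c z n)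
    (hex : ∃ (c z : OnePoint ℂ) (n : ℕ), IsCrit (Rf v0) c ∧ Ty12 (Rf v0) c z n) :
    volume {x : ℂ | ¬ ∃ (z : OnePoint ℂ) (n : ℕ), Ty12 (Rf v0) (x : OnePoint ℂ) z n} = 0 := by
  classical
  obtain ⟨h, hdeg, hper, -⟩ := h0
  set P := Pool.Agent.H79.Eul.pol v0.1 with hP
  set Q := Pool.Agent.H79.Eul.pol v0.2 with hQ
  have hRf : Rf v0 = rat P Q := rfl
  rw [hRf] at hper hcrit hex ⊢
  have hfc : Continuous (rat P Q) := rat_continuous h
  have hd2 : 2 ≤ max P.natDegree Q.natDegree := by rw [hdeg]; exact hd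
  have hd1 : 1 ≤ max P.natDegree Q.natDegree := by omega
  obtain ⟨c0, z0, n0, hc0, hT0⟩ := hex
  have hb : ∀ᶠ x in 𝓝 c0, CL (rat P Q) x z0 n0 := by
    rcases hT0 with hT0 | hT0
    · exact ty1_open hfc hT0
    · exact ty2_open h hd1 hT0
  have hex' : ∀ c : OnePoint ℂ, ∃ (z : OnePoint ℂ) (n : ℕ), IsCrit (rat P Q) c →
      TyA (rat P Q) c z n := by
    intro c
    by_cases hc : IsCrit (rat P Q) c
    · obtain ⟨z, n, hzn⟩ := hcrit c hc
      exact ⟨z, n, fun _ => hzn⟩
    · exact ⟨c, 0, fun h0 => absurd h0 hc⟩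
  choose zc mc hzc using hex'
  have hC : (⋃ q : ℕ, (fun c => (rat P Q)^[q] (zc c)) '' {c | IsCrit (rat P Q) c}).Countable :=
    Set.countable_iUnion fun q => ((crit_finite h hd1).image _).countable
  have hconv := ae_conv h hd2 (fun c hc => by
    obtain ⟨i, hi⟩ := tyA_cl (hzc c hc)
    exact ⟨_, _, hi⟩) hb
  have hmain : ∀ᵐ x : ℂ, ∃ (z : OnePoint ℂ) (n : ℕ), Ty12 (rat P Q) (x : OnePoint ℂ) z n := by
    filter_upwards [hconv, land_null h hd1 hC] with x hx hland
    obtain ⟨s, p, n, i, N, hs, hsp, hxp⟩ := hx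
    have hsc : IsCrit (rat P Q) s := by
      rcases hs with hs | hs
      · exact hs
      · rw [hs]; exact hc0
    obtain ⟨i', hi'⟩ := tyA_cl (hzc s hsc)
    have hp : p = (rat P Q)^[i'] (zc s) := cl_unique hsp hi'
    set z := zc s with hz
    set m := mc s with hm
    have hm0 : 0 < m := hi'.1
    have hzm : (rat P Q)^[m] z = z := by
      rcases hzc s hsc with hT | hT | hT | hT
      · exact hT.1.2.1
      · exact fixMult_fix hT.2.1
      · obtain ⟨a, -, ha⟩ := hT.2.1
        exact fixMult_fix ha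
      · exact fixMult_fix hT.2.1
    have hfin : ∀ i, (rat P Q)^[i] z ≠ ∞ := by
      intro i hi
      apply hper m hm0
      rw [← hi, ← Function.iterate_add_apply, Nat.add_comm, Function.iterate_add_apply, hzm]
    rw [hp, ← Function.iterate_add_apply] at hxp
    set q := i + i' with hq
    have hN : 0 < N := hxp.1
    have hxM : CL (rat P Q) (x : OnePoint ℂ) ((rat P Q)^[q] z) (m * N) := by
      have h1 := cl_mul hxp hm0
      rwa [Nat.mul_comm] at h1
    have hnl : ∀ k : ℕ, (rat P Q)^[m * N * k] (x : OnePoint ℂ) ≠ (rat P Q)^[q] z := by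
      intro k hk
      exact hland _ (Set.mem_iUnion.2 ⟨q, s, hsc, hk.symm⟩)
    have hfm : ∀ a : ℂ, FixMult (rat P Q)^[m] z a →
        FixMult (rat P Q)^[m * N] ((rat P Q)^[q] z) (a ^ N) := by
      intro a ha
      rw [Function.iterate_mul]
      exact fixMult_iter (fix_iter h hm0 hfin ha q) N
    refine ⟨(rat P Q)^[q] z, m * N, ?_⟩
    rcases hzc s hsc with hT | hT | hT | hT
    · left
      exact ⟨isSink_mul (sink_iter hfc hT.1 q) hN, hxM.2.2⟩
    · right
      refine ⟨hxM.1, ?_, hxM.2.2, hnl⟩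
      have h1 := hfm 1 hT.2.1
      rwa [one_pow] at h1
    · exfalso
      obtain ⟨a, ha1, ha⟩ := hT.2.1
      obtain ⟨k, hk⟩ := rep_land (F := (rat P Q)^[m * N])
        (x := (x : OnePoint ℂ)) (a := a ^ N) (by
          rw [norm_pow]
          exact one_lt_pow₀ ha1 hN.ne') (hfm a ha) (by
          refine hxM.2.2.congr (fun k => ?_)
          rw [Function.iterate_mul])
      rw [← Function.iterate_mul] at hk
      exact hnl k hk
    · right
      refine ⟨hxM.1, ?_, hxM.2.2, hnl⟩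
      have h1 := hfm 1 hT.2.1
      rwa [one_pow] at h1
  rwa [ae_iff] at hmain

end Pool.Agent.H80.AJ
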