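import Pool.Agent.H80.AJ.Defs

set_option autoImplicit false

open Filter Topology Polynomial OnePoint Metric Set

namespace Pool.Agent.H80.AJ

open Pool.Agent.H44.Fatou Pool.Agent.H32.BT

/-- cluster points of a shifted orbit (`f^[k] (f^[m] x) = f^[k+m] x`, `map_add_atTop_eq_nat`) -/
theorem cluster_shift {X : Type*} [TopologicalSpace X] (f : X → X) (x y : X) (m : ℕ) :
    MapClusterPt y atTop (fun k : ℕ => f^[k] (f^[m] x)) ↔
      MapClusterPt y atTop (fun k : ℕ => f^[k] x) := by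
  have h1 : (fun k : ℕ => f^[k] (f^[m] x)) = (fun k : ℕ => f^[k] x) ∘ (fun k => k + m) := by
    funext k
    simp only [Function.comp_apply, Function.iterate_add_apply]
  unfold MapClusterPt
  rw [h1, ← Filter.map_map, map_add_atTop_eq_nat]

theorem bad_iter {X : Type*} [TopologicalSpace X] (f : X → X) (A : Set X) (x : X) (m : ℕ) :
    Bad f A (f^[m] x) ↔ Bad f A x := by
  unfold Bad
  simp only [cluster_shift]

theorem iter_mem {X : Type*} {f : X → X} {A : Set X} (hA : ∀ x ∈ A, f x ∈ A) {x : X} (hx : x ∈ A)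
    (n : ℕ) : f^[n] x ∈ A := by
  induction n with
  | zero => exact hx
  | succ n ih => rw [Function.iterate_succ_apply']; exact hA _ ih

/-- points of a closed forward invariant set are not bad -/
theorem not_bad_of_mem {X : Type*} [TopologicalSpace X] {f : X → X} {A : Set X} (hAc : IsClosed A)
    (hA : ∀ x ∈ A, f x ∈ A) {x : X} (hx : x ∈ A) : ¬ Bad f A x := by
  rintro ⟨y, hy, hcl⟩
  apply hy
  have h1 : ∃ᶠ k in atTop, f^[k] x ∈ Aᶜ := hcl.frequently (hAc.isOpen_compl.mem_nhds hy)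
  obtain ⟨k, hk⟩ := h1.exists
  exact absurd (iter_mem hA hx k) hk

theorem Off.mono {A : Set (OnePoint ℂ)} {w w' : ℂ} {R R' : ℝ} (h : Off A w R)
    (hsub : ball w' R' ⊆ ball w R) : Off A w' R' := fun u hu => h u (hsub hu)

/-- a point outside a closed set has a disc outside the set -/
theorem exists_off {A : Set (OnePoint ℂ)} (hA : IsClosed A) {y : ℂ} (hy : (y : OnePoint ℂ) ∉ A) :
    ∃ r : ℝ, 0 < r ∧ Off A y (4 * r) := by
  have h1 : ((↑) : ℂ → OnePoint ℂ) ⁻¹' Aᶜ ∈ 𝓝 y :=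
    continuous_coe.continuousAt (hA.isOpen_compl.mem_nhds hy)
  obtain ⟨ε, hε, hb⟩ := Metric.mem_nhds_iff.1 h1
  refine ⟨ε / 4, by positivity, fun u hu => hb ?_⟩
  rwa [mul_div_cancel₀ ε (by norm_num : (4 : ℝ) ≠ 0)] at hu

/-- existence of inverse branches off `A`: `Pool.Agent.H32.BT.branch`; if `f^[n] u = y ∉ A` then
`f^[i] u ∉ A` for `i ≤ n`, so `f^[i] u` is finite, and not critical for `i < n` (else
`f^[i+1] u ∈ A`). -/
theorem Sys.br {P Q : Polynomial ℂ} {A : Set (OnePoint ℂ)} (h : Sys P Q A) {w : ℂ} {R : ℝ}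
    (hR : 0 < R) (hw : Off A w R) {z : ℂ} {n : ℕ}
    (hz : (rat P Q)^[n] (z : OnePoint ℂ) = (w : OnePoint ℂ)) :
    ∃ G : ℂ → ℂ, Br (rat P Q) n w R z G := by
  have hnot : ∀ y ∈ ball w R, ∀ u : OnePoint ℂ, (rat P Q)^[n] u = (y : OnePoint ℂ) →
      ∀ i ≤ n, (rat P Q)^[i] u ∉ A := by
    intro y hy u hu i hi hA
    apply hw y hy
    rw [← hu]
    obtain ⟨j, rfl⟩ := Nat.exists_eq_add_of_le hi
    rw [Nat.add_comm, Function.iterate_add_apply]
    exact iter_mem h.inv hA j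
  obtain ⟨G, hG1, hG2, hG3⟩ := branch h.cop h.deg hR (n := n) (x := w) (fun y hy u hu => by
    refine ⟨fun i hi hc => ?_, fun i hi => ?_⟩
    · have h1 := h.crit _ hc
      rw [← Function.iterate_succ_apply' (rat P Q)] at h1
      exact hnot y hy u hu (i + 1) hi h1
    · have h1 := hnot y hy u hu i hi
      induction hx : (rat P Q)^[i] u using OnePoint.rec with
      | infty => rw [hx] at h1; exact absurd h.inf h1
      | coe v => exact ⟨v, rfl⟩) hz
  exact ⟨G, hG1, hG2, hG3⟩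

theorem Br.inj {f : OnePoint ℂ → OnePoint ℂ} {n : ℕ} {w : ℂ} {R : ℝ} {z : ℂ} {G : ℂ → ℂ}
    (h : Br f n w R z G) : InjOn G (ball w R) := by
  intro u hu v hv huv
  have h1 := h.inv u hu
  have h2 := h.inv v hv
  rw [huv, h2] at h1
  exact (OnePoint.coe_injective h1).symm

theorem Sys.br_off {P Q : Polynomial ℂ} {A : Set (OnePoint ℂ)} (h : Sys P Q A) {n : ℕ} {w : ℂ}
    {R : ℝ} (hw : Off A w R) {z : ℂ} {G : ℂ → ℂ} (hG : Br (rat P Q) n w R z G) {u : ℂ}
    (hu : u ∈ ball w R) : (G u : OnePoint ℂ) ∉ A := by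
  intro hA
  apply hw u hu
  rw [← hG.inv u hu]
  exact iter_mem h.inv hA n

end Pool.Agent.H80.AJ
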