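import Pool.Agent.H80.AJ.Basic

set_option autoImplicit false

open Filter Topology Set

namespace Pool.Agent.H80.AJ

/-- cluster points have preimages among the cluster points -/
theorem cluster_preimage {X : Type*} [TopologicalSpace X] [CompactSpace X] [T2Space X] {f : X → X}
    (hf : Continuous f) {x y : X} (hy : MapClusterPt y atTop (fun k : ℕ => f^[k] x)) (m : ℕ) :
    ∃ y', MapClusterPt y' atTop (fun k : ℕ => f^[k] x) ∧ f^[m] y' = y := by
  obtain ⟨U, hU, hUy⟩ := mapClusterPt_iff_ultrafilter.1 hy
  let v : ℕ → X := fun k => f^[k - m] x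
  obtain ⟨y', -, hy'⟩ := isCompact_univ.ultrafilter_le_nhds (U.map v) (by simp)
  have hv : Tendsto v U (𝓝 y') := hy'
  have hsub : Tendsto (fun k : ℕ => k - m) (U : Filter ℕ) atTop :=
    (tendsto_sub_atTop_nat m).mono_left hU
  refine ⟨y', ?_, ?_⟩
  · refine mapClusterPt_iff_ultrafilter.2 ⟨U.map (fun k => k - m), hsub, ?_⟩
    rw [Ultrafilter.coe_map, tendsto_map'_iff]
    exact hv
  · have h1 : Tendsto (fun k => f^[m] (v k)) U (𝓝 (f^[m] y')) :=
      ((hf.iterate m).tendsto y').comp hv
    have h2 : Tendsto (fun k => f^[m] (v k)) U (𝓝 y) := by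
      refine hUy.congr' ?_
      have : ∀ᶠ k in (U : Filter ℕ), m ≤ k := hU (eventually_ge_atTop m)
      filter_upwards [this] with k hk
      show f^[k] x = f^[m] (f^[k - m] x)
      rw [← Function.iterate_add_apply]
      congr 2
      omega
    exact tendsto_nhds_unique h1 h2

/-
Proof. Suppose `y` is not of the form `f^[i] (p s)`. For every `m` there is a cluster point `y'` of
the orbit of `x` with `f^[m] y' = y` (compactness: `f^[k] x` is close to `y` for `k` in a filter
`F ≤ atTop`, NeBot, with `f^[k] x → y` along an ultrafilter `F ≤ atTop`; `f^[k - m] x` has a limit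
`y'` along the ultrafilter, it is a cluster point of the orbit, and `f^[m] y' = y` by continuity
and uniqueness of limits). `y' ∈ AA f S p` by `hx`, and `y'` is not `f^[j] (p s)` (else `y` is), so
`y' = f^[j] s`, `y = f^[j + m] s` with `s ∈ S`. `S` is finite, so for one `s ∈ S` there are
infinitely many `e` with `y = f^[e] s`; two of them `e < e'` give `f^[e' - e] y = y`. Then
`f^[e + (e'-e) i] s = y` for all `i`. Along `k = e + (e'-e) n_s i`... : the sequence
`f^[n_s * k] s → p s`; take `k` of the form with `n_s k = e0 + (e'-e) n_s i`, `e0 = n_s e ≥ e`: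
`f^[n_s e + (e'-e) n_s i] s = f^[n_s e - e] y` constant (for all `i`), and tends to `p s`, so
`p s = f^[n_s e - e] y` and (periodicity of `y` with period `e' - e`) `y = f^[i'] (p s)` for a
suitable `i'` (`(n_s e - e) + i'` divisible by `e' - e`). Contradiction.
-/
theorem cluster_per {X : Type*} [TopologicalSpace X] [CompactSpace X] [T2Space X] {f : X → X}
    (hf : Continuous f) {S : Set X} (hS : S.Finite) {p : X → X} {n : X → ℕ}
    (hn : ∀ s ∈ S, CL f s (p s) (n s)) {x : X}
    (hx : ∀ y, MapClusterPt y atTop (fun k : ℕ => f^[k] x) → y ∈ AA f S p) {y : X}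
    (hy : MapClusterPt y atTop (fun k : ℕ => f^[k] x)) : ∃ s ∈ S, ∃ i : ℕ, y = f^[i] (p s) := by
  by_contra hcon
  push Not at hcon
  have h1 : ∀ m : ℕ, ∃ e, m ≤ e ∧ ∃ s ∈ S, y = f^[e] s := by
    intro m
    obtain ⟨y', hy', hm⟩ := cluster_preimage hf hy m
    obtain ⟨s, hs, j, hj | hj⟩ := hx y' hy'
    · refine ⟨m + j, Nat.le_add_right _ _, s, hs, ?_⟩
      rw [Function.iterate_add_apply, ← hj, hm]
    · exfalso
      apply hcon s hs (m + j)
      rw [Function.iterate_add_apply, ← hj, hm]
  have h2 : ∃ s ∈ S, {e : ℕ | y = f^[e] s}.Infinite := by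
    by_contra h
    push Not at h
    have hfin : (⋃ s ∈ S, {e : ℕ | y = f^[e] s}).Finite :=
      hS.biUnion fun s hs => h s hs
    obtain ⟨N, hN⟩ := hfin.bddAbove
    obtain ⟨e, he, s, hs, hes⟩ := h1 (N + 1)
    have : e ≤ N := hN (Set.mem_biUnion hs hes)
    omega
  obtain ⟨s, hs, hinf⟩ := h2
  obtain ⟨e, he⟩ := hinf.nonempty
  obtain ⟨e', he', hee'⟩ := hinf.exists_gt e
  have he0 : y = f^[e] s := he
  have he1 : y = f^[e'] s := he'
  obtain ⟨hn0, hnp, hlim⟩ := hn s hs
  set d := e' - e with hd
  have hd0 : 0 < d := by omega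
  have hper : f^[d] y = y := by
    conv_lhs => rw [he0]
    rw [← Function.iterate_add_apply, he1]
    congr 2
    omega
  have hper' : ∀ k : ℕ, f^[d * k] y = y := by
    intro k
    rw [Function.iterate_mul]
    exact Function.iterate_fixed hper k
  have hne : e ≤ n s * e := Nat.le_mul_of_pos_left e hn0
  have hconst : ∀ i : ℕ, f^[n s * (e + d * i)] s = f^[n s * e - e] y := by
    intro i
    have e1 : n s * (e + d * i) = (n s * e - e) + (d * (n s * i) + e) := by
      have : n s * (e + d * i) = n s * e + d * (n s * i) := by ring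
      omega
    rw [e1, Function.iterate_add_apply, Function.iterate_add_apply, ← he0, hper']
  have htend : Tendsto (fun i : ℕ => e + d * i) atTop atTop := by
    apply tendsto_atTop_mono (f := fun i : ℕ => i) _ tendsto_id
    intro i
    have : i ≤ d * i := Nat.le_mul_of_pos_left i hd0
    show i ≤ e + d * i
    omega
  have hlim2 : Tendsto (fun i : ℕ => f^[n s * (e + d * i)] s) atTop (𝓝 (p s)) := hlim.comp htend
  have hps : p s = f^[n s * e - e] y := by
    have h3 : Tendsto (fun _ : ℕ => f^[n s * e - e] y) atTop (𝓝 (p s)) := by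
      refine hlim2.congr fun i => hconst i
    exact tendsto_nhds_unique h3 tendsto_const_nhds
  apply hcon s hs ((n s * e - e) * (d - 1))
  rw [hps, ← Function.iterate_add_apply]
  have e2 : (n s * e - e) * (d - 1) + (n s * e - e) = d * (n s * e - e) := by
    obtain ⟨d', hd'⟩ : ∃ d', d = d' + 1 := ⟨d - 1, by omega⟩
    rw [hd']
    simp only [Nat.add_sub_cancel]
    ring
  rw [e2, hper']

end Pool.Agent.H80.AJ
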