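import Pool.Agent.H80.AJ.Basic

set_option autoImplicit false

open Filter Topology Set

namespace Pool.Agent.H80.AJ

/-
Proof. Let `F = f^[N]`, `x k = F^[k] x = f^[N * k] x`. Its cluster points are cluster points of the
orbit, so in `C`; by compactness there is one, `c ∈ C`. Choose disjoint open sets `U ∋ c` and
`U' ⊇ C \ {c}` (finite set, Hausdorff: `SeparatedNhds`), and an open `W` with `c ∈ W ⊆ U`,
`F '' W ⊆ U` (`F c = c`). Eventually `x k ∈ W ∪ U'` (otherwise a cluster point outside this
neighbourhood of `C`, by compactness). `x k ∈ W` infinitely often; for large `k` `x k ∈ W` implies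
`x (k+1) ∈ U`, so `x (k+1) ∉ U'`, `x (k+1) ∈ W`. So `x k ∈ W` for all large `k`; every cluster point
is in `closure U`, disjoint from `U'`, so it is `c`. In a compact space a sequence with a unique
cluster point converges (`le_nhds_of_unique_clusterPt` or similar).
-/
theorem conv_one {X : Type*} [TopologicalSpace X] [CompactSpace X] [T2Space X] {f : X → X}
    (hf : Continuous f) {C : Set X} (hC : C.Finite) {N : ℕ} (hN : 0 < N)
    (hfix : ∀ c ∈ C, f^[N] c = c) {x : X}
    (hx : ∀ y, MapClusterPt y atTop (fun k : ℕ => f^[k] x) → y ∈ C) :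
    ∃ c ∈ C, Tendsto (fun k : ℕ => f^[N * k] x) atTop (𝓝 c) := by
  have hFc : Continuous (f^[N]) := hf.iterate N
  have hstep : ∀ k, f^[N * (k + 1)] x = f^[N] (f^[N * k] x) := by
    intro k
    rw [← Function.iterate_add_apply]
    congr 2
    ring
  have htd : Tendsto (fun k : ℕ => N * k) atTop atTop := by
    refine tendsto_atTop_mono (fun k => ?_) tendsto_id
    exact Nat.le_mul_of_pos_left k hN
  have hcl : ∀ y, MapClusterPt y atTop (fun k : ℕ => f^[N * k] x) → y ∈ C := by
    intro y hy
    exact hx y (MapClusterPt.of_comp (u := fun k : ℕ => f^[k] x) htd hy)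
  obtain ⟨c, hc⟩ : ∃ c, MapClusterPt c atTop (fun k : ℕ => f^[N * k] x) :=
    exists_clusterPt_of_compactSpace _
  have hcC : c ∈ C := hcl c hc
  refine ⟨c, hcC, ?_⟩
  have hD : IsCompact (C \ {c}) := (hC.subset Set.sdiff_subset).isCompact
  obtain ⟨U, U', hU, hU', hcU, hDU', hdisj⟩ :=
    SeparatedNhds.of_isCompact_isCompact (isCompact_singleton (x := c)) hD
      (by rw [Set.disjoint_singleton_left]; exact fun h => h.2 rfl)
  have hcU0 : c ∈ U := hcU rfl
  set W : Set X := U ∩ f^[N] ⁻¹' U with hW
  have hWo : IsOpen W := hU.inter (hU.preimage hFc)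
  have hcW : c ∈ W := ⟨hcU0, by rw [mem_preimage, hfix c hcC]; exact hcU0⟩
  have hev : ∀ᶠ k : ℕ in atTop, f^[N * k] x ∈ W ∪ U' := by
    by_contra hcon
    rw [Filter.not_eventually] at hcon
    have hK : IsCompact (W ∪ U')ᶜ := (hWo.union hU').isClosed_compl.isCompact
    obtain ⟨a, ha, hac⟩ := hK.exists_mapClusterPt_of_frequently
      (f := fun k : ℕ => f^[N * k] x) (l := atTop) hcon
    have haC := hcl a hac
    apply ha
    by_cases h : a = c
    · rw [h]
      exact Or.inl hcW
    · exact Or.inr (hDU' ⟨haC, h⟩)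
  obtain ⟨K, hK⟩ := eventually_atTop.1 hev
  obtain ⟨k0, hk0, hk0W⟩ := (frequently_atTop.1 (hc.frequently (hWo.mem_nhds hcW))) K
  have hall : ∀ k, k0 ≤ k → f^[N * k] x ∈ W := by
    intro k hk
    induction k, hk using Nat.le_induction with
    | base => exact hk0W
    | succ k hk ih =>
      have h1 : f^[N * (k + 1)] x ∈ U := by
        rw [hstep]
        exact ih.2
      rcases hK (k + 1) (by omega) with h2 | h2
      · exact h2
      · exact absurd h2 (Set.disjoint_left.1 hdisj h1)
  refine tendsto_nhds_of_unique_mapClusterPt ?_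
  intro y hy
  by_contra hne
  have h1 : y ∈ U' := hDU' ⟨hcl y hy, hne⟩
  obtain ⟨k, hk, hkU⟩ := (frequently_atTop.1 (hy.frequently (hU'.mem_nhds h1))) k0
  exact Set.disjoint_left.1 hdisj (hall k hk).1 hkU

end Pool.Agent.H80.AJ
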