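import Pool.Agent.H80.AJ.ClusterPer
import Pool.Agent.H80.AJ.ConvOne

set_option autoImplicit false

open Filter Topology Set

namespace Pool.Agent.H80.AJ

/-
Proof. `N` = product of the periods `n s`, `s ∈ S` (finite; positive; every `n s` divides it),
`C = {f^[i] (p s) | s ∈ S, i : ℕ} = {f^[i] (p s) | i < n s}` finite, `f^[N]` fixes all its points.
`cluster_per` and `conv_one`.
-/
theorem conv_cl {X : Type*} [TopologicalSpace X] [CompactSpace X] [T2Space X] {f : X → X}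
    (hf : Continuous f) {S : Set X} (hS : S.Finite) {p : X → X} {n : X → ℕ}
    (hn : ∀ s ∈ S, CL f s (p s) (n s)) {x : X} (hx : ¬ Bad f (AA f S p) x) :
    ∃ s ∈ S, ∃ i N : ℕ, CL f x (f^[i] (p s)) N := by
  have hx' : ∀ y, MapClusterPt y atTop (fun k : ℕ => f^[k] x) → y ∈ AA f S p := by
    intro y hy
    by_contra h
    exact hx ⟨y, h, hy⟩
  obtain ⟨N, hN⟩ : ∃ N : ℕ, N = ∏ s ∈ hS.toFinset, n s := ⟨_, rfl⟩
  have hN0 : 0 < N := by
    rw [hN]
    exact Finset.prod_pos (fun s hs => (hn s (hS.mem_toFinset.1 hs)).1)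
  have hdvd : ∀ s ∈ S, n s ∣ N := by
    intro s hs
    rw [hN]
    exact Finset.dvd_prod_of_mem n (hS.mem_toFinset.2 hs)
  have hper : ∀ s ∈ S, Function.IsPeriodicPt f (n s) (p s) := fun s hs => (hn s hs).2.1
  have hC : {y : X | ∃ s ∈ S, ∃ i : ℕ, y = f^[i] (p s)}.Finite := by
    refine (hS.biUnion (t := fun s => (fun i => f^[i] (p s)) '' Set.Iio (n s))
      (fun s _ => (Set.finite_Iio (n s)).image _)).subset ?_
    rintro y ⟨s, hs, i, rfl⟩
    refine Set.mem_biUnion hs ⟨i % n s, Nat.mod_lt _ (hn s hs).1, ?_⟩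
    exact (hper s hs).iterate_mod_apply i
  have hfix : ∀ c ∈ {y : X | ∃ s ∈ S, ∃ i : ℕ, y = f^[i] (p s)}, f^[N] c = c := by
    rintro y ⟨s, hs, i, rfl⟩
    have h1 : f^[N] (p s) = p s := (hper s hs).trans_dvd (hdvd s hs)
    rw [← Function.iterate_add_apply, add_comm, Function.iterate_add_apply, h1]
  obtain ⟨c, hc, hlim⟩ := conv_one hf hC hN0 hfix
    (fun y hy => cluster_per hf hS hn hx' hy)
  have h2 := hfix c hc
  obtain ⟨s, hs, i, rfl⟩ := hc
  exact ⟨s, hs, i, N, hN0, h2, hlim⟩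

end Pool.Agent.H80.AJ
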