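import Pool.Agent.H80.AJ.Defs

set_option autoImplicit false

open Filter Topology Metric Set

namespace Pool.Agent.H80.AJ

/-
Proof. Schwarz: `k z = dslope g 0 z` is bounded by `M + 1` and `k 0 = 1`, so `‖k z - 1‖ ≤ (M + 3) ‖z‖`
and `‖g z - z‖ ≤ (M + 3) ‖z‖^2 ≤ ‖z‖/2` for `‖z‖ ≤ ρ := 1/(2 (M + 3))`, so `ρ/2 ≤ ‖g z - g 0‖` on
`sphere 0 ρ`, and `DiffContOnCl.ball_subset_image_closedBall` gives
`ball 0 (ρ/4) ⊆ g '' closedBall 0 ρ`.
(`∃ᶠ z in 𝓝 0, g z ≠ g 0` by injectivity.)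
-/
theorem cov_base {M : ℝ} (hM : 1 ≤ M) : ∃ t : ℝ, 0 < t ∧ t ≤ 1 ∧ Cov M t := by
  set ρ : ℝ := 1 / (2 * (M + 3)) with hρ
  have hρ0 : 0 < ρ := by positivity
  have hρ1 : ρ ≤ 1 / 8 := by
    rw [hρ]
    exact one_div_le_one_div_of_le (by norm_num) (by linarith)
  have hρM : (M + 3) * ρ = 1 / 2 := by
    rw [hρ]; field_simp
  refine ⟨ρ / 2 / 2, by positivity, by linarith, ?_⟩
  intro g hg hinj h0 h1 hbd
  have hb0 : (0 : ℂ) ∈ ball (0 : ℂ) 1 := mem_ball_self one_pos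
  have hk : ∀ z ∈ ball (0 : ℂ) 1, ‖dslope g 0 z‖ ≤ M + 1 := by
    intro z hz
    have h2 : MapsTo g (ball (0 : ℂ) 1) (closedBall (g 0) (M + 1)) := by
      intro y hy
      rw [h0, mem_closedBall, dist_zero_right]
      linarith [hbd y hy]
    have h3 := Complex.norm_dslope_le_div_of_mapsTo_ball hg h2 hz
    rwa [div_one] at h3
  have hkd : DifferentiableOn ℂ (dslope g 0) (ball (0 : ℂ) 1) :=
    (Complex.differentiableOn_dslope (isOpen_ball.mem_nhds hb0)).2 hg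
  have hk0 : dslope g 0 0 = 1 := by rw [dslope_same, h1]
  have hk1 : ∀ z ∈ ball (0 : ℂ) 1, ‖dslope g 0 z - 1‖ ≤ (M + 3) * ‖z‖ := by
    intro z hz
    have h2 : MapsTo (dslope g 0) (ball (0 : ℂ) 1) (closedBall (dslope g 0 0) (M + 3)) := by
      intro y hy
      rw [hk0, mem_closedBall, dist_eq_norm]
      have h3 := norm_sub_le (dslope g 0 y) 1
      have h4 := hk y hy
      rw [norm_one] at h3
      linarith
    have h3 := Complex.dist_le_div_mul_dist_of_mapsTo_ball hkd h2 hz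
    rwa [hk0, div_one, dist_eq_norm, dist_zero_right] at h3
  have hgz : ∀ z : ℂ, g z = z * dslope g 0 z := by
    intro z
    have h2 := sub_smul_dslope g 0 z
    rw [sub_zero, smul_eq_mul, h0, sub_zero] at h2
    exact h2.symm
  have hsph : ∀ z ∈ sphere (0 : ℂ) ρ, ρ / 2 ≤ ‖g z - g 0‖ := by
    intro z hz
    have hz' : ‖z‖ = ρ := by rwa [mem_sphere, dist_zero_right] at hz
    have hzb : z ∈ ball (0 : ℂ) 1 := by
      rw [mem_ball, dist_zero_right, hz']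
      linarith
    have h2 := hk1 z hzb
    rw [hz', hρM] at h2
    have h3 : g z - g 0 = z + z * (dslope g 0 z - 1) := by
      rw [h0, hgz z]; ring
    rw [h3]
    have h4 : ‖z * (dslope g 0 z - 1)‖ ≤ ρ * (1 / 2) := by
      rw [norm_mul, hz']
      exact mul_le_mul_of_nonneg_left h2 hρ0.le
    have h5 : ‖z‖ - ‖z * (dslope g 0 z - 1)‖ ≤ ‖z + z * (dslope g 0 z - 1)‖ := by
      have := norm_sub_norm_le z (-(z * (dslope g 0 z - 1)))
      rw [norm_neg, sub_neg_eq_add] at this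
      exact this
    rw [hz'] at h5
    linarith
  have hsub : closedBall (0 : ℂ) ρ ⊆ ball 0 1 := closedBall_subset_ball (by linarith)
  have hdc : DiffContOnCl ℂ g (ball 0 ρ) := by
    apply DifferentiableOn.diffContOnCl
    rw [closure_ball (0 : ℂ) hρ0.ne']
    exact hg.mono hsub
  have hfr : ∃ᶠ z in 𝓝 (0 : ℂ), g z ≠ g 0 := by
    have h2 : ∀ᶠ z in 𝓝[≠] (0 : ℂ), g z ≠ g 0 := by
      have h3 : ∀ᶠ z in 𝓝[≠] (0 : ℂ), z ∈ ball (0 : ℂ) 1 :=
        mem_nhdsWithin_of_mem_nhds (isOpen_ball.mem_nhds hb0)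
      filter_upwards [h3, self_mem_nhdsWithin] with z hz hz0 h
      exact hz0 (hinj hz hb0 h)
    exact h2.frequently.filter_mono nhdsWithin_le_nhds
  have h2 := hdc.ball_subset_image_closedBall hρ0 hsph hfr
  rw [h0] at h2
  exact h2.trans (image_mono hsub)

end Pool.Agent.H80.AJ
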