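import Pool.Agent.H80.AJ.Cover
import Pool.Agent.H80.AJ.InvDiff

set_option autoImplicit false

open Filter Topology Metric Set

namespace Pool.Agent.H80.AJ

/-
Proof. Let `E = g '' ball c R`, `d z = infDist (g z) Eᶜ`. `Eᶜ` is nonempty (otherwise `dist_upper`
bounds every `D`). For `z ∈ ball c R`: `ball (g z) (d z) ⊆ E`, so `d z ≤ 2 R ‖deriv g z‖`
(trivial if `d z ≤ 0`); `univ_cover` on `ball z (R - ‖z - c‖) ⊆ ball c R` gives
`(R - ‖z-c‖) ‖deriv g z‖ / 16 ≤ d z`. Let `t = R/128` and let `m` be the maximum of `‖deriv g‖` on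
`closedBall c t` (compact, deriv g is continuous on the open ball), attained at `z`. Then
`(R - t) m / 16 ≤ d z ≤ d c + ‖g z - g c‖ ≤ 2 R ‖deriv g c‖ + t m` (mean value on the convex
closedBall), so `m (127/2048 - 16/2048) ≤ 2 ‖deriv g c‖`, `m ≤ 40 ‖deriv g c‖`.
-/
theorem local_upper {g : ℂ → ℂ} {c : ℂ} {R : ℝ} (hR : 0 < R)
    (hg : DifferentiableOn ℂ g (ball c R)) (hi : InjOn g (ball c R)) {z : ℂ}
    (hz : ‖z - c‖ ≤ R / 128) : ‖deriv g z‖ ≤ 40 * ‖deriv g c‖ := by
  set E : Set ℂ := g '' ball c R with hE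
  have hne : (Eᶜ).Nonempty := by
    rw [Set.nonempty_compl]
    intro h
    have h1 := dist_upper hR hg hi (mem_ball_self hR)
      (by positivity : 0 < 2 * R * ‖deriv g c‖ + 1) (by rw [← hE, h]; exact subset_univ _)
    linarith
  -- the distance to the complement of the image
  have hup : ∀ w ∈ ball c R, infDist (g w) Eᶜ ≤ 2 * R * ‖deriv g w‖ := by
    intro w hw
    rcases le_or_gt (infDist (g w) Eᶜ) 0 with h | h
    · exact h.trans (by positivity)
    · refine dist_upper hR hg hi hw h ?_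
      intro u hu
      by_contra hu2
      have h1 : infDist (g w) Eᶜ ≤ dist (g w) u := infDist_le_dist_of_mem hu2
      rw [mem_ball, dist_comm] at hu
      linarith
  have hlow : ∀ w ∈ ball c R, (R - ‖w - c‖) * ‖deriv g w‖ / 16 ≤ infDist (g w) Eᶜ := by
    intro w hw
    rw [mem_ball, dist_eq_norm] at hw
    have hρ : 0 < R - ‖w - c‖ := by linarith
    have hsub : ball w (R - ‖w - c‖) ⊆ ball c R := by
      refine ball_subset_ball' ?_
      rw [dist_eq_norm]
      linarith
    have h1 := univ_cover hρ (hg.mono hsub) (hi.mono hsub)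
    rw [le_infDist hne]
    intro u hu
    by_contra hlt
    push Not at hlt
    rw [dist_comm] at hlt
    exact hu (image_mono hsub (h1 (mem_ball.2 hlt)))
  -- the maximum of the derivative
  have hsub : closedBall c (R / 128) ⊆ ball c R := closedBall_subset_ball (by linarith)
  have hcont : ContinuousOn (fun w => ‖deriv g w‖) (closedBall c (R / 128)) :=
    ((hg.deriv isOpen_ball).continuousOn.mono hsub).norm
  obtain ⟨w, hw, hmax⟩ := (isCompact_closedBall c (R / 128)).exists_isMaxOn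
    ⟨c, mem_closedBall_self (by positivity)⟩ hcont
  have hmax' : ∀ u ∈ closedBall c (R / 128), ‖deriv g u‖ ≤ ‖deriv g w‖ := fun u hu => hmax hu
  have hwn : ‖w - c‖ ≤ R / 128 := by
    rwa [mem_closedBall, dist_eq_norm] at hw
  have hmv : ‖g w - g c‖ ≤ ‖deriv g w‖ * ‖w - c‖ :=
    (convex_closedBall c (R / 128)).norm_image_sub_le_of_norm_deriv_le
      (fun u hu => hg.differentiableAt (isOpen_ball.mem_nhds (hsub hu))) hmax'
      (mem_closedBall_self (by positivity)) hw
  have h1 := hlow w (hsub hw)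
  have h2 := hup c (mem_ball_self hR)
  have h3 : infDist (g w) Eᶜ ≤ infDist (g c) Eᶜ + dist (g w) (g c) := infDist_le_infDist_add_dist
  rw [dist_eq_norm] at h3
  have hm0 := norm_nonneg (deriv g w)
  have h4 : ‖deriv g w‖ * ‖w - c‖ ≤ ‖deriv g w‖ * (R / 128) :=
    mul_le_mul_of_nonneg_left hwn hm0
  have h5 : (R - R / 128) * ‖deriv g w‖ / 16 ≤ (R - ‖w - c‖) * ‖deriv g w‖ / 16 := by
    refine div_le_div_of_nonneg_right ?_ (by norm_num)
    exact mul_le_mul_of_nonneg_right (by linarith) hm0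
  have h6 : R * ‖deriv g w‖ * (111 / 2048) ≤ R * (2 * ‖deriv g c‖) := by
    have e1 : (R - R / 128) * ‖deriv g w‖ / 16 = R * ‖deriv g w‖ * (127 / 2048) := by ring
    have e2 : ‖deriv g w‖ * (R / 128) = R * ‖deriv g w‖ * (16 / 2048) := by ring
    nlinarith
  have h7 : ‖deriv g w‖ * (111 / 2048) ≤ 2 * ‖deriv g c‖ := by
    refine le_of_mul_le_mul_left ?_ hR
    calc R * (‖deriv g w‖ * (111 / 2048)) = R * ‖deriv g w‖ * (111 / 2048) := by ring
      _ ≤ R * (2 * ‖deriv g c‖) := h6
  have h8 : ‖deriv g z‖ ≤ ‖deriv g w‖ := by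
    refine hmax' z ?_
    rwa [mem_closedBall, dist_eq_norm]
  have h9 := norm_nonneg (deriv g c)
  linarith

end Pool.Agent.H80.AJ
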