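import Pool.Agent.H80.AJ.Defs

set_option autoImplicit false

open Filter Topology Set MeasureTheory

namespace Pool.Agent.H80.AJ

/-
Proof. `S ⊆ {b} ∪ (fun w => b + w⁻¹) '' (T \ {0})` (for `z ≠ b`, `w = (z - b)⁻¹`), the map is
differentiable on `{w | w ≠ 0}`, so the image of a null set is null
(`addHaar_image_eq_zero_of_differentiableOn_of_addHaar_eq_zero`, real derivative:
`DifferentiableOn.restrictScalars`).
-/
theorem null_mob (b : ℂ) {S T : Set ℂ} (hT : volume T = 0)
    (h : ∀ z ∈ S, z ≠ b → (z - b)⁻¹ ∈ T) : volume S = 0 := by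
  have hsub : S ⊆ {b} ∪ (fun w : ℂ => b + w⁻¹) '' (T \ {0}) := by
    intro z hz
    by_cases hzb : z = b
    · left
      exact hzb
    · right
      refine ⟨(z - b)⁻¹, ⟨h z hz hzb, ?_⟩, ?_⟩
      · rw [mem_singleton_iff]
        exact inv_ne_zero (sub_ne_zero.2 hzb)
      · show b + ((z - b)⁻¹)⁻¹ = z
        rw [inv_inv]
        ring
  have h0 : volume (T \ {0}) = 0 := measure_mono_null sdiff_subset hT
  have hd : DifferentiableOn ℝ (fun w : ℂ => b + w⁻¹) (T \ {0}) := by
    intro w hw
    have hw0 : w ≠ 0 := hw.2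
    have h1 : DifferentiableAt ℂ (fun w : ℂ => b + w⁻¹) w :=
      (differentiableAt_const b).add (differentiableAt_inv hw0)
    exact (h1.restrictScalars ℝ).differentiableWithinAt
  have h1 : volume ((fun w : ℂ => b + w⁻¹) '' (T \ {0})) = 0 :=
    addHaar_image_eq_zero_of_differentiableOn_of_addHaar_eq_zero volume hd h0
  refine measure_mono_null hsub (measure_union_null ?_ h1)
  exact measure_singleton b

end Pool.Agent.H80.AJ
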