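import Pool.Agent.H80.AJ.PorBad
import Pool.Agent.H80.AJ.ConvCL
import Pool.Agent.H80.AJ.SetAA
import Pool.Agent.H80.AJ.NullMob
import Pool.Agent.H32.BT.Mob
import Pool.Agent.H32.BT.Top

set_option autoImplicit false

open Filter Topology Polynomial OnePoint Metric Set MeasureTheory

namespace Pool.Agent.H80.AJ

open Pool.Agent.H44.Fatou Pool.Agent.H32.BT

theorem nhds_infty_norm {S : Set (OnePoint ℂ)} (hS : S ∈ 𝓝 (∞ : OnePoint ℂ)) :
    ∃ M : ℝ, ∀ z : ℂ, M < ‖z‖ → (z : OnePoint ℂ) ∈ S := by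
  rw [nhds_infty_eq, mem_sup, mem_map, mem_pure] at hS
  obtain ⟨hs1, hs2⟩ := hS
  rw [coclosedCompact_eq_cocompact, ← Metric.cobounded_eq_cocompact, ← comap_norm_atTop,
    mem_comap] at hs1
  obtain ⟨t, ht, hts⟩ := hs1
  rw [mem_atTop_sets] at ht
  obtain ⟨M, hM⟩ := ht
  exact ⟨M, fun z hz => hts (hM _ hz.le)⟩

/-- almost every point converges to a cycle: version with a finite base point -/
theorem null_bad {P Q : Polynomial ℂ} (h : IsCoprime P Q) (hd : 2 ≤ max P.natDegree Q.natDegree)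
    {S : Set (OnePoint ℂ)} (hScrit : ∀ c, IsCrit (rat P Q) c → c ∈ S) (hSf : S.Finite)
    {p : OnePoint ℂ → OnePoint ℂ} {n : OnePoint ℂ → ℕ}
    (hn : ∀ s ∈ S, CL (rat P Q) s (p s) (n s)) {b b' : ℂ} (hbb : b' ≠ b)
    (hbS : (b : OnePoint ℂ) ∈ S) (hbS' : (b' : OnePoint ℂ) ∈ S)
    (hb : ∀ᶠ x in 𝓝 (b : OnePoint ℂ), CL (rat P Q) x (p b) (n b)) :
    volume {z : ℂ | Bad (rat P Q) (AA (rat P Q) S p) (z : OnePoint ℂ)} = 0 := by
  set f := rat P Q with hf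
  have hfc : Continuous f := rat_continuous h
  set A := AA f S p with hA
  obtain ⟨φ, hφ1, hφ2, hφ3, hφ4⟩ := exists_mob b
  obtain ⟨hcop, hdeg, hconj⟩ := hφ4 _ P Q h rfl (by omega)
  set d := max P.natDegree Q.natDegree with hdd
  set g := rat (cj1 b d P Q) (cj2 b d P Q) with hg
  have hmem : ∀ s ∈ S, ∀ k : ℕ, f^[k] s ∈ A := fun s hs k => ⟨s, hs, k, Or.inl rfl⟩
  have hmem' : ∀ s ∈ S, ∀ k : ℕ, f^[k] (p s) ∈ A := fun s hs k => ⟨s, hs, k, Or.inr rfl⟩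
  have hsys : Sys (cj1 b d P Q) (cj2 b d P Q) (φ '' A) := by
    refine ⟨hcop, by rw [hdeg]; omega, ?_, ?_, ?_, ?_, ?_, ?_⟩
    · exact φ.isClosedMap _ (closed_AA hfc hSf hn)
    · exact (count_AA f hSf p).image _
    · rintro _ ⟨a, ha, rfl⟩
      exact ⟨f a, inv_AA f S p ha, (hconj a).symm⟩
    · intro c hc
      obtain ⟨c', rfl⟩ := φ.surjective c
      have hc' : IsCrit f c' := (isCrit_conj φ hconj c').1 hc
      exact ⟨f c', hmem c' (hScrit c' hc') 1, (hconj c').symm⟩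
    · exact ⟨b, hmem b hbS 0, hφ2⟩
    · exact ⟨(b' - b)⁻¹, b', hmem b' hbS' 0, hφ1 b' hbb⟩
  have hgood : ∀ᶠ x in 𝓝 (b : OnePoint ℂ), ¬ Bad f A x := by
    filter_upwards [hb] with x hx
    exact cl_not_bad hfc hx (hmem' _ hbS)
  have hgood' : ∀ᶠ y in 𝓝 (∞ : OnePoint ℂ), ¬ Bad g (φ '' A) y := by
    have h1 : Tendsto φ.symm (𝓝 (∞ : OnePoint ℂ)) (𝓝 (b : OnePoint ℂ)) := by
      have h2 := φ.symm.continuous.tendsto (∞ : OnePoint ℂ)
      rwa [← hφ2, φ.symm_apply_apply, hφ2] at h2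
    filter_upwards [h1.eventually hgood] with y hy
    have h3 := (bad_conj φ hconj A (φ.symm y)).not.2 hy
    rwa [φ.apply_symm_apply] at h3
  obtain ⟨R0, hR0⟩ := nhds_infty_norm hgood'
  have harea := area_chart hsys (R0 := R0) (fun z hz => hR0 z hz)
  refine null_mob b harea ?_
  intro z hz hzb
  have h4 := (bad_conj φ hconj A (z : OnePoint ℂ)).2 hz
  rw [hφ1 z hzb] at h4
  exact h4

/-
Proof (assembly, helper80). W.l.o.g. `b` is finite (`hb` is an open condition). Choose a finite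
`b' ≠ b` close to `b`. `S = {c | IsCrit f c} ∪ {b, b'}` (finite: `crit_finite`), limit points `p s`,
`A = AA f S p`. `exists_mob b`: `φ`, `g = rat (cj1 ..) (cj2 ..)`, `Sys` for `φ '' A`; a
neighbourhood of `∞ = φ b` is good (`cl_not_bad`, `bad_conj`). `area_chart`, `null_mob`, `conv_cl`.
-/
theorem ae_conv {P Q : Polynomial ℂ} (h : IsCoprime P Q) (hd : 2 ≤ max P.natDegree Q.natDegree)
    (hcrit : ∀ c, IsCrit (rat P Q) c → ∃ (p : OnePoint ℂ) (n : ℕ), CL (rat P Q) c p n)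
    {b pb : OnePoint ℂ} {nb : ℕ} (hb : ∀ᶠ x in 𝓝 b, CL (rat P Q) x pb nb) :
    ∀ᵐ z : ℂ, ∃ (s p : OnePoint ℂ) (n i N : ℕ), (IsCrit (rat P Q) s ∨ s = b) ∧
      CL (rat P Q) s p n ∧ CL (rat P Q) (z : OnePoint ℂ) ((rat P Q)^[i] p) N := by
  classical
  set f := rat P Q with hf
  have hfc : Continuous f := rat_continuous h
  -- a finite base point
  obtain ⟨U, hU, hUo, hbU⟩ := _root_.mem_nhds_iff.1 hb
  obtain ⟨b0, hb0⟩ : ∃ b0 : ℂ, (b0 : OnePoint ℂ) ∈ U :=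
    (denseRange_coe (X := ℂ)).exists_mem_open hUo ⟨b, hbU⟩
  have hpre : ((↑) : ℂ → OnePoint ℂ) ⁻¹' U ∈ 𝓝 b0 :=
    continuous_coe.continuousAt (hUo.mem_nhds hb0)
  obtain ⟨ε, hε, hball⟩ := Metric.mem_nhds_iff.1 hpre
  set b' : ℂ := b0 + ((ε / 2 : ℝ) : ℂ) with hb'
  have hne : b' ≠ b0 := by
    intro h0
    have h1 : ((ε / 2 : ℝ) : ℂ) = 0 := by
      have := congrArg (fun t => t - b0) h0
      simpa [hb'] using this
    have h2 : ε / 2 = 0 := by exact_mod_cast h1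
    linarith
  have hb'U : (b' : OnePoint ℂ) ∈ U := by
    apply hball
    rw [mem_ball, dist_eq_norm, hb', add_sub_cancel_left, Complex.norm_real, Real.norm_eq_abs,
      abs_of_pos (by positivity)]
    linarith
  have hCL0 : ∀ x ∈ U, CL f x pb nb := fun x hx => hU hx
  set S : Set (OnePoint ℂ) := {c | IsCrit f c} ∪ {(b0 : OnePoint ℂ), (b' : OnePoint ℂ)} with hS
  have hSf : S.Finite := (crit_finite h (by omega)).union ((Set.finite_singleton _).insert _)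
  have hex : ∀ s : OnePoint ℂ, ∃ (p : OnePoint ℂ) (n : ℕ), s ∈ S →
      (CL f s p n ∧ (IsCrit f s ∨ p = pb) ∧ (s = (b0 : OnePoint ℂ) → p = pb ∧ n = nb)) := by
    intro s
    by_cases hs : s ∈ S
    · by_cases hs0 : s = (b0 : OnePoint ℂ)
      · exact ⟨pb, nb, fun _ => ⟨by rw [hs0]; exact hCL0 _ hb0, Or.inr rfl, fun _ => ⟨rfl, rfl⟩⟩⟩
      · by_cases hs1 : s = (b' : OnePoint ℂ)
        · exact ⟨pb, nb, fun _ => ⟨by rw [hs1]; exact hCL0 _ hb'U, Or.inr rfl, fun _ => ⟨rfl, rfl⟩⟩⟩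
        · have hsc : IsCrit f s := by
            rcases hs with hs | hs
            · exact hs
            · rcases hs with hs | hs
              · exact absurd hs hs0
              · exact absurd hs hs1
          obtain ⟨p, n, hpn⟩ := hcrit s hsc
          exact ⟨p, n, fun _ => ⟨hpn, Or.inl hsc, fun h0 => absurd h0 hs0⟩⟩
    · exact ⟨s, 0, fun h0 => absurd h0 hs⟩
  choose p n hpn using hex
  have hb0S : (b0 : OnePoint ℂ) ∈ S := Or.inr (Or.inl rfl)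
  have hb'S : (b' : OnePoint ℂ) ∈ S := Or.inr (Or.inr rfl)
  have hnull := null_bad h hd (S := S) (p := p) (n := n) (fun c hc => Or.inl hc) hSf
    (fun s hs => (hpn s hs).1) hne hb0S hb'S (by
      obtain ⟨h1, h2⟩ := (hpn _ hb0S).2.2 rfl
      rw [h1, h2]
      exact Filter.mem_of_superset (hUo.mem_nhds hb0) hU)
  rw [ae_iff]
  refine measure_mono_null ?_ hnull
  intro z hz
  by_contra hbad
  apply hz
  obtain ⟨s, hs, i, N, hCL⟩ := conv_cl hfc hSf (fun s hs => (hpn s hs).1) hbad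
  obtain ⟨h1, h2, -⟩ := hpn s hs
  rcases h2 with h2 | h2
  · exact ⟨s, p s, n s, i, N, Or.inl h2, h1, hCL⟩
  · exact ⟨b, pb, nb, i, N, Or.inr rfl, hCL0 b hbU, by rw [h2] at hCL; exact hCL⟩

end Pool.Agent.H80.AJ
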