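import Pool.Agent.H80.AJ.DenseNB
import Pool.Agent.H80.AJ.Porous

set_option autoImplicit false

open Filter Topology Polynomial OnePoint Metric Set MeasureTheory

namespace Pool.Agent.H80.AJ

open Pool.Agent.H44.Fatou Pool.Agent.H32.BT

/-
Proof. Let `y ∉ A` be a cluster point of the orbit of `z` (finite), `r` from `exists_off`, and
`ball u t ⊆ ball y (r/2)` a disc of good points (`dense_nb`). Given `ρ0` apply `scales` with
`δ = ρ0 / (2 KK r + t)`: `w ∈ ball y r`, branch `G` on `ball w (3 r)`, `λ = ‖deriv G w‖ < δ`,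
`0 < λ` (`deriv_ne`). `u ∈ closedBall w (3 r / 2)`. `ρ = λ (2 KK r + t)`, `v = G u`,
`c = t / (16 KK (2 KK r + t))`: `c ρ = t λ / (16 KK) ≤ t ‖deriv G u‖ / 16` (`distort`), so
`ball v (c ρ) ⊆ G '' ball u t` (`univ_cover`, `ball u t ⊆ ball w (3 r)`), whose points are good
(`bad_iter`, `f^[k] (G u') = u'`). `‖v - z‖ = ‖G u - G w‖ ≤ KK λ (3 r / 2)` (`distort_lip`), so
`ball v (c ρ) ⊆ ball z ρ`.
-/
theorem porous_bad {P Q : Polynomial ℂ} {A : Set (OnePoint ℂ)} (h : Sys P Q A) {R0 : ℝ}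
    (hinf : ∀ z : ℂ, R0 < ‖z‖ → ¬ Bad (rat P Q) A (z : OnePoint ℂ)) {z : ℂ}
    (hz : Bad (rat P Q) A (z : OnePoint ℂ)) : ∃ c : ℝ, 0 < c ∧ ∀ ρ0 : ℝ, 0 < ρ0 → ∃ ρ : ℝ,
      0 < ρ ∧ ρ < ρ0 ∧ ∃ v : ℂ, ball v (c * ρ) ⊆ ball z ρ ∧
      ∀ w ∈ ball v (c * ρ), ¬ Bad (rat P Q) A (w : OnePoint ℂ) := by
  obtain ⟨y', hyA', hcl'⟩ := hz
  obtain ⟨y, rfl⟩ : ∃ y : ℂ, (y : OnePoint ℂ) = y' := by
    have h1 : y' ≠ ∞ := fun h2 => hyA' (h2 ▸ h.inf)
    exact OnePoint.ne_infty_iff_exists.1 h1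
  obtain ⟨r, hr, hoff⟩ := exists_off h.closed hyA'
  obtain ⟨u, t, ht, hsub, hO⟩ := dense_nb h hinf y (r0 := r / 2) (by positivity)
  have hK := KK_pos
  have hK1 := one_le_KK
  refine ⟨t / (16 * KK * (2 * KK * r + t)), by positivity, fun ρ0 hρ0 => ?_⟩
  obtain ⟨k, w, G, -, hw, hkw, hG, hlam⟩ := scales h hcl' hyA' ht hO hr hoff
    (δ := ρ0 / (2 * KK * r + t)) (by positivity) 0
  have hi := hG.inj
  have hd := hG.diff
  have h3r : (0 : ℝ) < 3 * r := by positivity
  have hwy : dist w y < r := mem_ball.1 hw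
  have huy : dist u y < r / 2 := mem_ball.1 (hsub (mem_ball_self ht))
  have huw : dist u w ≤ 3 * r / 2 := by
    have := dist_triangle u y w
    rw [dist_comm y w] at this
    linarith
  have hwm : w ∈ closedBall w (3 * r / 2) := mem_closedBall_self (by positivity)
  have hum : u ∈ closedBall w (3 * r / 2) := mem_closedBall.2 huw
  have hl0 : 0 < ‖deriv G w‖ := deriv_ne h3r hd hi hwm
  set lam := ‖deriv G w‖ with hlamdef
  have hsub2 : ball u t ⊆ ball w (3 * r) := by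
    intro a ha
    have h1 := mem_ball.1 (hsub ha)
    rw [mem_ball]
    have := dist_triangle a y w
    rw [dist_comm y w] at this
    linarith
  have hρ : t / (16 * KK * (2 * KK * r + t)) * (lam * (2 * KK * r + t)) = t * lam / (16 * KK) := by
    field_simp
  refine ⟨lam * (2 * KK * r + t), by positivity, ?_, G u, ?_, ?_⟩
  · rw [lt_div_iff₀ (by positivity)] at hlam
    exact hlam
  · rw [hρ]
    intro a ha
    rw [mem_ball] at ha ⊢
    have h1 : ‖G u - G w‖ ≤ KK * lam * ‖u - w‖ := distort_lip h3r hd hi hum hwm hwm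
    rw [← dist_eq_norm, ← dist_eq_norm, hG.val] at h1
    have h2 : KK * lam * dist u w ≤ KK * lam * (3 * r / 2) :=
      mul_le_mul_of_nonneg_left huw (by positivity)
    have h3 : t * lam / (16 * KK) ≤ t * lam := by
      rw [div_le_iff₀ (by positivity)]
      have : 0 < t * lam := by positivity
      nlinarith
    have h4 := dist_triangle a (G u) z
    have h5 : 0 < KK * lam * r := by positivity
    nlinarith
  · rw [hρ]
    intro a ha hbad
    have h1 : t * lam / (16 * KK) ≤ t * ‖deriv G u‖ / 16 := by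
      have h2 : lam ≤ KK * ‖deriv G u‖ := distort h3r hd hi hwm hum
      rw [div_le_div_iff₀ (by positivity) (by norm_num)]
      nlinarith
    have h2 := univ_cover ht (hd.mono hsub2) (hi.mono hsub2) (ball_subset_ball h1 ha)
    obtain ⟨u', hu', rfl⟩ := h2
    have h3 := hG.inv u' (hsub2 hu')
    have h4 := (bad_iter (rat P Q) A (G u' : OnePoint ℂ) k).2 hbad
    rw [h3] at h4
    exact hO u' hu' h4

theorem area_chart {P Q : Polynomial ℂ} {A : Set (OnePoint ℂ)} (h : Sys P Q A) {R0 : ℝ}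
    (hinf : ∀ z : ℂ, R0 < ‖z‖ → ¬ Bad (rat P Q) A (z : OnePoint ℂ)) :
    volume {z : ℂ | Bad (rat P Q) A (z : OnePoint ℂ)} = 0 := by
  apply porous_null
  intro z hz
  exact porous_bad h hinf hz

end Pool.Agent.H80.AJ
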