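import Pool.Agent.H80.AJ.Bound
import Pool.Agent.H80.AJ.Distort
import Pool.Agent.H80.AJ.Pairs

set_option autoImplicit false

open Filter Topology Polynomial OnePoint Metric Set

namespace Pool.Agent.H80.AJ

open Pool.Agent.H44.Fatou Pool.Agent.H32.BT

/-
If the branches do not shrink then iterates of arbitrarily high order are close to the identity.
Proof. `ball (w k) (3 r)` contains `ball y (2 r)` and lies in `ball y (4 r)` (off A). Let `a ∈ A` be
finite (`h.fin`), `Λ = 16 ‖a - z‖ / (3 r)`: `‖deriv (G k) (w k)‖ ≤ Λ` (`Sys.br_bound`). On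
`closedBall y r` (half of `ball y (2 r)`, and `w k ∈ closedBall y r`) `distort` gives
`δ / KK ≤ ‖deriv (G k) v‖`, and `distort_lip` the Lipschitz constant `L = KK Λ`;
`‖G k y‖ ≤ ‖z‖ + L r`. Let `η' = min η (r/4)` and `ε = η' δ / (32 KK)`; `pairs` gives `k, l ∈ S`,
`k + N ≤ l`, `‖G k v - G l v‖ ≤ ε` on `closedBall y r`. For `v ∈ ball y (r/2)` `univ_cover` on
`ball v η' ⊆ ball y r` gives `ball (G l v) (η' ‖deriv (G l) v‖ / 16) ⊆ G l '' ball v η'`, and
`G k v` is in this ball, so `G k v = G l v'` with `‖v' - v‖ < η'`. With `m = l - k`: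
`f^[m] v = f^[m] (f^[k] (G k v)) = f^[l] (G l v') = v'`.
-/
theorem ret {P Q : Polynomial ℂ} {A : Set (OnePoint ℂ)} (h : Sys P Q A) {z y : ℂ} {r δ : ℝ}
    (hr : 0 < r) (hδ : 0 < δ) (hy : Off A y (4 * r)) {S : Set ℕ} (hS : S.Infinite) {w : ℕ → ℂ}
    {G : ℕ → ℂ → ℂ} (hw : ∀ k ∈ S, w k ∈ ball y r)
    (hG : ∀ k ∈ S, Br (rat P Q) k (w k) (3 * r) z (G k))
    (hδG : ∀ k ∈ S, δ ≤ ‖deriv (G k) (w k)‖) {η : ℝ} (hη : 0 < η) (N : ℕ) :
    ∃ m : ℕ, N ≤ m ∧ ∀ v ∈ ball y (r / 2), ∃ v' : ℂ,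
      (rat P Q)^[m] (v : OnePoint ℂ) = (v' : OnePoint ℂ) ∧ ‖v' - v‖ < η := by
  obtain ⟨a, ha⟩ := h.fin
  set f := rat P Q with hf
  have hsub1 : ∀ k ∈ S, ball (w k) (3 * r) ⊆ ball y (4 * r) := by
    intro k hk u hu
    have h1 := hw k hk
    rw [mem_ball, dist_eq_norm] at hu h1 ⊢
    calc ‖u - y‖ = ‖(u - w k) + (w k - y)‖ := by ring_nf
      _ ≤ ‖u - w k‖ + ‖w k - y‖ := norm_add_le _ _
      _ < 4 * r := by linarith
  have hsub2 : ∀ k ∈ S, ball y (2 * r) ⊆ ball (w k) (3 * r) := by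
    intro k hk u hu
    have h1 := hw k hk
    rw [mem_ball, dist_eq_norm] at hu h1 ⊢
    calc ‖u - w k‖ = ‖(u - y) - (w k - y)‖ := by ring_nf
      _ ≤ ‖u - y‖ + ‖w k - y‖ := norm_sub_le _ _
      _ < 3 * r := by linarith
  have hwc : ∀ k ∈ S, w k ∈ closedBall y (2 * r / 2) := by
    intro k hk
    have h1 := hw k hk
    rw [mem_ball, dist_eq_norm] at h1
    rw [mem_closedBall, dist_eq_norm]
    linarith
  have hcb : closedBall y (2 * r / 2) = closedBall y r := by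
    congr 1; ring
  set Λ : ℝ := 16 * ‖a - z‖ / (3 * r) with hΛ
  have hΛ0 : 0 ≤ Λ := by positivity
  have hKK := KK_pos
  have hder : ∀ k ∈ S, ‖deriv (G k) (w k)‖ ≤ Λ := by
    intro k hk
    have h1 := h.br_bound (by positivity : 0 < 3 * r) (hy.mono (hsub1 k hk)) (hG k hk) ha
    rw [hΛ, le_div_iff₀ (by positivity)]
    linarith
  have hdiff : ∀ k ∈ S, DifferentiableOn ℂ (G k) (ball y (2 * r)) := fun k hk =>
    (hG k hk).diff.mono (hsub2 k hk)
  have hinj : ∀ k ∈ S, InjOn (G k) (ball y (2 * r)) := fun k hk =>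
    (hG k hk).inj.mono (hsub2 k hk)
  have h2r : 0 < 2 * r := by positivity
  have hlow : ∀ k ∈ S, ∀ v ∈ closedBall y r, δ / KK ≤ ‖deriv (G k) v‖ := by
    intro k hk v hv
    have h1 := distort h2r (hdiff k hk) (hinj k hk) (hwc k hk) (by rw [hcb]; exact hv : v ∈ _)
    rw [div_le_iff₀ hKK]
    have := hδG k hk
    linarith
  set L : ℝ := KK * Λ with hL
  have hL0 : 0 ≤ L := by positivity
  have hlip : ∀ k ∈ S, ∀ v ∈ closedBall y r, ∀ v' ∈ closedBall y r,
      ‖G k v - G k v'‖ ≤ L * ‖v - v'‖ := by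
    intro k hk v hv v' hv'
    have h1 := distort_lip h2r (hdiff k hk) (hinj k hk) (by rw [hcb]; exact hv : v ∈ _)
      (by rw [hcb]; exact hv' : v' ∈ _) (hwc k hk)
    refine h1.trans ?_
    apply mul_le_mul_of_nonneg_right _ (norm_nonneg _)
    exact mul_le_mul_of_nonneg_left (hder k hk) hKK.le
  have hyc : y ∈ closedBall y r := mem_closedBall_self hr.le
  have hB : ∀ k ∈ S, ‖G k y‖ ≤ ‖z‖ + L * r := by
    intro k hk
    have h1 := hlip k hk y hyc (w k) (by rw [← hcb]; exact hwc k hk)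
    have h2 : ‖y - w k‖ ≤ r := by
      have := hw k hk
      rw [mem_ball, dist_eq_norm, norm_sub_rev] at this
      exact this.le
    have h3 : G k y = (G k y - G k (w k)) + z := by rw [(hG k hk).val]; ring
    calc ‖G k y‖ = ‖(G k y - G k (w k)) + z‖ := by rw [← h3]
      _ ≤ ‖G k y - G k (w k)‖ + ‖z‖ := norm_add_le _ _
      _ ≤ L * r + ‖z‖ := by
          have := mul_le_mul_of_nonneg_left h2 hL0
          linarith
      _ = ‖z‖ + L * r := by ring
  set η' : ℝ := min η (r / 4) with hη'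
  have hη'0 : 0 < η' := lt_min hη (by positivity)
  have hη'r : η' ≤ r / 4 := min_le_right _ _
  set ε : ℝ := η' * δ / (32 * KK) with hε
  have hε0 : 0 < ε := by positivity
  obtain ⟨k, hk, l, hl, hkl, hp⟩ := pairs hS hr hL0 hlip hB hε0 N
  refine ⟨l - k, by omega, fun v hv => ?_⟩
  have hvr : v ∈ closedBall y r := by
    rw [mem_ball] at hv
    rw [mem_closedBall]
    linarith
  have hsubv : ball v η' ⊆ ball y (2 * r) := by
    intro u hu
    rw [mem_ball, dist_eq_norm] at hu hv ⊢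
    calc ‖u - y‖ = ‖(u - v) + (v - y)‖ := by ring_nf
      _ ≤ ‖u - v‖ + ‖v - y‖ := norm_add_le _ _
      _ < 2 * r := by linarith
  have hcov := univ_cover hη'0 ((hdiff l hl).mono hsubv) ((hinj l hl).mono hsubv)
  have hmem : G k v ∈ ball (G l v) (η' * ‖deriv (G l) v‖ / 16) := by
    rw [mem_ball, dist_eq_norm]
    refine (hp v hvr).trans_lt ?_
    have h1 := hlow l hl v hvr
    have h2 : ε < η' * (δ / KK) / 16 := by
      have h3 : η' * (δ / KK) / 16 = 2 * ε := by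
        rw [hε]; field_simp; ring
      rw [h3]; linarith
    refine h2.trans_le ?_
    have := mul_le_mul_of_nonneg_left h1 hη'0.le
    linarith
  obtain ⟨v', hv', hGv'⟩ := hcov hmem
  refine ⟨v', ?_, ?_⟩
  · have hv2 : v ∈ ball (w k) (3 * r) := hsub2 k hk (ball_subset_ball (by linarith) hv)
    have hv'2 : v' ∈ ball (w l) (3 * r) := hsub2 l hl (hsubv hv')
    have e1 := (hG k hk).inv v hv2
    have e2 := (hG l hl).inv v' hv'2
    rw [hGv'] at e2
    rw [← e1, ← Function.iterate_add_apply]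
    have : l - k + k = l := by omega
    rw [this]
    exact e2
  · rw [mem_ball, dist_eq_norm] at hv'
    exact hv'.trans_le (min_le_left _ _)

end Pool.Agent.H80.AJ
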