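import Pool.Agent.H80.AJ.Ret
import Pool.Agent.H80.AJ.NoRet

set_option autoImplicit false

open Filter Topology Polynomial OnePoint Metric Set

namespace Pool.Agent.H80.AJ

open Pool.Agent.H44.Fatou Pool.Agent.H32.BT

/-
Proof. Let `S = {k | N ≤ k ∧ ∃ w ∈ ball y r, f^[k] z = w}`: infinite, because `y` is a cluster point
(the coe image of `ball y r` is a neighbourhood of `y` in the sphere). For `k ∈ S` there is a branch
`G k` on `ball (w k) (3 r) ⊆ ball y (4 r)` (`Sys.br`). If the conclusion fails,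
`δ ≤ ‖deriv (G k) (w k)‖` for all `k ∈ S`, so `ret` and `noret` (with `ρ = r/2`) give a
contradiction.
-/
theorem scales {P Q : Polynomial ℂ} {A : Set (OnePoint ℂ)} (h : Sys P Q A) {z y : ℂ}
    (hcl : MapClusterPt (y : OnePoint ℂ) atTop (fun k : ℕ => (rat P Q)^[k] (z : OnePoint ℂ)))
    (hyA : (y : OnePoint ℂ) ∉ A) {u : ℂ} {t : ℝ} (ht : 0 < t)
    (hO : ∀ w ∈ ball u t, ¬ Bad (rat P Q) A (w : OnePoint ℂ)) {r : ℝ} (hr : 0 < r)
    (hoff : Off A y (4 * r)) {δ : ℝ} (hδ : 0 < δ) (N : ℕ) :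
    ∃ (k : ℕ) (w : ℂ) (G : ℂ → ℂ), N ≤ k ∧ w ∈ ball y r ∧
      (rat P Q)^[k] (z : OnePoint ℂ) = (w : OnePoint ℂ) ∧ Br (rat P Q) k w (3 * r) z G ∧
      ‖deriv G w‖ < δ := by
  by_contra hcon
  push Not at hcon
  have hfreq : ∃ᶠ k in atTop, (rat P Q)^[k] (z : OnePoint ℂ) ∈
      ((fun w : ℂ => (w : OnePoint ℂ)) '' ball y r) := by
    have hn : ((fun w : ℂ => (w : OnePoint ℂ)) '' ball y r) ∈ 𝓝 (y : OnePoint ℂ) :=
      OnePoint.isOpenEmbedding_coe.isOpenMap.image_mem_nhds (ball_mem_nhds y hr)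
    exact mapClusterPt_iff_frequently.1 hcl _ hn
  have hS : {k : ℕ | N ≤ k ∧ ∃ w ∈ ball y r, (rat P Q)^[k] (z : OnePoint ℂ) =
      (w : OnePoint ℂ)}.Infinite := by
    rw [← Nat.frequently_atTop_iff_infinite]
    refine (hfreq.and_eventually (eventually_ge_atTop N)).mono ?_
    rintro k ⟨⟨w, hw, hwk⟩, hk⟩
    exact ⟨hk, w, hw, hwk.symm⟩
  have hex : ∀ k ∈ {k : ℕ | N ≤ k ∧ ∃ w ∈ ball y r, (rat P Q)^[k] (z : OnePoint ℂ) =
      (w : OnePoint ℂ)}, ∃ (w : ℂ) (G : ℂ → ℂ), w ∈ ball y r ∧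
      Br (rat P Q) k w (3 * r) z G ∧ δ ≤ ‖deriv G w‖ := by
    rintro k ⟨hk, w, hw, hwk⟩
    have hsub : ball w (3 * r) ⊆ ball y (4 * r) := by
      apply ball_subset_ball'
      have := mem_ball.1 hw
      linarith
    obtain ⟨G, hG⟩ := Sys.br h (show 0 < 3 * r by positivity) (hoff.mono hsub) hwk
    exact ⟨w, G, hw, hG, hcon k w G hk hw hwk hG⟩
  choose! w G hw hG hd using hex
  refine noret h (show 0 < r / 2 by positivity) hyA ?_ ht hO
  intro η hη N'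
  exact ret h hr hδ hoff hS hw hG hd hη N'

end Pool.Agent.H80.AJ
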