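import Pool.Agent.H80.AJ.Bound
import Pool.Agent.H80.AJ.Distort
import Pool.Agent.H80.AJ.Vitali

set_option autoImplicit false

open Filter Topology Polynomial OnePoint Metric Set

namespace Pool.Agent.H80.AJ

open Pool.Agent.H44.Fatou Pool.Agent.H32.BT

/-
Convergence of iterates to the identity spreads off `A`.
Proof. For large `j` let `f^[m j] x = w j`, `‖w j - x‖ < s/2` (NearId at x itself). `ball (w j)
(7 s / 2)` is contained in `ball x (4 s)`, off `A`; let `G j` be the branch of `f^[m j]` on it with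
`G j (w j) = x` (`Sys.br`). It is univalent on `ball x (3 s)`. With `a ∈ A` finite and
`Λ = 16 ‖a - x‖ / (7 s / 2)`, `‖deriv (G j) (w j)‖ ≤ Λ` (`Sys.br_bound`), `G j` is `L = KK Λ`
Lipschitz on `closedBall x (3 s / 2)` (`distort_lip`, `w j` is in it). Let
`c = min (s) (ρ / (2 (L + 1)))`. For `v ∈ ball x c` and `‖w j - x‖ < ρ / (2 (L+1))`:
`‖G j v - x‖ ≤ L ‖v - w j‖ < ρ`, so NearId at `G j v`: `f^[m j] (G j v) = v` is `η`-close to
`G j v`. So `G j → id` uniformly on `ball x c`, and by `vitali_id` (`y = y' = x`, `r = 3 s / 2`)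
uniformly on `closedBall x (3 s / 2)`. Cauchy (circle of radius `s`): `‖deriv (G j) x - 1‖ ≤ 1/2`
for large `j`, so `1 / (2 KK) ≤ ‖deriv (G j) v‖` on `closedBall x (3 s / 2)` (`distort`).
Given `η` (w.l.o.g. `η ≤ s/2`), for `v ∈ ball x s` and large `j` `‖G j v - v‖ < η / (32 KK)`, so
`v ∈ G j '' ball v η` (`univ_cover` on `ball v η ⊆ ball x (3 s / 2)`): `v = G j v'`,
`f^[m j] v = v'`, `‖v' - v‖ < η`.
-/
theorem spread {P Q : Polynomial ℂ} {A : Set (OnePoint ℂ)} (h : Sys P Q A) {m : ℕ → ℕ} {x : ℂ}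
    {ρ s : ℝ} (hρ : 0 < ρ) (hs : 0 < s) (hx : NearId (rat P Q) m x ρ) (hoff : Off A x (4 * s)) :
    NearId (rat P Q) m x s := by
  classical
  obtain ⟨a, ha⟩ := h.fin
  have hKK := KK_pos
  have hxx : x ∈ ball x ρ := mem_ball_self hρ
  -- choose the branches
  have hex : ∀ j : ℕ, ∃ (w : ℂ) (G : ℂ → ℂ),
      (∃ w' : ℂ, (rat P Q)^[m j] (x : OnePoint ℂ) = (w' : OnePoint ℂ) ∧ ‖w' - x‖ < s / 2) →
      ((rat P Q)^[m j] (x : OnePoint ℂ) = (w : OnePoint ℂ) ∧ ‖w - x‖ < s / 2 ∧
        Br (rat P Q) (m j) w (7 * s / 2) x G) := by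
    intro j
    by_cases hc : ∃ w' : ℂ, (rat P Q)^[m j] (x : OnePoint ℂ) = (w' : OnePoint ℂ) ∧ ‖w' - x‖ < s / 2
    · obtain ⟨w, hw, hws⟩ := hc
      have hoffw : Off A w (7 * s / 2) := by
        refine hoff.mono ?_
        intro u hu
        rw [mem_ball, dist_eq_norm] at hu ⊢
        calc ‖u - x‖ = ‖(u - w) + (w - x)‖ := by ring_nf
          _ ≤ ‖u - w‖ + ‖w - x‖ := norm_add_le _ _
          _ < 4 * s := by linarith
      obtain ⟨G, hG⟩ := h.br (by positivity) hoffw hw
      exact ⟨w, G, fun _ => ⟨hw, hws, hG⟩⟩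
    · exact ⟨0, id, fun hc' => absurd hc' hc⟩
  choose w G hwG using hex
  have hgood : ∀ t : ℝ, 0 < t → ∀ᶠ j in atTop, (rat P Q)^[m j] (x : OnePoint ℂ) = (w j : OnePoint ℂ) ∧
      ‖w j - x‖ < s / 2 ∧ ‖w j - x‖ < t ∧ Br (rat P Q) (m j) (w j) (7 * s / 2) x (G j) := by
    intro t ht
    filter_upwards [hx (min (s / 2) t) (lt_min (by positivity) ht)] with j hj
    obtain ⟨w', hw', hw's⟩ := hj x hxx
    have h1 := hwG j ⟨w', hw', lt_of_lt_of_le hw's (min_le_left _ _)⟩
    have h2 : w j = w' := OnePoint.coe_injective (h1.1.symm.trans hw')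
    exact ⟨h1.1, h1.2.1, by rw [h2]; exact lt_of_lt_of_le hw's (min_le_right _ _), h1.2.2⟩
  have hsub3 : ∀ j, ‖w j - x‖ < s / 2 → ball x (3 * s) ⊆ ball (w j) (7 * s / 2) := by
    intro j hj u hu
    rw [mem_ball, dist_eq_norm] at hu ⊢
    calc ‖u - w j‖ = ‖(u - x) - (w j - x)‖ := by ring_nf
      _ ≤ ‖u - x‖ + ‖w j - x‖ := norm_sub_le _ _
      _ < 7 * s / 2 := by linarith
  set Λ : ℝ := 16 * ‖a - x‖ / (7 * s / 2) with hΛ
  have hΛ0 : 0 ≤ Λ := by positivity
  set L : ℝ := KK * Λ with hL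
  have hL0 : 0 ≤ L := by positivity
  have hlip0 : ∀ j, ‖w j - x‖ < s / 2 → Br (rat P Q) (m j) (w j) (7 * s / 2) x (G j) →
      ∀ u ∈ closedBall x (3 * s / 2), ∀ u' ∈ closedBall x (3 * s / 2),
      ‖G j u - G j u'‖ ≤ L * ‖u - u'‖ := by
    intro j hj hB u hu u' hu'
    have hd : DifferentiableOn ℂ (G j) (ball x (3 * s)) := hB.diff.mono (hsub3 j hj)
    have hi : InjOn (G j) (ball x (3 * s)) := hB.inj.mono (hsub3 j hj)
    have hwj : w j ∈ closedBall x (3 * s / 2) := by
      rw [mem_closedBall, dist_eq_norm]; linarith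
    have hoffw : Off A (w j) (7 * s / 2) := by
      refine hoff.mono ?_
      intro u hu
      rw [mem_ball, dist_eq_norm] at hu ⊢
      calc ‖u - x‖ = ‖(u - w j) + (w j - x)‖ := by ring_nf
        _ ≤ ‖u - w j‖ + ‖w j - x‖ := norm_add_le _ _
        _ < 4 * s := by linarith
    have hb := h.br_bound (by positivity) hoffw hB ha
    have hb' : ‖deriv (G j) (w j)‖ ≤ Λ := by
      rw [hΛ, le_div_iff₀ (by positivity)]
      nlinarith
    have h1 := distort_lip (by positivity) hd hi hu hu' hwj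
    calc ‖G j u - G j u'‖ ≤ KK * ‖deriv (G j) (w j)‖ * ‖u - u'‖ := h1
      _ ≤ L * ‖u - u'‖ := by rw [hL]; gcongr
  set c : ℝ := min s (ρ / (2 * (L + 1))) with hc
  have hc0 : 0 < c := lt_min hs (by positivity)
  have hcs : c ≤ s := min_le_left _ _
  have hcρ : c ≤ ρ / (2 * (L + 1)) := min_le_right _ _
  have hsubc : ball x c ⊆ closedBall x (3 * s / 2) := by
    intro u hu
    rw [mem_ball] at hu
    rw [mem_closedBall]
    linarith
  have hvit : ∀ ε : ℝ, 0 < ε → ∀ᶠ n in atTop, ∀ w ∈ closedBall x (3 * s / 2), ‖G n w - w‖ < ε := by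
    intro ε hε
    refine vitali_id (r := 3 * s / 2) (c := c) (L := L) (y' := x) (by positivity) hc0 hsubc ?_ hL0
      ?_ ?_ hε
    · filter_upwards [hgood 1 one_pos] with j hj
      exact hj.2.2.2.diff.mono ((ball_subset_ball (by linarith)).trans (hsub3 j hj.2.1))
    · filter_upwards [hgood 1 one_pos] with j hj
      exact hlip0 j hj.2.1 hj.2.2.2
    · intro η hη
      filter_upwards [hgood (ρ / (2 * (L + 1))) (by positivity), hx η hη] with j hj hjη
      intro v hv
      have hv' : ‖v - x‖ < c := by rwa [mem_ball, dist_eq_norm] at hv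
      have hvb : v ∈ closedBall x (3 * s / 2) := hsubc hv
      have hwb : w j ∈ closedBall x (3 * s / 2) := by
        rw [mem_closedBall, dist_eq_norm]; linarith [hj.2.1]
      have h1 := hlip0 j hj.2.1 hj.2.2.2 v hvb (w j) hwb
      rw [hj.2.2.2.val] at h1
      have h2 : ‖v - w j‖ < ρ / (L + 1) := by
        calc ‖v - w j‖ = ‖(v - x) - (w j - x)‖ := by ring_nf
          _ ≤ ‖v - x‖ + ‖w j - x‖ := norm_sub_le _ _
          _ < ρ / (2 * (L + 1)) + ρ / (2 * (L + 1)) := by linarith [hj.2.2.1]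
          _ = ρ / (L + 1) := by field_simp; ring
      have h3 : ‖G j v - x‖ < ρ := by
        calc ‖G j v - x‖ ≤ L * ‖v - w j‖ := h1
          _ ≤ L * (ρ / (L + 1)) := by gcongr
          _ < ρ := by
            rw [mul_div_assoc', div_lt_iff₀ (by positivity)]
            nlinarith
      obtain ⟨w', hw', hw'η⟩ := hjη (G j v) (by rwa [mem_ball, dist_eq_norm])
      have hvB : v ∈ ball (w j) (7 * s / 2) := by
        apply hsub3 j hj.2.1
        rw [mem_ball, dist_eq_norm]; linarith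
      have h4 := hj.2.2.2.inv v hvB
      have h5 : w' = v := OnePoint.coe_injective (hw'.symm.trans h4)
      rw [h5] at hw'η
      rwa [norm_sub_rev]
  -- the derivative is bounded below
  have hder : ∀ᶠ j in atTop, 1 / 2 ≤ ‖deriv (G j) x‖ := by
    filter_upwards [hvit (s / 2) (by positivity), hgood 1 one_pos] with j hj hjg
    have hdo : DifferentiableOn ℂ (G j) (ball x (3 * s)) := hjg.2.2.2.diff.mono (hsub3 j hjg.2.1)
    have hdx : DifferentiableAt ℂ (G j) x :=
      hdo.differentiableAt (isOpen_ball.mem_nhds (mem_ball_self (by positivity)))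
    have hdc : DiffContOnCl ℂ (fun v => G j v - v) (ball x s) := by
      apply DifferentiableOn.diffContOnCl
      rw [closure_ball x hs.ne']
      exact (hdo.sub differentiableOn_id).mono (closedBall_subset_ball (by linarith))
    have h1 := Complex.norm_deriv_le_of_forall_mem_sphere_norm_le (C := s / 2) hs hdc (by
      intro v hv
      refine (hj v ?_).le
      rw [mem_sphere] at hv
      rw [mem_closedBall]
      linarith)
    have h2 : deriv (fun v => G j v - v) x = deriv (G j) x - 1 := by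
      have := (hdx.hasDerivAt.sub (hasDerivAt_id x)).deriv
      exact this
    rw [h2] at h1
    have h3 : s / 2 / s = 1 / 2 := by field_simp
    rw [h3] at h1
    have h4 : ‖(1 : ℂ)‖ ≤ ‖deriv (G j) x‖ + ‖deriv (G j) x - 1‖ := by
      calc ‖(1 : ℂ)‖ = ‖deriv (G j) x - (deriv (G j) x - 1)‖ := by ring_nf
        _ ≤ _ := norm_sub_le _ _
    rw [norm_one] at h4
    linarith
  intro η hη
  set η' : ℝ := min η (s / 2) with hη'
  have hη'0 : 0 < η' := lt_min hη (by positivity)
  filter_upwards [hder, hvit (η' / (32 * KK)) (by positivity), hgood 1 one_pos] with j hj1 hj2 hj3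
  intro v hv
  have hvs : ‖v - x‖ < s := by rwa [mem_ball, dist_eq_norm] at hv
  have hvb : v ∈ closedBall x (3 * s / 2) := by
    rw [mem_closedBall, dist_eq_norm]; linarith
  have hdo : DifferentiableOn ℂ (G j) (ball x (3 * s)) := hj3.2.2.2.diff.mono (hsub3 j hj3.2.1)
  have hio : InjOn (G j) (ball x (3 * s)) := hj3.2.2.2.inj.mono (hsub3 j hj3.2.1)
  have h1 := distort (by positivity) hdo hio (mem_closedBall_self (by positivity)) hvb
  have h2 : 1 / (2 * KK) ≤ ‖deriv (G j) v‖ := by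
    rw [div_le_iff₀ (by positivity)]
    nlinarith
  have hsubv : ball v η' ⊆ ball x (3 * s) := by
    intro u hu
    rw [mem_ball, dist_eq_norm] at hu ⊢
    have : η' ≤ s / 2 := min_le_right _ _
    calc ‖u - x‖ = ‖(u - v) + (v - x)‖ := by ring_nf
      _ ≤ ‖u - v‖ + ‖v - x‖ := norm_add_le _ _
      _ < 3 * s := by linarith
  have h3 := univ_cover hη'0 (hdo.mono hsubv) (hio.mono hsubv)
  have h4 : v ∈ ball (G j v) (η' * ‖deriv (G j) v‖ / 16) := by
    rw [mem_ball, dist_eq_norm, norm_sub_rev]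
    calc ‖G j v - v‖ < η' / (32 * KK) := hj2 v hvb
      _ = η' * (1 / (2 * KK)) / 16 := by field_simp; ring
      _ ≤ η' * ‖deriv (G j) v‖ / 16 := by gcongr
  obtain ⟨v', hv', hGv'⟩ := h3 h4
  have h5 := hj3.2.2.2.inv v' (hsub3 j hj3.2.1 (hsubv hv'))
  rw [hGv'] at h5
  refine ⟨v', h5, ?_⟩
  rw [mem_ball, dist_eq_norm] at hv'
  exact lt_of_lt_of_le hv' (min_le_left _ _)

end Pool.Agent.H80.AJ
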